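import Mathlib

/-!
# DIV-D1: the class group is finite; elements killed by all characters are l-th powers
-/

set_option autoImplicit false
set_option linter.unusedSectionVars false

namespace Pool.Agent.AB3

open Polynomial

/-- `k` has enough roots of unity of order `l` -/
theorem d1Cl_roots (k : Type) [Field k] [Finite k] (l : ℕ) (hl : l.Prime)
    (hlk : l ∣ Nat.card k - 1) : HasEnoughRootsOfUnity k l := by
  have : NeZero l := ⟨hl.ne_zero⟩
  have hcard : Nat.card kˣ = Nat.card k - 1 := Nat.card_units k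
  obtain ⟨g, hg⟩ := IsCyclic.exists_ofOrder_eq_natCard (α := kˣ)
  have hpos : 0 < Nat.card kˣ := Nat.card_pos
  obtain ⟨m, hm⟩ := hlk
  have hg' : IsPrimitiveRoot g (Nat.card kˣ) := hg ▸ IsPrimitiveRoot.orderOf g
  have h1 : IsPrimitiveRoot (g ^ m) l :=
    hg'.pow hpos (by rw [hcard, hm, mul_comm])
  exact
    { prim := ⟨((g ^ m : kˣ) : k), IsPrimitiveRoot.coe_units_iff.mpr h1⟩
      cyc := rootsOfUnity.isCyclic k l }

/-- in a finite field an element `x` with `x ^ ((q - 1) / l) = 1` is an `l`-th power -/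
theorem d1Cl_pow (F : Type) [Field F] [Finite F] (l : ℕ) (hl : l.Prime)
    (hlF : l ∣ Nat.card F - 1) (x : F) (hx : x ≠ 0) (h : x ^ ((Nat.card F - 1) / l) = 1) :
    ∃ w : F, x = w ^ l := by
  have := Fintype.ofFinite F
  have hcF : 1 < Nat.card F := Finite.one_lt_card
  have hc : Nat.card Fˣ = Nat.card F - 1 := Nat.card_units F
  obtain ⟨m, hm⟩ := hlF
  have hm0 : 0 < m := by
    rcases Nat.eq_zero_or_pos m with h | h
    · rw [h, mul_zero] at hm
      omega
    · exact h
  have hd : (Nat.card F - 1) / l = m := by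
    rw [hm, Nat.mul_div_cancel_left _ hl.pos]
  rw [hd] at h
  obtain ⟨g, hg⟩ := IsCyclic.exists_generator (α := Fˣ)
  obtain ⟨i, hi⟩ := Subgroup.mem_zpowers_iff.1 (hg (Units.mk0 x hx))
  have h1 : (Units.mk0 x hx) ^ m = 1 := Units.ext (by
    rw [Units.val_pow_eq_pow_val, Units.val_mk0, h, Units.val_one])
  rw [← hi, ← zpow_natCast, ← zpow_mul] at h1
  have h2 := orderOf_dvd_iff_zpow_eq_one.2 h1
  rw [orderOf_eq_card_of_forall_mem_zpowers hg, hc, hm] at h2
  obtain ⟨j, hj⟩ := h2
  have h3 : i = l * j := by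
    have hm' : (m : ℤ) ≠ 0 := by exact_mod_cast hm0.ne'
    apply mul_right_cancel₀ hm'
    rw [hj]
    push_cast
    ring
  refine ⟨((g ^ j : Fˣ) : F), ?_⟩
  have h4 : Units.mk0 x hx = (g ^ j) ^ l := by
    rw [← hi, h3, ← zpow_natCast, ← zpow_mul, mul_comm]
  have h5 := congrArg Units.val h4
  rwa [Units.val_mk0, Units.val_pow_eq_pow_val] at h5

/-- **D1Cl.** the class group of a Dedekind domain finite over `F[X]`, `F` finite -/
theorem cls_fin (F S : Type) [Field F] [Finite F] [CommRing S] [IsDedekindDomain S]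
    [Algebra F[X] S] [Module.Finite F[X] S] (hinj : Function.Injective (algebraMap F[X] S)) :
    Finite (ClassGroup S) := by
  classical
  have : Fintype F := Fintype.ofFinite F
  have htf : Module.IsTorsionFree F[X] S :=
    Module.isTorsionFree_iff_algebraMap_injective.mpr hinj
  obtain ⟨n, b⟩ := Module.basisOfFiniteTypeTorsionFree' (R := F[X]) (M := S)
  have hfin : Fintype (ClassGroup S) :=
    ClassGroup.fintypeOfAdmissibleOfAlgebraic b
      (Polynomial.cardPowDegreeIsAdmissible :
        AbsoluteValue.IsAdmissible (Polynomial.cardPowDegree : AbsoluteValue F[X] ℤ))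
  exact Finite.of_fintype _

/-- an element killed by all characters of order `l` is an `l`-th power -/
theorem grp_pow {C K : Type} [CommGroup C] [Finite C] [Field K] [Finite K] (l : ℕ) (hl : l.Prime)
    (hlk : l ∣ Nat.card K - 1) (c : C)
    (h : ∀ β : C →* Kˣ, (∀ x, β x ^ l = 1) → β c = 1) : ∃ b : C, c = b ^ l := by
  have hE := d1Cl_roots K l hl hlk
  have : NeZero l := ⟨hl.ne_zero⟩
  obtain ⟨N, hN⟩ : ∃ N : Subgroup C, N = (powMonoidHom l : C →* C).range := ⟨_, rfl⟩
  have hexp : Monoid.exponent (C ⧸ N) ∣ l := by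
    refine Monoid.exponent_dvd_of_forall_pow_eq_one ?_
    intro x
    obtain ⟨c, rfl⟩ := QuotientGroup.mk_surjective x
    rw [← QuotientGroup.mk_pow, QuotientGroup.eq_one_iff, hN]
    exact ⟨c, rfl⟩
  have : HasEnoughRootsOfUnity K (Monoid.exponent (C ⧸ N)) :=
    HasEnoughRootsOfUnity.of_dvd K hexp
  by_cases hc : c ∈ N
  · rw [hN] at hc
    obtain ⟨b, hb⟩ := hc
    exact ⟨b, hb.symm⟩
  · exfalso
    have h1 : (QuotientGroup.mk c : C ⧸ N) ≠ 1 := fun h1 => hc ((QuotientGroup.eq_one_iff c).1 h1)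
    obtain ⟨φ, hφ⟩ := CommGroup.exists_apply_ne_one_of_hasEnoughRootsOfUnity (C ⧸ N) K h1
    refine hφ (h (φ.comp (QuotientGroup.mk' N)) ?_)
    intro x
    have h2 : (QuotientGroup.mk' N x) ^ l = 1 := by
      rw [← map_pow]
      refine (QuotientGroup.eq_one_iff _).2 ?_
      rw [hN]
      exact ⟨x, rfl⟩
    rw [MonoidHom.comp_apply, ← map_pow, h2, map_one]

/-- in an extension of degree `l` of finite fields, the elements of the small field are `l`-th
powers -/
theorem low_pow (F F' : Type) [Field F] [Finite F] [Field F'] [Finite F'] [Algebra F F'] (l : ℕ)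
    (hl : l.Prime) (hlF : l ∣ Nat.card F - 1) (hd : Module.finrank F F' = l) (c : F)
    (hc : c ≠ 0) : (algebraMap F F' c) ^ ((Nat.card F' - 1) / l) = 1 ∧
      ∃ w : F', algebraMap F F' c = w ^ l := by
  have := Fintype.ofFinite F
  have := Fintype.ofFinite F'
  have hq : 1 < Nat.card F := Finite.one_lt_card
  have hcard : Nat.card F' = Nat.card F ^ l := by
    rw [Nat.card_eq_fintype_card, Nat.card_eq_fintype_card, ← hd]
    exact Module.card_eq_pow_finrank
  have hS : (Nat.card F - 1) * ∑ i ∈ Finset.range l, Nat.card F ^ i = Nat.card F' - 1 := by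
    have h1 := Nat.geomSum_eq (m := Nat.card F) hq l
    have h2 : (Nat.card F - 1) ∣ Nat.card F ^ l - 1 := by
      have h3 := Nat.sub_dvd_pow_sub_pow (Nat.card F) 1 l
      rwa [one_pow] at h3
    rw [h1, hcard, Nat.mul_div_cancel' h2]
  have hlS : l ∣ ∑ i ∈ Finset.range l, Nat.card F ^ i := by
    have h1 : (∑ i ∈ Finset.range l, Nat.card F ^ i) ≡ ∑ i ∈ Finset.range l, 1 [MOD l] := by
      have h2 : ∀ n : ℕ, (∑ i ∈ Finset.range n, Nat.card F ^ i) ≡
          ∑ i ∈ Finset.range n, 1 [MOD l] := by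
        intro n
        induction n with
        | zero => exact Nat.ModEq.refl _
        | succ n ih =>
          rw [Finset.sum_range_succ, Finset.sum_range_succ]
          refine ih.add ?_
          have h3 : Nat.card F ≡ 1 [MOD l] := ((Nat.modEq_iff_dvd' hq.le).2 hlF).symm
          have h4 := h3.pow n
          rwa [one_pow] at h4
      exact h2 l
    rw [Finset.sum_const, Finset.card_range, smul_eq_mul, mul_one] at h1
    exact (Nat.modEq_zero_iff_dvd.1 (h1.trans (Nat.modEq_zero_iff_dvd.2 dvd_rfl)))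
  obtain ⟨s, hs⟩ := hlS
  have hdiv : (Nat.card F' - 1) / l = (Nat.card F - 1) * s := by
    rw [← hS, hs, mul_left_comm, Nat.mul_div_cancel_left _ hl.pos]
  have hc1 : c ^ (Nat.card F - 1) = 1 := by
    rw [Nat.card_eq_fintype_card]
    exact FiniteField.pow_card_sub_one_eq_one c hc
  have h1 : (algebraMap F F' c) ^ ((Nat.card F' - 1) / l) = 1 := by
    rw [hdiv, pow_mul, ← map_pow, hc1, map_one, one_pow]
  refine ⟨h1, d1Cl_pow F' l hl ?_ _ ?_ h1⟩
  · rw [← hS]
    exact hlF.mul_right _
  · intro h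
    exact hc ((map_eq_zero _).1 h)

end Pool.Agent.AB3
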