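import Pool.Agent.Lib.MP_5de024_nt.S.DivX.GalIC
import Pool.Agent.Lib.MP_5de024_nt.S.GeoX

/-!
# Algebraic extensions of a finite field of constants: Dedekind (part DIV, step B)
-/

set_option autoImplicit false
set_option linter.unusedSectionVars false

namespace Pool.Agent.AB3

open TensorProduct

section tens

variable (k F R : Type) [Field k] [Field F] [Algebra k F] [CommRing R] [Algebra k R]

/-- `F ⊗ R` as an algebra over `R` -/
noncomputable abbrev tensAlg : Algebra R (F ⊗[k] R) := Algebra.TensorProduct.rightAlgebra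

attribute [local instance] tensAlg

theorem tensAlg_map (r : R) : algebraMap R (F ⊗[k] R) r = 1 ⊗ₜ[k] r := rfl

/-- the action of an automorphism of `F` -/
noncomputable def tensAut (σ : F ≃ₐ[k] F) : (F ⊗[k] R) ≃ₐ[R] (F ⊗[k] R) :=
  AlgEquiv.ofRingEquiv
    (f := (Algebra.TensorProduct.congr σ (AlgEquiv.refl : R ≃ₐ[k] R)).toRingEquiv) (by
      intro r
      change Algebra.TensorProduct.congr σ (AlgEquiv.refl : R ≃ₐ[k] R) (1 ⊗ₜ[k] r) = 1 ⊗ₜ[k] r
      rw [Algebra.TensorProduct.congr_apply, Algebra.TensorProduct.map_tmul]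
      simp)

theorem tensAut_tmul (σ : F ≃ₐ[k] F) (a : F) (r : R) :
    tensAut k F R σ (a ⊗ₜ[k] r) = σ a ⊗ₜ[k] r := by
  change Algebra.TensorProduct.congr σ (AlgEquiv.refl : R ≃ₐ[k] R) (a ⊗ₜ[k] r) = _
  rw [Algebra.TensorProduct.congr_apply, Algebra.TensorProduct.map_tmul]
  simp

/-- the action of the Galois group -/
noncomputable def tensAct : (F ≃ₐ[k] F) →* ((F ⊗[k] R) ≃ₐ[R] (F ⊗[k] R)) where
  toFun := tensAut k F R
  map_one' := by
    ext z
    induction z using TensorProduct.induction_on with
    | zero => rw [map_zero, map_zero]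
    | tmul a r => rw [tensAut_tmul]; rfl
    | add x y hx hy => rw [map_add, map_add, hx, hy]
  map_mul' σ τ := by
    ext z
    induction z using TensorProduct.induction_on with
    | zero => rw [map_zero, map_zero]
    | tmul a r =>
      rw [AlgEquiv.mul_apply, tensAut_tmul, tensAut_tmul, tensAut_tmul]
      rfl
    | add x y hx hy => rw [map_add, map_add, hx, hy]

theorem tensAct_tmul (σ : F ≃ₐ[k] F) (a : F) (r : R) :
    tensAct k F R σ (a ⊗ₜ[k] r) = σ a ⊗ₜ[k] r := tensAut_tmul k F R σ a r

theorem tens_inj [Nontrivial R] : Function.Injective (algebraMap R (F ⊗[k] R)) := by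
  have := Algebra.TensorProduct.includeRight_injective (R := k) (A := F) (B := R)
    (algebraMap k F).injective
  exact this

variable [Finite k] [Finite F]

theorem tens_fixed (z : F ⊗[k] R) (hz : ∀ σ, tensAct k F R σ z = z) :
    ∃ r : R, algebraMap R (F ⊗[k] R) r = z := by
  classical
  let _ := Fintype.ofFinite F
  have hfd : FiniteDimensional k F := inferInstance
  have hg : IsGalois k F := inferInstance
  have hsum : ∀ w : F ⊗[k] R, ∃ r : R, algebraMap R (F ⊗[k] R) r =
      ∑ σ : F ≃ₐ[k] F, tensAct k F R σ w := by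
    intro w
    induction w using TensorProduct.induction_on with
    | zero => exact ⟨0, by simp⟩
    | tmul a r =>
      refine ⟨Algebra.trace k F a • r, ?_⟩
      rw [tensAlg_map, TensorProduct.tmul_smul, TensorProduct.smul_tmul',
        ← Algebra.algebraMap_eq_smul_one, trace_eq_sum_automorphisms, TensorProduct.sum_tmul]
      exact Finset.sum_congr rfl fun σ _ => (tensAct_tmul k F R σ a r).symm
    | add x y hx hy =>
      obtain ⟨r, hr⟩ := hx
      obtain ⟨s, hs⟩ := hy
      refine ⟨r + s, ?_⟩
      rw [map_add, hr, hs, ← Finset.sum_add_distrib]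
      exact Finset.sum_congr rfl fun σ _ => (map_add _ _ _).symm
  obtain ⟨c, hc⟩ := Algebra.trace_surjective k F 1
  obtain ⟨r, hr⟩ := hsum ((c ⊗ₜ[k] 1) * z)
  refine ⟨r, hr.trans ?_⟩
  have h1 : ∀ σ : F ≃ₐ[k] F, tensAct k F R σ ((c ⊗ₜ[k] 1) * z) = (σ c ⊗ₜ[k] 1) * z := by
    intro σ
    rw [map_mul, hz, tensAct_tmul]
  rw [Finset.sum_congr rfl fun σ _ => h1 σ, ← Finset.sum_mul, ← TensorProduct.sum_tmul,
    ← trace_eq_sum_automorphisms, hc, map_one]
  exact one_mul z

theorem tens_coord : ∃ (m : ℕ) (x y : Fin m → F ⊗[k] R), ∀ σ : F ≃ₐ[k] F,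
    (σ = 1 → ∑ i, x i * tensAct k F R σ (y i) = 1) ∧
    (σ ≠ 1 → ∑ i, x i * tensAct k F R σ (y i) = 0) := by
  have : Finite (F ≃ₐ[k] F) := inferInstance
  obtain ⟨n, x, y, hxy⟩ := geoX_sep (ι := F ≃ₐ[k] F) (S := F) (B := F)
    (fun σ => (σ : F →+* F)) 1 (by
      intro t ht
      have h1 : ∃ s : F, s - t s ≠ 0 := by
        by_contra hcon
        push Not at hcon
        apply ht
        ext s
        exact (sub_eq_zero.1 (hcon s)).symm
      obtain ⟨s, hs⟩ := h1
      exact ⟨s, (s - t s)⁻¹, inv_mul_cancel₀ hs⟩)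
  refine ⟨n, fun i => x i ⊗ₜ[k] 1, fun i => y i ⊗ₜ[k] 1, fun σ => ?_⟩
  have h2 : ∑ i, (x i ⊗ₜ[k] (1 : R)) * tensAct k F R σ (y i ⊗ₜ[k] 1) =
      (∑ i, x i * σ (y i)) ⊗ₜ[k] (1 : R) := by
    rw [TensorProduct.sum_tmul]
    refine Finset.sum_congr rfl fun i _ => ?_
    rw [tensAct_tmul, Algebra.TensorProduct.tmul_mul_tmul, mul_one]
  constructor
  · intro hσ
    rw [h2]
    have := (hxy σ).1 hσ
    rw [show ∑ i, x i * σ (y i) = 1 from this]
    rfl
  · intro hσ
    rw [h2]
    have := (hxy σ).2 hσ
    rw [show ∑ i, x i * σ (y i) = 0 from this, TensorProduct.zero_tmul]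

/-- finite extensions of the finite field of constants -/
theorem tens_dedekind [IsDedekindDomain R] (h : IsDomain (F ⊗[k] R)) :
    IsDedekindDomain (F ⊗[k] R) :=
  gal_dedekind (tens_inj k F R) (tensAct k F R) (tens_fixed k F R) (tens_coord k F R)

theorem tens_intClosed [IsDomain R] [IsIntegrallyClosed R] (h : IsDomain (F ⊗[k] R)) :
    IsIntegrallyClosed (F ⊗[k] R) :=
  gal_intClosed (tens_inj k F R) (tensAct k F R) (tens_fixed k F R) (tens_coord k F R)

end tens

section bar

variable (k K R : Type) [Field k] [Finite k] [Field K] [Algebra k K] [Algebra.IsAlgebraic k K]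
  [CommRing R] [Algebra k R]

/-- finitely many elements come from a finite subextension -/
theorem bar_lift (s : Finset (K ⊗[k] R)) : ∃ D : Subalgebra k K, D.FG ∧
    ∀ z ∈ s, ∃ z' : D ⊗[k] R, Algebra.TensorProduct.map D.val (AlgHom.id k R) z' = z := by
  classical
  induction s using Finset.induction_on with
  | empty => exact ⟨⊥, Subalgebra.fg_bot, by simp⟩
  | insert a s _ ih =>
    obtain ⟨D, hD, h⟩ := ih
    obtain ⟨D1, hD1, hz1⟩ := TensorProduct.Algebra.exists_of_fg a
    refine ⟨D1 ⊔ D, hD1.sup hD, fun z hz => ?_⟩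
    rcases Finset.mem_insert.1 hz with rfl | hz
    · exact geoI_lift k R K D1 (D1 ⊔ D) le_sup_left _ hz1
    · obtain ⟨z', hz'⟩ := h z hz
      refine ⟨Algebra.TensorProduct.map (Subalgebra.inclusion (le_sup_right : D ≤ D1 ⊔ D))
        (AlgHom.id k R) z', ?_⟩
      rw [← hz', ← AlgHom.comp_apply]
      have : (Algebra.TensorProduct.map (D1 ⊔ D).val (AlgHom.id k R)).comp
          (Algebra.TensorProduct.map (Subalgebra.inclusion (le_sup_right : D ≤ D1 ⊔ D))
            (AlgHom.id k R)) = Algebra.TensorProduct.map D.val (AlgHom.id k R) := by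
        ext d
        · simp
        · simp
      rw [this]

/-- the map from a subextension is injective -/
theorem bar_inj (D : Subalgebra k K) :
    Function.Injective (Algebra.TensorProduct.map D.val (AlgHom.id k R)) := by
  have := Module.Flat.rTensor_preserves_injective_linearMap (M := R)
    D.val.toLinearMap Subtype.val_injective
  exact this

/-- a finitely generated subalgebra is a finite field -/
theorem bar_finite (D : Subalgebra k K) (hD : D.FG) : IsField D ∧ Finite D := by
  have : Algebra.FiniteType k D := (Subalgebra.fg_iff_finiteType D).1 hD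
  have : Algebra.IsIntegral k D := by
    constructor
    intro x
    have h2 : IsIntegral k (x : K) := (Algebra.IsAlgebraic.isAlgebraic (x : K)).isIntegral
    exact (isIntegral_algHom_iff D.val Subtype.val_injective).1 h2
  have : Module.Finite k D := Algebra.IsIntegral.finite
  exact ⟨(fieldOfFiniteDimensional k D).toIsField, Module.finite_of_finite k⟩

open Polynomial in
theorem bar_intClosed [IsDomain R] [IsIntegrallyClosed R] (h : IsDomain (K ⊗[k] R)) :
    IsIntegrallyClosed (K ⊗[k] R) := by
  classical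
  rw [isIntegrallyClosed_iff (FractionRing (K ⊗[k] R))]
  intro z hz
  obtain ⟨b, c, hc, hbc⟩ := IsFractionRing.div_surjective (A := K ⊗[k] R) z
  have hc0 : c ≠ 0 := nonZeroDivisors.ne_zero hc
  obtain ⟨P, hP, hPz⟩ := hz
  obtain ⟨D, hD, hl⟩ := bar_lift k K R (insert b (insert c P.coeffs))
  obtain ⟨hDf, hDfin⟩ := bar_finite k K D hD
  let _ : Field D := hDf.toField
  let φ : D ⊗[k] R →+* K ⊗[k] R := (Algebra.TensorProduct.map D.val (AlgHom.id k R)).toRingHom
  have hφ : Function.Injective φ := bar_inj k K R D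
  have hdom : IsDomain (D ⊗[k] R) := hφ.isDomain φ
  have hic : IsIntegrallyClosed (D ⊗[k] R) := tens_intClosed k D R hdom
  obtain ⟨b', hb'⟩ := hl b (by simp)
  obtain ⟨c', hc'⟩ := hl c (by simp)
  have hc'0 : c' ≠ 0 := by
    rintro rfl
    apply hc0
    rw [← hc', map_zero]
  have hlift : P ∈ Polynomial.lifts φ := by
    rw [Polynomial.lifts_iff_coeff_lifts]
    intro n
    by_cases h0 : P.coeff n = 0
    · rw [h0]
      exact ⟨0, map_zero _⟩
    · obtain ⟨w, hw⟩ := hl (P.coeff n) (by
        rw [Finset.mem_insert, Finset.mem_insert]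
        exact Or.inr (Or.inr (Polynomial.coeff_mem_coeffs h0)))
      exact ⟨w, hw⟩
  obtain ⟨Q, hQ, -, hQm⟩ := Polynomial.lifts_and_natDegree_eq_and_monic hlift hP
  let Φ : FractionRing (D ⊗[k] R) →+* FractionRing (K ⊗[k] R) :=
    IsFractionRing.map (K := FractionRing (D ⊗[k] R)) (L := FractionRing (K ⊗[k] R)) hφ
  have hΦ : ∀ w, Φ (algebraMap _ _ w) = algebraMap _ _ (φ w) := fun w =>
    IsLocalization.map_eq _ _
  obtain ⟨w, hw⟩ := (isIntegrallyClosed_iff (FractionRing (D ⊗[k] R))).1 hic
    (x := algebraMap _ _ b' / algebraMap _ _ c') ⟨Q, hQm, by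
      apply Φ.injective
      rw [Polynomial.hom_eval₂, map_zero]
      have e1 : Φ (algebraMap _ _ b' / algebraMap _ _ c') = z := by
        rw [map_div₀, hΦ, hΦ, ← hbc]
        congr 1
        · exact congrArg _ hb'
        · exact congrArg _ hc'
      have e2 : Φ.comp (algebraMap (D ⊗[k] R) (FractionRing (D ⊗[k] R))) =
          (algebraMap (K ⊗[k] R) (FractionRing (K ⊗[k] R))).comp φ := by
        refine RingHom.ext fun w => ?_
        exact hΦ w
      rw [e1, e2, ← Polynomial.eval₂_map, hQ]
      exact hPz⟩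
  refine ⟨φ w, ?_⟩
  rw [← hΦ, hw, map_div₀, hΦ, hΦ, ← hbc]
  congr 1
  · exact congrArg _ hb'
  · exact congrArg _ hc'

open Polynomial in
/-- algebraic extensions of the finite field of constants -/
theorem bar_dedekind [IsDedekindDomain R] [Algebra k[X] R] [IsScalarTower k k[X] R]
    [Module.Finite k[X] R] (h : IsDomain (K ⊗[k] R)) : IsDedekindDomain (K ⊗[k] R) := by
  have hic : IsIntegrallyClosed (K ⊗[k] R) := bar_intClosed k K R h
  let ψ : K[X] →+* K ⊗[k] R := Polynomial.eval₂RingHom
    (Algebra.TensorProduct.includeLeftRingHom : K →+* K ⊗[k] R)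
    (1 ⊗ₜ[k] algebraMap k[X] R X)
  let _ : Algebra K[X] (K ⊗[k] R) := ψ.toAlgebra
  have hψ : ∀ (a : K) (f : k[X]), ψ (C a * f.map (algebraMap k K)) =
      a ⊗ₜ[k] algebraMap k[X] R f := by
    intro a f
    rw [map_mul]
    have h1 : ψ (C a) = a ⊗ₜ[k] 1 := by
      simp only [ψ, Polynomial.coe_eval₂RingHom, Polynomial.eval₂_C]
      rfl
    have h2 : ψ (f.map (algebraMap k K)) = 1 ⊗ₜ[k] algebraMap k[X] R f := by
      have h3 : ψ.comp (Polynomial.mapRingHom (algebraMap k K)) =
          ((Algebra.TensorProduct.includeRight : R →ₐ[k] K ⊗[k] R) : R →+* K ⊗[k] R).comp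
            (algebraMap k[X] R) := by
        apply Polynomial.ringHom_ext
        · intro c
          simp only [RingHom.comp_apply, Polynomial.coe_mapRingHom, Polynomial.map_C, ψ,
            Polynomial.coe_eval₂RingHom, Polynomial.eval₂_C]
          have h4 : algebraMap k[X] R (C c) = algebraMap k R c := by
            rw [IsScalarTower.algebraMap_apply k k[X] R]
            rfl
          rw [h4]
          change (algebraMap k K c) ⊗ₜ[k] (1 : R) = 1 ⊗ₜ[k] algebraMap k R c
          rw [Algebra.algebraMap_eq_smul_one, Algebra.algebraMap_eq_smul_one,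
            TensorProduct.smul_tmul]
        · simp only [RingHom.comp_apply, Polynomial.coe_mapRingHom, Polynomial.map_X, ψ,
            Polynomial.coe_eval₂RingHom, Polynomial.eval₂_X]
          rfl
      exact RingHom.congr_fun h3 f
    rw [h1, h2, Algebra.TensorProduct.tmul_mul_tmul, mul_one, one_mul]
  have hfin : Module.Finite K[X] (K ⊗[k] R) := by
    obtain ⟨s, hs⟩ := (inferInstance : Module.Finite k[X] R)
    classical
    refine ⟨⟨s.image fun r => 1 ⊗ₜ[k] r, ?_⟩⟩
    rw [eq_top_iff]
    intro z hz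
    clear hz
    induction z using TensorProduct.induction_on with
    | zero => exact Submodule.zero_mem _
    | add x y hx hy => exact Submodule.add_mem _ hx hy
    | tmul a r =>
      have hr : r ∈ Submodule.span k[X] (s : Set R) := by rw [hs]; trivial
      induction hr using Submodule.span_induction with
      | mem r hr =>
        have h5 : a ⊗ₜ[k] r = (C a : K[X]) • ((1 : K) ⊗ₜ[k] r) := by
          rw [Algebra.smul_def]
          change _ = ψ (C a) * _
          have := hψ a 1
          rw [Polynomial.map_one, mul_one, map_one] at this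
          rw [this, Algebra.TensorProduct.tmul_mul_tmul, mul_one, one_mul]
        rw [h5]
        refine Submodule.smul_mem _ _ (Submodule.subset_span ?_)
        rw [Finset.coe_image]
        exact ⟨r, hr, rfl⟩
      | zero => rw [TensorProduct.tmul_zero]; exact Submodule.zero_mem _
      | add x y _ _ hx hy => rw [TensorProduct.tmul_add]; exact Submodule.add_mem _ hx hy
      | smul f x _ hx =>
        have h6 : a ⊗ₜ[k] (f • x) = (f.map (algebraMap k K)) • (a ⊗ₜ[k] x) := by
          rw [Algebra.smul_def, Algebra.smul_def]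
          change _ = ψ _ * _
          have := hψ 1 f
          rw [map_one, one_mul] at this
          rw [this, Algebra.TensorProduct.tmul_mul_tmul, one_mul]
        rw [h6]
        exact Submodule.smul_mem _ _ hx
  exact dedekind_of_finite (A := K[X])

end bar

end Pool.Agent.AB3
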