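import Pool.Agent.Lib.MP_5de024_nt.S.DivX.D1Pr
import Pool.Agent.Lib.MP_5de024_nt.S.DivX.Tens
import Pool.Agent.Lib.MP_5de024_nt.S.D2
import Pool.Agent.Lib.MP_5de024_nt.S.D2B

/-!
# DIV-D1: all classes of order l come from one finite field of constants
-/

set_option autoImplicit false
set_option linter.unusedSectionVars false

namespace Pool.Agent.AB3

open TensorProduct Polynomial nonZeroDivisors

/-- finitely many elements of `K ⊗ R` come from a finite subfield, which contains a primitive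
`l`-th root of unity -/
theorem lv_lift (k K R : Type) [Field k] [Finite k] [Field K] [Algebra k K]
    [Algebra.IsAlgebraic k K] [IsAlgClosed K] [CommRing R] [Algebra k R] (l : ℕ) (hl : l.Prime)
    (hlk : (l : k) ≠ 0) (s : Finset (K ⊗[k] R)) :
    ∃ (F₀ : Type) (_ : Field F₀) (_ : Finite F₀) (_ : Algebra k F₀) (_ : Algebra F₀ K)
      (_ : IsScalarTower k F₀ K), l ∣ Nat.card F₀ - 1 ∧ ∀ z ∈ s, ∃ z', mp k F₀ K R z' = z := by
  classical
  obtain ⟨D, hD, hlf⟩ := bar_lift k K R s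
  -- a root of unity
  have hlK : (l : K) ≠ 0 := by
    have h1 := (map_ne_zero (algebraMap k K)).2 hlk
    rwa [map_natCast] at h1
  have hne : NeZero (l : K) := ⟨hlK⟩
  have hnl : NeZero l := ⟨hl.ne_zero⟩
  obtain ⟨ζ, hζ⟩ := HasEnoughRootsOfUnity.exists_primitiveRoot K l
  -- the finite field
  obtain ⟨S, hS⟩ := hD
  have hfd : FiniteDimensional k (IntermediateField.adjoin k (↑(insert ζ S) : Set K)) := by
    refine IntermediateField.finiteDimensional_adjoin fun x _ => ?_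
    exact (Algebra.IsAlgebraic.isAlgebraic x).isIntegral
  obtain ⟨F₀, hF₀⟩ : ∃ F₀ : IntermediateField k K,
      F₀ = IntermediateField.adjoin k (↑(insert ζ S) : Set K) := ⟨_, rfl⟩
  rw [← hF₀] at hfd
  have hsub : (↑(insert ζ S) : Set K) ⊆ F₀ := by
    rw [hF₀]
    exact IntermediateField.subset_adjoin k _
  have hDF : D ≤ F₀.toSubalgebra := by
    rw [← hS, Algebra.adjoin_le_iff]
    intro x hx
    exact hsub (Finset.mem_coe.2 (Finset.mem_insert_of_mem hx))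
  have hζF : ζ ∈ F₀ := hsub (Finset.mem_coe.2 (Finset.mem_insert_self ζ S))
  have hfin : Finite F₀ := Module.finite_of_finite k
  refine ⟨F₀, inferInstance, hfin, inferInstance, inferInstance, inferInstance, ?_, ?_⟩
  · have h1 : orderOf (⟨ζ, hζF⟩ : F₀) = l := by
      have h2 : orderOf (algebraMap F₀ K ⟨ζ, hζF⟩) = orderOf (⟨ζ, hζF⟩ : F₀) :=
        orderOf_injective (algebraMap F₀ K).toMonoidHom (algebraMap F₀ K).injective _
      rw [← h2]
      exact hζ.eq_orderOf.symm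
    have h0 : (⟨ζ, hζF⟩ : F₀) ≠ 0 := by
      intro h3
      have h4 : ζ = 0 := congrArg (algebraMap F₀ K) h3
      exact hζ.ne_zero hl.ne_zero h4
    have h5 : orderOf (Units.mk0 (⟨ζ, hζF⟩ : F₀) h0) = l := by
      rw [← orderOf_units]
      exact h1
    rw [← Nat.card_units, ← h5]
    exact orderOf_dvd_natCard _
  · intro z hz
    obtain ⟨z', hz'⟩ := hlf z hz
    refine ⟨Algebra.TensorProduct.map (Subalgebra.inclusion hDF : D →ₐ[k] F₀)
      (AlgHom.id k R) z', ?_⟩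
    rw [← hz']
    have h6 : (Algebra.TensorProduct.map (IsScalarTower.toAlgHom k F₀ K) (AlgHom.id k R)).comp
        (Algebra.TensorProduct.map (Subalgebra.inclusion hDF : D →ₐ[k] F₀)
          (AlgHom.id k R)) = Algebra.TensorProduct.map D.val (AlgHom.id k R) := by
      ext d
      · rfl
      · rfl
    rw [← h6]
    rfl

/-- **D1Lv.** all classes of order `l` come from one finite field of constants -/
theorem lv_exists (k R : Type) [Field k] [Finite k] [CommRing R] [IsDedekindDomain R]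
    [Algebra k R] [Algebra k[X] R] [IsScalarTower k k[X] R] [Module.Finite k[X] R]
    {X : OneInfC k R} (E : DegB X) (l : ℕ) (hl : l.Prime) (hlk : (l : k) ≠ 0) :
    ∃ (F₀ : Type) (_ : Field F₀) (_ : Finite F₀) (_ : Algebra k F₀), l ∣ Nat.card F₀ - 1 ∧
      ∀ (F₁ : Type) [Field F₁] [Finite F₁] [Algebra k F₁] [Algebra F₀ F₁] [IsScalarTower k F₀ F₁]
        (J : Ideal (F₁ ⊗[k] R)) (u : F₁ ⊗[k] R), J ≠ ⊥ → J ^ l = Ideal.span {u} →
        ∃ (J₀ : Ideal (F₀ ⊗[k] R)) (u₀ : F₀ ⊗[k] R), J₀ ≠ ⊥ ∧ J₀ ^ l = Ideal.span {u₀} ∧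
          Eqv J (J₀.map (mp k F₀ F₁ R)) := by
  classical
  obtain ⟨K, iK, iA, iC, hK⟩ : ∃ (K : Type) (_ : Field K) (_ : Algebra k K)
      (_ : Algebra.IsAlgebraic k K), IsAlgClosed K :=
    ⟨AlgebraicClosure k, inferInstance, inferInstance, inferInstance, inferInstance⟩
  obtain ⟨Y, -⟩ := bc_exists E K
  have hdom : IsDomain (K ⊗[k] R) := Y.dom
  have hded : IsDedekindDomain (K ⊗[k] R) := bar_dedekind k K R hdom
  have hft : Algebra.FiniteType k R := by
    have h1 : Algebra.FiniteType k[X] R := inferInstance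
    exact Algebra.FiniteType.trans (inferInstance : Algebra.FiniteType k k[X]) h1
  have hlK : (l : K) ≠ 0 := by
    have h1 := (map_ne_zero (algebraMap k K)).2 hlk
    rwa [map_natCast] at h1
  have hfin := d2_main K (K ⊗[k] R) Y l hlK
  -- representatives of the classes
  have hrep : ∀ c : ClassGroup (K ⊗[k] R), c ^ l = 1 → ∃ (t : Finset (K ⊗[k] R))
      (u : K ⊗[k] R) (I : (Ideal (K ⊗[k] R))⁰), ClassGroup.mk0 I = c ∧
      (I : Ideal (K ⊗[k] R)) = Ideal.span (t : Set (K ⊗[k] R)) ∧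
      (I : Ideal (K ⊗[k] R)) ^ l = Ideal.span {u} := by
    intro c hc
    obtain ⟨I, hI⟩ := ClassGroup.mk0_surjective c
    have h1 : ClassGroup.mk0 (I ^ l) = 1 := by rw [map_pow, hI, hc]
    have h2 : ((I : Ideal (K ⊗[k] R)) ^ l).IsPrincipal := by
      have h3 := (ClassGroup.mk0_eq_one_iff (I ^ l).2).1 h1
      exact h3
    obtain ⟨u, hu⟩ := h2
    obtain ⟨t, ht⟩ := IsNoetherian.noetherian (I : Ideal (K ⊗[k] R))
    exact ⟨t, u, I, hI, ht.symm, hu⟩
  choose t u I hI ht hu using hrep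
  let S : Finset {c : ClassGroup (K ⊗[k] R) // c ^ l = 1} := hfin.toFinset.subtype _
  let s : Finset (K ⊗[k] R) := S.biUnion fun c => insert (u c c.2) (t c c.2)
  obtain ⟨F₀, iF, hFf, iA0, iA1, iT, hcard, hs⟩ := lv_lift k K R l hl hlk s
  refine ⟨F₀, iF, hFf, iA0, hcard, ?_⟩
  intro F₁ _ _ _ _ _ J w hJ hJw
  -- the embedding
  have hfd : Module.Finite F₀ F₁ := Module.Finite.of_finite
  have φ : F₁ →ₐ[F₀] K := IsAlgClosed.lift
  let _ : Algebra F₁ K := φ.toRingHom.toAlgebra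
  have hφ : ∀ x, algebraMap F₁ K x = φ x := fun _ => rfl
  have iT1 : IsScalarTower F₀ F₁ K := IsScalarTower.of_algebraMap_eq fun x => by
    rw [hφ, φ.commutes]
  have iT2 : IsScalarTower k F₁ K := IsScalarTower.of_algebraMap_eq fun x => by
    rw [hφ, IsScalarTower.algebraMap_apply k F₀ F₁, φ.commutes,
      ← IsScalarTower.algebraMap_apply k F₀ K]
  obtain ⟨Y1, -⟩ := bc_exists E F₁
  have hded1 : IsDedekindDomain (F₁ ⊗[k] R) := tens_dedekind k F₁ R Y1.dom
  have hmpc : (mp k F₁ K R).comp (mp k F₀ F₁ R) = mp k F₀ K R := by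
    apply RingHom.ext
    intro z
    induction z using TensorProduct.induction_on with
    | zero => rw [map_zero, map_zero]
    | tmul a r =>
      rw [RingHom.comp_apply, mp_tmul, mp_tmul, mp_tmul, ← IsScalarTower.algebraMap_apply F₀ F₁ K]
    | add x y hx hy => rw [map_add, hx, hy, map_add]
  have hmapne : ∀ (A B : Type) [Field A] [Field B] [Algebra k A] [Algebra k B] [Algebra A B]
      [IsScalarTower k A B] (L : Ideal (A ⊗[k] R)), L ≠ ⊥ → L.map (mp k A B R) ≠ ⊥ := by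
    intro A B _ _ _ _ _ _ L hL h
    apply hL
    exact (Ideal.map_eq_bot_iff_of_injective (mp_inj k A B R)).1 h
  -- the class
  have hJ' : J.map (mp k F₁ K R) ≠ ⊥ := hmapne F₁ K J hJ
  obtain ⟨J', hJJ⟩ : ∃ J' : (Ideal (K ⊗[k] R))⁰, (J' : Ideal (K ⊗[k] R)) = J.map (mp k F₁ K R) :=
    ⟨⟨J.map (mp k F₁ K R), mem_nonZeroDivisors_iff_ne_zero.2 hJ'⟩, rfl⟩
  have hc : ClassGroup.mk0 J' ^ l = 1 := by
    rw [← map_pow]
    refine (ClassGroup.mk0_eq_one_iff (J' ^ l).2).2 ?_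
    refine ⟨mp k F₁ K R w, ?_⟩
    have h1 : ((J' ^ l : (Ideal (K ⊗[k] R))⁰) : Ideal (K ⊗[k] R)) =
        (J' : Ideal (K ⊗[k] R)) ^ l := rfl
    rw [h1, hJJ, ← Ideal.map_pow, hJw, Ideal.map_span, Set.image_singleton]
  obtain ⟨c, hcc⟩ : ∃ c, c = ClassGroup.mk0 J' := ⟨_, rfl⟩
  rw [← hcc] at hc
  have hcS : (⟨c, hc⟩ : {c : ClassGroup (K ⊗[k] R) // c ^ l = 1}) ∈ S := by
    rw [Finset.mem_subtype, Set.Finite.mem_toFinset]
    exact hc
  have hts : ∀ z ∈ insert (u c hc) (t c hc), ∃ z', mp k F₀ K R z' = z := by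
    intro z hz
    exact hs z (Finset.mem_biUnion.2 ⟨⟨c, hc⟩, hcS, hz⟩)
  obtain ⟨u₀, hu₀⟩ := hts (u c hc) (Finset.mem_insert_self _ _)
  have hJ₀ : ∃ J₀ : Ideal (F₀ ⊗[k] R), J₀.map (mp k F₀ K R) = (I c hc : Ideal (K ⊗[k] R)) := by
    choose! g hg using hts
    refine ⟨Ideal.span (g '' (t c hc : Set (K ⊗[k] R))), ?_⟩
    rw [Ideal.map_span, ht c hc, Set.image_image]
    congr 1
    ext z
    constructor
    · rintro ⟨y, hy, rfl⟩
      change mp k F₀ K R (g y) ∈ (t c hc : Set (K ⊗[k] R))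
      rw [hg y (Finset.mem_insert_of_mem hy)]
      exact hy
    · intro hz
      exact ⟨z, hz, hg z (Finset.mem_insert_of_mem hz)⟩
  obtain ⟨J₀, hJ₀⟩ := hJ₀
  have hJ₀ne : J₀ ≠ ⊥ := by
    rintro rfl
    rw [Ideal.map_bot] at hJ₀
    exact nonZeroDivisors.coe_ne_zero (I c hc) hJ₀.symm
  refine ⟨J₀, u₀, hJ₀ne, ?_, ?_⟩
  · apply mp_map_inj k F₀ K R
    rw [Ideal.map_pow, hJ₀, hu c hc, Ideal.map_span, Set.image_singleton, hu₀]
  · refine eqv_mp k F₁ K R E J (J₀.map (mp k F₀ F₁ R)) hJ (hmapne F₀ F₁ J₀ hJ₀ne) ?_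
    rw [Ideal.map_map, hmpc, hJ₀, ← hJJ, eqv_iff, hI c hc, hcc]

end Pool.Agent.AB3
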