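import Pool.Agent.Lib.MP_5de024_nt.S.DivX.D1Def

/-!
# DIV-D1: the structure of an F[X]-algebra on F ⊗ R
-/

set_option autoImplicit false
set_option linter.unusedSectionVars false

namespace Pool.Agent.AB3

open TensorProduct Polynomial

variable (k F R : Type) [Field k] [Field F] [Algebra k F] [CommRing R] [Algebra k R]
  [Algebra k[X] R]

/-- **D1Px.** -/
theorem polF_C (c : F) : polF k F R (C c) = algebraMap F (F ⊗[k] R) c := by
  simp only [polF, Polynomial.coe_eval₂RingHom, Polynomial.eval₂_C]
  rfl

theorem polF_X : polF k F R X = 1 ⊗ₜ[k] algebraMap k[X] R X := by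
  simp only [polF, Polynomial.coe_eval₂RingHom, Polynomial.eval₂_X]

theorem polF_map [IsScalarTower k k[X] R] (f : k[X]) :
    polF k F R (f.map (algebraMap k F)) = 1 ⊗ₜ[k] algebraMap k[X] R f := by
  have h3 : (polF k F R).comp (Polynomial.mapRingHom (algebraMap k F)) =
      ((Algebra.TensorProduct.includeRight : R →ₐ[k] F ⊗[k] R) : R →+* F ⊗[k] R).comp
        (algebraMap k[X] R) := by
    apply Polynomial.ringHom_ext
    · intro c
      simp only [RingHom.comp_apply, Polynomial.coe_mapRingHom, Polynomial.map_C, polF_C]
      have h4 : algebraMap k[X] R (C c) = algebraMap k R c := by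
        rw [IsScalarTower.algebraMap_apply k k[X] R]
        rfl
      rw [h4]
      change (algebraMap k F c) ⊗ₜ[k] (1 : R) = 1 ⊗ₜ[k] algebraMap k R c
      rw [Algebra.algebraMap_eq_smul_one, Algebra.algebraMap_eq_smul_one,
        TensorProduct.smul_tmul]
    · simp only [RingHom.comp_apply, Polynomial.coe_mapRingHom, Polynomial.map_X, polF_X]
      rfl
  exact RingHom.congr_fun h3 f

theorem polF_finite [IsScalarTower k k[X] R] [Module.Finite k[X] R] :
    (polF k F R).Finite := by
  have hC : ∀ a : F, polF k F R (C a) = a ⊗ₜ[k] 1 := fun a => by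
    rw [polF_C]
    rfl
  let _ : Algebra F[X] (F ⊗[k] R) := (polF k F R).toAlgebra
  have hfin : Module.Finite F[X] (F ⊗[k] R) := by
    obtain ⟨s, hs⟩ := (inferInstance : Module.Finite k[X] R)
    classical
    refine ⟨⟨s.image fun r => 1 ⊗ₜ[k] r, ?_⟩⟩
    rw [eq_top_iff]
    intro z hz
    clear hz
    induction z using TensorProduct.induction_on with
    | zero => exact Submodule.zero_mem _
    | add x y hx hy => exact Submodule.add_mem _ hx hy
    | tmul a r =>
      have hr : r ∈ Submodule.span k[X] (s : Set R) := by rw [hs]; trivial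
      induction hr using Submodule.span_induction with
      | mem r hr =>
        have h5 : a ⊗ₜ[k] r = (C a : F[X]) • ((1 : F) ⊗ₜ[k] r) := by
          rw [Algebra.smul_def]
          change _ = polF k F R (C a) * _
          rw [hC, Algebra.TensorProduct.tmul_mul_tmul, mul_one, one_mul]
        rw [h5]
        refine Submodule.smul_mem _ _ (Submodule.subset_span ?_)
        rw [Finset.coe_image]
        exact ⟨r, hr, rfl⟩
      | zero => rw [TensorProduct.tmul_zero]; exact Submodule.zero_mem _
      | add x y _ _ hx hy => rw [TensorProduct.tmul_add]; exact Submodule.add_mem _ hx hy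
      | smul f x _ hx =>
        have h6 : a ⊗ₜ[k] (f • x) = (f.map (algebraMap k F)) • (a ⊗ₜ[k] x) := by
          rw [Algebra.smul_def, Algebra.smul_def]
          change _ = polF k F R _ * _
          rw [polF_map, Algebra.TensorProduct.tmul_mul_tmul, one_mul]
        rw [h6]
        exact Submodule.smul_mem _ _ hx
  exact hfin

theorem polF_inj [IsScalarTower k k[X] R] (hinj : Function.Injective (algebraMap k[X] R)) :
    Function.Injective (polF k F R) := by
  let φ : k[X] →ₗ[k] R := (IsScalarTower.toAlgHom k k[X] R).toLinearMap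
  have hφ : Function.Injective φ := hinj
  have h1 : Function.Injective (φ.lTensor F) :=
    Module.Flat.lTensor_preserves_injective_linearMap φ hφ
  have h2 : ∀ g : F[X], polF k F R g = φ.lTensor F (polyEquivTensor k F g) := by
    have h3 : polF k F R = ((Algebra.TensorProduct.map (AlgHom.id k F)
        (IsScalarTower.toAlgHom k k[X] R) : F ⊗[k] k[X] →ₐ[k] F ⊗[k] R) :
          F ⊗[k] k[X] →+* F ⊗[k] R).comp ((polyEquivTensor k F : F[X] →ₐ[k] F ⊗[k] k[X]) :
            F[X] →+* F ⊗[k] k[X]) := by
      apply Polynomial.ringHom_ext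
      · intro c
        rw [polF_C, RingHom.comp_apply]
        change _ = (Algebra.TensorProduct.map (AlgHom.id k F) (IsScalarTower.toAlgHom k k[X] R))
          (polyEquivTensor k F (C c))
        rw [polyEquivTensor_apply, Polynomial.eval₂_C]
        change _ = (Algebra.TensorProduct.map (AlgHom.id k F) (IsScalarTower.toAlgHom k k[X] R))
          (c ⊗ₜ[k] 1)
        rw [Algebra.TensorProduct.map_tmul, map_one]
        rfl
      · rw [polF_X, RingHom.comp_apply]
        change _ = (Algebra.TensorProduct.map (AlgHom.id k F) (IsScalarTower.toAlgHom k k[X] R))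
          (polyEquivTensor k F X)
        rw [polyEquivTensor_apply, Polynomial.eval₂_X, Algebra.TensorProduct.map_tmul, map_one]
        rfl
    intro g
    rw [h3]
    rfl
  intro g g' he
  rw [h2, h2] at he
  exact (polyEquivTensor k F).injective (h1 he)

end Pool.Agent.AB3
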