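import Pool.Agent.Lib.MP_5de024_nt.S.DivX.D1B
import Pool.Agent.Lib.MP_5de024_nt.S.DivX.D1Lv
import Pool.Agent.Lib.MP_5de024_nt.S.DivX.D1Px
import Pool.Agent.Lib.MP_5de024_nt.S.DivX.D1Cl

/-!
# DIV-D1: the interface
-/

set_option autoImplicit false
set_option linter.unusedSectionVars false

namespace Pool.Agent.AB3

open TensorProduct Polynomial nonZeroDivisors Pool.Agent.AB

/-- a finite field has an extension of degree `n` -/
theorem d1_ext (F : Type) [Field F] [Finite F] (n : ℕ) (hn : n ≠ 0) :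
    ∃ (F' : Type) (_ : Field F') (_ : Finite F') (_ : Algebra F F'), Module.finrank F F' = n := by
  have : NeZero n := ⟨hn⟩
  obtain ⟨p, hp⟩ := CharP.exists F
  have : Fact p.Prime := ⟨CharP.char_is_prime F p⟩
  exact ⟨FiniteField.Extension F p n, inferInstance, inferInstance, inferInstance,
    FiniteField.finrank_extension F p n⟩

/-- the structures on `F ⊗ R` -/
theorem d1_str {k R : Type} [Field k] [Finite k] [CommRing R] [IsDedekindDomain R]
    [Algebra k R] {X : OneInfC k R} (E : DegB X) (F : Type) [Field F] [Finite F] [Algebra k F] :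
    IsDedekindDomain (F ⊗[k] R) ∧ ∃ (Y : OneInfC F (F ⊗[k] R)) (Z : OneInf F (F ⊗[k] R)),
      IsBc E F Y ∧ Z.lc = Y.lc := by
  obtain ⟨Y, hY⟩ := bc_exists E F
  obtain ⟨Z, -, hZ⟩ := toF_exists Y
  exact ⟨tens_dedekind k F R Y.dom, Y, Z, hY, hZ⟩

/-- in a Dedekind domain: nonzero ideals have inverses up to principal ideals -/
theorem d1_inv {S : Type} [CommRing S] [IsDedekindDomain S] (B : Ideal S) (hB : B ≠ ⊥) :
    ∃ (C : Ideal S) (c : S), c ≠ 0 ∧ B * C = Ideal.span {c} := by
  obtain ⟨c, hc, hc0⟩ := Submodule.exists_mem_ne_zero_of_ne_bot hB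
  obtain ⟨C, hC⟩ := Ideal.dvd_iff_le.2 ((Ideal.span_singleton_le_iff_mem B).2 hc)
  exact ⟨C, c, hc0, hC.symm⟩

/-- the case of a prime number -/
theorem d1_prime (k R : Type) [Field k] [Finite k] [CommRing R] [IsDedekindDomain R]
    [Algebra k R] [Algebra k[X] R] [IsScalarTower k k[X] R] [Module.Finite k[X] R]
    (hinj : Function.Injective (algebraMap k[X] R)) (X : OneInf k R) (I : Ideal R) (hI : I ≠ ⊥)
    (l : ℕ) (hl : l.Prime) (hlk : (l : k) ≠ 0) :
    ∃ (F : Type) (_ : Field F) (_ : Finite F) (_ : Algebra k F) (A : Ideal (F ⊗[k] R))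
      (a : F ⊗[k] R), a ≠ 0 ∧
      I.map (Algebra.TensorProduct.includeRight : R →ₐ[k] F ⊗[k] R) * A ^ l = Ideal.span {a} := by
  obtain ⟨E⟩ := exists_degB (OneInf.toC X)
  obtain ⟨F₀, i1, i2, i3, hl0, hlev⟩ := lv_exists k R E l hl hlk
  obtain ⟨F₁, j1, j2, j3, hd⟩ := d1_ext F₀ l hl.ne_zero
  let _ : Algebra k F₁ := ((algebraMap F₀ F₁).comp (algebraMap k F₀)).toAlgebra
  have hst : IsScalarTower k F₀ F₁ := IsScalarTower.of_algebraMap_eq fun _ => rfl
  obtain ⟨ded0, Y₀, Z₀, hY₀, hZ₀⟩ := d1_str E F₀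
  obtain ⟨ded1, Y₁, Z₁, hY₁, hZ₁⟩ := d1_str E F₁
  let _ : Algebra F₁[X] (F₁ ⊗[k] R) := (polF k F₁ R).toAlgebra
  have hfin : Module.Finite F₁[X] (F₁ ⊗[k] R) := polF_finite k F₁ R
  have htow : IsScalarTower F₁ F₁[X] (F₁ ⊗[k] R) :=
    IsScalarTower.of_algebraMap_eq fun c => (polF_C k F₁ R c).symm
  have hinj1 : Function.Injective (algebraMap F₁[X] (F₁ ⊗[k] R)) := polF_inj k F₁ R hinj
  have hcl : Finite (ClassGroup (F₁ ⊗[k] R)) := cls_fin F₁ (F₁ ⊗[k] R) hinj1
  have hl1 : l ∣ Nat.card F₁ - 1 := by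
    rw [Module.natCard_eq_pow_finrank (K := F₀), hd]
    exact hl0.trans (Nat.sub_one_dvd_pow_sub_one _ _)
  have hinc : ∀ (F : Type) [Field F] [Algebra k F],
      I.map (Algebra.TensorProduct.includeRight : R →ₐ[k] F ⊗[k] R) ≠ ⊥ := by
    intro F _ _ h
    rw [Ideal.map_eq_bot_iff_of_injective] at h
    · exact hI h
    · exact Algebra.TensorProduct.includeRight_injective (algebraMap k F).injective
  have hmap : I.map (Algebra.TensorProduct.includeRight : R →ₐ[k] F₁ ⊗[k] R) =
      (I.map (Algebra.TensorProduct.includeRight : R →ₐ[k] F₀ ⊗[k] R)).map (mp k F₀ F₁ R) := by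
    change Ideal.map ((Algebra.TensorProduct.includeRight : R →ₐ[k] F₁ ⊗[k] R) : R →+* _) I =
      Ideal.map (mp k F₀ F₁ R)
        (Ideal.map ((Algebra.TensorProduct.includeRight : R →ₐ[k] F₀ ⊗[k] R) : R →+* _) I)
    rw [Ideal.map_map]
    congr 1
    refine RingHom.ext fun r => ?_
    change 1 ⊗ₜ[k] r = mp k F₀ F₁ R (1 ⊗ₜ[k] r)
    rw [mp_tmul, map_one]
  obtain ⟨b, hb⟩ := grp_pow (K := F₁) l hl hl1
    (ClassGroup.mk0 ⟨_, mem_nonZeroDivisors_of_ne_zero (hinc F₁)⟩) (by
      intro β hβ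
      obtain ⟨u, J, hu, hβu⟩ := rad_exists Z₁ hinj1 l hl hl1 β hβ
      have hJ : J ≠ ⊥ := by
        rintro rfl
        have h1 := hu.2.1
        rw [← Ideal.zero_eq_bot, zero_pow hl.ne_zero, Ideal.zero_eq_bot] at h1
        exact hu.1 (Ideal.span_singleton_eq_bot.1 h1.symm)
      obtain ⟨J₀, u₀, hJ₀, hu₀, he⟩ := hlev F₁ J u hJ hu.2.1
      exact chr_triv k F₀ F₁ R Z₀ Z₁ (by
        intro z
        rw [hZ₀, hZ₁]
        exact (mp_lc k F₀ F₁ R E Y₀ hY₀ Y₁ hY₁ z).1) l hl hl0 hd β u J hu hβu J₀ u₀ hJ₀ hu₀ he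
        _ (hinc F₀) _ hmap)
  obtain ⟨A, hA⟩ := ClassGroup.mk0_surjective b⁻¹
  have h1 : ClassGroup.mk0 ((⟨_, mem_nonZeroDivisors_of_ne_zero (hinc F₁)⟩ :
      (Ideal (F₁ ⊗[k] R))⁰) * A ^ l) = 1 := by
    rw [map_mul, map_pow, hA, hb, inv_pow, mul_inv_cancel]
  rw [ClassGroup.mk0_eq_one_iff] at h1
  obtain ⟨⟨a, ha⟩⟩ := h1
  have hA0 : (A : Ideal (F₁ ⊗[k] R)) ≠ ⊥ := nonZeroDivisors.coe_ne_zero A
  have h2 : I.map (Algebra.TensorProduct.includeRight : R →ₐ[k] F₁ ⊗[k] R) *
      (A : Ideal (F₁ ⊗[k] R)) ^ l = Ideal.span {a} := by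
    rw [← Ideal.submodule_span_eq, ← ha]
    rfl
  refine ⟨F₁, j1, j2, inferInstance, A, a, ?_, h2⟩
  rintro rfl
  rw [Ideal.span_singleton_eq_bot.2 rfl] at h2
  exact mul_ne_zero (hinc F₁) (pow_ne_zero l hA0) h2

theorem d1_aux (n : ℕ) : 0 < n → ∀ (k R : Type) [Field k] [Finite k] [CommRing R]
    [IsDedekindDomain R] [Algebra k R] [Algebra k[X] R] [IsScalarTower k k[X] R]
    [Module.Finite k[X] R] (_ : Function.Injective (algebraMap k[X] R)) (_ : OneInf k R)
    (I : Ideal R) (_ : I ≠ ⊥) (_ : (n : k) ≠ 0),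
    ∃ (F : Type) (_ : Field F) (_ : Finite F) (_ : Algebra k F) (A : Ideal (F ⊗[k] R))
      (a : F ⊗[k] R), a ≠ 0 ∧
      I.map (Algebra.TensorProduct.includeRight : R →ₐ[k] F ⊗[k] R) * A ^ n = Ideal.span {a} := by
  induction n using Nat.strong_induction_on with
  | _ n ih =>
    intro hn0 k R _ _ _ _ _ _ _ _ hinj Z I hI hn
    obtain ⟨E⟩ := exists_degB (OneInf.toC Z)
    by_cases h1 : n = 1
    · obtain ⟨ded, -⟩ := d1_str E k
      have h2 : I.map (Algebra.TensorProduct.includeRight : R →ₐ[k] k ⊗[k] R) ≠ ⊥ := by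
        intro h
        rw [Ideal.map_eq_bot_iff_of_injective] at h
        · exact hI h
        · exact Algebra.TensorProduct.includeRight_injective (algebraMap k k).injective
      obtain ⟨A, a, ha, hA⟩ := d1_inv _ h2
      exact ⟨k, inferInstance, inferInstance, inferInstance, A, a, ha, by rw [h1, pow_one, hA]⟩
    · have hl : n.minFac.Prime := Nat.minFac_prime h1
      obtain ⟨m, hm⟩ := Nat.minFac_dvd n
      set l := n.minFac with hldef
      have hm0 : 0 < m := by
        rcases Nat.eq_zero_or_pos m with h | h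
        · rw [h, mul_zero] at hm
          omega
        · exact h
      have hmn : m < n := by
        have := hl.two_le
        nlinarith
      have hlk : (l : k) ≠ 0 := by
        intro h
        apply hn
        rw [hm, Nat.cast_mul, h, zero_mul]
      have hmk : (m : k) ≠ 0 := by
        intro h
        apply hn
        rw [hm, Nat.cast_mul, h, mul_zero]
      obtain ⟨F, i1, i2, i3, A, a, ha, hA⟩ := d1_prime k R hinj Z I hI l hl hlk
      obtain ⟨ded0, Y₀, Z₀, hY₀, hZ₀⟩ := d1_str E F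
      let _ : Algebra F[X] (F ⊗[k] R) := (polF k F R).toAlgebra
      have hfin : Module.Finite F[X] (F ⊗[k] R) := polF_finite k F R
      have htow : IsScalarTower F F[X] (F ⊗[k] R) :=
        IsScalarTower.of_algebraMap_eq fun c => (polF_C k F R c).symm
      have hinj1 : Function.Injective (algebraMap F[X] (F ⊗[k] R)) := polF_inj k F R hinj
      have hA0 : A ≠ ⊥ := by
        rintro rfl
        rw [← Ideal.zero_eq_bot, zero_pow hl.ne_zero, mul_zero, Ideal.zero_eq_bot] at hA
        exact ha (Ideal.span_singleton_eq_bot.1 hA.symm)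
      have hmF : (m : F) ≠ 0 := by
        intro h
        apply hmk
        apply (algebraMap k F).injective
        rw [map_natCast, h, map_zero]
      obtain ⟨F', j1, j2, j3, B, b, hb, hB⟩ := ih m hmn hm0 F (F ⊗[k] R) hinj1 Z₀ A hA0 hmF
      let _ : Algebra k F' := ((algebraMap F F').comp (algebraMap k F)).toAlgebra
      have hst : IsScalarTower k F F' := IsScalarTower.of_algebraMap_eq fun _ => rfl
      obtain ⟨ded1, -⟩ := d1_str E F'
      let e : F' ⊗[F] (F ⊗[k] R) ≃ₐ[F'] F' ⊗[k] R :=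
        Algebra.TensorProduct.cancelBaseChange k F F' F' R
      have he : ∀ z : F ⊗[k] R, e (1 ⊗ₜ[F] z) = mp k F F' R z := by
        intro z
        induction z using TensorProduct.induction_on with
        | zero => rw [TensorProduct.tmul_zero, map_zero, map_zero]
        | add x y hx hy => rw [TensorProduct.tmul_add, map_add, hx, hy, map_add]
        | tmul c r =>
          rw [Algebra.TensorProduct.cancelBaseChange_tmul, mp_tmul, Algebra.smul_def, mul_one]
      -- the ideals in `F' ⊗[k] R`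
      have h3 : I.map (Algebra.TensorProduct.includeRight : R →ₐ[k] F' ⊗[k] R) *
          (A.map (mp k F F' R)) ^ l = Ideal.span {mp k F F' R a} := by
        have h4 := congrArg (Ideal.map (mp k F F' R)) hA
        rw [Ideal.map_mul, Ideal.map_pow, Ideal.map_span, Set.image_singleton] at h4
        rw [← h4]
        congr 1
        change Ideal.map ((Algebra.TensorProduct.includeRight : R →ₐ[k] F' ⊗[k] R) : R →+* _) I =
          Ideal.map (mp k F F' R)
            (Ideal.map ((Algebra.TensorProduct.includeRight : R →ₐ[k] F ⊗[k] R) : R →+* _) I)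
        rw [Ideal.map_map]
        congr 1
        refine RingHom.ext fun r => ?_
        change 1 ⊗ₜ[k] r = mp k F F' R (1 ⊗ₜ[k] r)
        rw [mp_tmul, map_one]
      have h5 : A.map (mp k F F' R) * (B.map (e : F' ⊗[F] (F ⊗[k] R) →+* F' ⊗[k] R)) ^ m =
          Ideal.span {e b} := by
        have h6 := congrArg (Ideal.map (e : F' ⊗[F] (F ⊗[k] R) →+* F' ⊗[k] R)) hB
        rw [Ideal.map_mul, Ideal.map_pow, Ideal.map_span, Set.image_singleton] at h6
        refine Eq.trans ?_ h6
        congr 1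
        change Ideal.map (mp k F F' R) A = Ideal.map (e : F' ⊗[F] (F ⊗[k] R) →+* F' ⊗[k] R)
            (Ideal.map ((Algebra.TensorProduct.includeRight :
              (F ⊗[k] R) →ₐ[F] F' ⊗[F] (F ⊗[k] R)) : (F ⊗[k] R) →+* _) A)
        rw [Ideal.map_map]
        congr 1
        refine RingHom.ext fun r => ?_
        exact (he r).symm
      set A' := A.map (mp k F F' R)
      set B' := B.map (e : F' ⊗[F] (F ⊗[k] R) →+* F' ⊗[k] R)
      set I' := I.map (Algebra.TensorProduct.includeRight : R →ₐ[k] F' ⊗[k] R)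
      set a' := mp k F F' R a
      set b' := e b
      have ha' : a' ≠ 0 := by
        intro h
        exact ha (mp_inj k F F' R (h.trans (map_zero _).symm))
      have hb' : b' ≠ 0 := by
        intro h
        exact hb (e.injective (h.trans (map_zero e).symm))
      have hB' : B' ≠ ⊥ := by
        intro h
        rw [h, ← Ideal.zero_eq_bot, zero_pow hm0.ne', mul_zero, Ideal.zero_eq_bot] at h5
        exact hb' (Ideal.span_singleton_eq_bot.1 h5.symm)
      obtain ⟨C, c, hc, hC⟩ := d1_inv B' hB'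
      have h7 : (I' * C ^ n) * Ideal.span {b' ^ l} = Ideal.span {a' * c ^ n} := by
        calc (I' * C ^ n) * Ideal.span {b' ^ l} = (I' * C ^ n) * (A' * B' ^ m) ^ l := by
              rw [h5, Ideal.span_singleton_pow]
          _ = (I' * A' ^ l) * (B' * C) ^ n := by
              rw [mul_pow, ← pow_mul, mul_comm m l, ← hm, mul_pow B' C n]
              ring
          _ = Ideal.span {a' * c ^ n} := by
              rw [h3, hC, Ideal.span_singleton_pow, Ideal.span_singleton_mul_span_singleton]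
      have h8 : a' * c ^ n ∈ Ideal.span {b' ^ l} := by
        have h9 : a' * c ^ n ∈ (I' * C ^ n) * Ideal.span {b' ^ l} := by
          rw [h7]
          exact Ideal.mem_span_singleton_self _
        exact Ideal.mul_le_right h9
      obtain ⟨g, hg⟩ := Ideal.mem_span_singleton.1 h8
      have h10 : I' * C ^ n = Ideal.span {g} := by
        have h11 : Ideal.span {b' ^ l} ≠ (0 : Ideal (F' ⊗[k] R)) := by
          rw [Ideal.zero_eq_bot, Ne, Ideal.span_singleton_eq_bot]
          exact pow_ne_zero l hb'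
        apply mul_right_cancel₀ h11
        rw [h7, hg, Ideal.span_singleton_mul_span_singleton, mul_comm]
      refine ⟨F', j1, j2, inferInstance, C, g, ?_, h10⟩
      rintro rfl
      rw [mul_zero] at hg
      exact mul_ne_zero ha' (pow_ne_zero n hc) hg

/-- **Interface of DIV-D1.** -/
theorem d1_main (k R : Type) [Field k] [Finite k] [CommRing R] [IsDedekindDomain R]
    [Algebra k R] [Algebra k[X] R] [IsScalarTower k k[X] R] [Module.Finite k[X] R]
    (hinj : Function.Injective (algebraMap k[X] R)) (X : OneInf k R) (I : Ideal R) (hI : I ≠ ⊥)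
    (n : ℕ) (hn : (n : k) ≠ 0) :
    ∃ (F : Type) (_ : Field F) (_ : Finite F) (_ : Algebra k F) (A : Ideal (F ⊗[k] R))
      (a : F ⊗[k] R), a ≠ 0 ∧
      I.map (Algebra.TensorProduct.includeRight : R →ₐ[k] F ⊗[k] R) * A ^ n = Ideal.span {a} := by
  refine d1_aux n ?_ k R hinj X I hI hn
  rcases Nat.eq_zero_or_pos n with h | h
  · rw [h, Nat.cast_zero] at hn
    exact absurd rfl hn
  · exact h

end Pool.Agent.AB3
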