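import Pool.Agent.Lib.MP_5de024_nt.S.DivX.D1N
import Pool.Agent.Lib.MP_5de024_nt.S.DivX.D1Cl
import Pool.Agent.Lib.MP_5de024_nt.S.D2Def
import Pool.Agent.Lib.MP_5de024_nt.C.Dual

/-!
# DIV-D1: the symbols of radicals from the small field vanish
-/

set_option autoImplicit false
set_option linter.unusedSectionVars false

namespace Pool.Agent.AB3

open TensorProduct nonZeroDivisors Pool.Agent.AB

theorem d1b_nk_pow {F S : Type} [Field F] [Finite F] [CommRing S] [Algebra F S] (u : S) (I : Ideal S)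
    (n : ℕ) : Nk F (u ^ n) I = Nk F u I ^ n := by
  induction n with
  | zero => rw [pow_zero, pow_zero, nk_one]
  | succ n ih => rw [pow_succ, pow_succ, nk_mul, ih]

theorem d1b_sy {F S : Type} [Field F] [Finite F] [CommRing S] [Algebra F S] (l : ℕ)
    (hlF : l ∣ Nat.card F - 1) (u a : S) (I : Ideal S) (h : Nk F a I ≠ 0) :
    Sy F l (a ^ l * u) I = Sy F l u I := by
  have _ := Fintype.ofFinite F
  unfold Sy
  rw [nk_mul, mul_pow, d1b_nk_pow, ← pow_mul, Nat.mul_div_cancel' hlF, Nat.card_eq_fintype_card,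
    FiniteField.pow_card_sub_one_eq_one _ h, one_mul]

/-- radicals which differ by an `l`-th power have the same symbols -/
theorem sy_eq {F S : Type} [Field F] [Finite F] [CommRing S] [IsDedekindDomain S] [Algebra F S]
    (Y : OneInf F S) (l : ℕ) (hl : l.Prime) (hlF : l ∣ Nat.card F - 1) (u u' a b : S)
    (h : a ^ l * u = b ^ l * u') (I : Ideal S) (hI : I ≠ ⊥)
    (ha : I ⊔ Ideal.span {a} = ⊤) (hb : I ⊔ Ideal.span {b} = ⊤) :
    Sy F l u I = Sy F l u' I := by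
  have _ := finite_quot Y I hI
  rw [← d1b_sy l hlF u a I (nk_ne_zero a I ha), h, d1b_sy l hlF u' b I (nk_ne_zero b I hb)]

theorem d1b_lc_pow {F S : Type} [Field F] [CommRing S] [Algebra F S] (X : OneInf F S) (a : S)
    (n : ℕ) : X.lc (a ^ n) = X.lc a ^ n := by
  induction n with
  | zero => rw [pow_zero, pow_zero, ← map_one (algebraMap F S), X.lc_alg]
  | succ n ih => rw [pow_succ, pow_succ, X.lc_mul, ih]

/-- radicals with equivalent ideals differ by an `l`-th power -/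
theorem rad_eqv {F S : Type} [Field F] [Finite F] [CommRing S] [IsDedekindDomain S] [Algebra F S]
    (Y : OneInf F S) (l : ℕ) (hl : l.Prime) (u u' : S) (J J' : Ideal S)
    (h : Rad Y l u J) (h' : Rad Y l u' J') (he : Eqv J J') :
    ∃ a b : S, a ≠ 0 ∧ b ≠ 0 ∧ a ^ l * u = b ^ l * u' := by
  obtain ⟨hu, hJ, c, hc⟩ := h
  obtain ⟨hu', hJ', c', hc'⟩ := h'
  obtain ⟨a, b, ha, hb, hab⟩ := he
  have h1 : Ideal.span {a ^ l * u} = Ideal.span {b ^ l * u'} := by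
    rw [← Ideal.span_singleton_mul_span_singleton, ← Ideal.span_singleton_mul_span_singleton,
      ← Ideal.span_singleton_pow, ← Ideal.span_singleton_pow, ← hJ, ← hJ', ← mul_pow, ← mul_pow,
      hab]
  rw [Ideal.span_singleton_eq_span_singleton] at h1
  obtain ⟨v, hv⟩ := h1
  obtain ⟨c0, hc0, hvc⟩ := unit_const Y (v : S) v.isUnit
  rw [hvc] at hv
  have hla := Y.lc_ne a ha
  have hlu := Y.lc_ne u hu
  rw [hc] at hlu
  have hc1 : c ≠ 0 := by
    rintro rfl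
    exact hlu (zero_pow hl.ne_zero)
  have h2 := congrArg Y.lc hv
  rw [Y.lc_mul, Y.lc_mul, Y.lc_mul, Y.lc_alg, d1b_lc_pow, d1b_lc_pow, hc, hc'] at h2
  have h3 : c0 = (Y.lc b * c' / (Y.lc a * c)) ^ l := by
    rw [div_pow, eq_div_iff (pow_ne_zero _ (mul_ne_zero hla hc1)), mul_pow, mul_pow, ← h2,
      mul_comm]
  obtain ⟨w, hw⟩ : ∃ w, w = Y.lc b * c' / (Y.lc a * c) := ⟨_, rfl⟩
  rw [← hw] at h3
  have hw0 : w ≠ 0 := by
    rintro rfl
    rw [zero_pow hl.ne_zero] at h3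
    exact hc0 h3
  refine ⟨a * algebraMap F S w, b, mul_ne_zero ha (Idx_alg_ne w hw0), hb, ?_⟩
  rw [← hv, h3, map_pow, mul_pow]
  ring

theorem d1b_cop {S : Type} [CommRing S] {I : Ideal S} {x y : S}
    (h : I ⊔ Ideal.span {x} = ⊤) (hxy : y ∣ x) : I ⊔ Ideal.span {y} = ⊤ := by
  rw [eq_top_iff, ← h]
  exact sup_le_sup_left (Ideal.span_singleton_le_span_singleton.2 hxy) I

/-- **D1B.** every character of order `l` given by a radical is trivial on ideals from the small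
field, if its class comes from the small field -/
theorem chr_triv (k F F' R : Type) [Field k] [Field F] [Finite F] [Field F'] [Finite F']
    [Algebra k F] [Algebra k F'] [Algebra F F'] [IsScalarTower k F F'] [CommRing R] [Algebra k R]
    [IsDedekindDomain (F ⊗[k] R)] [IsDedekindDomain (F' ⊗[k] R)] (Y : OneInf F (F ⊗[k] R))
    (Y' : OneInf F' (F' ⊗[k] R))
    (hlc : ∀ z, Y'.lc (mp k F F' R z) = algebraMap F F' (Y.lc z)) (l : ℕ) (hl : l.Prime)
    (hlF : l ∣ Nat.card F - 1) (hd : Module.finrank F F' = l)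
    (β : ClassGroup (F' ⊗[k] R) →* F'ˣ) (u : F' ⊗[k] R) (J : Ideal (F' ⊗[k] R))
    (hu : Rad Y' l u J)
    (hβu : ∀ I : (Ideal (F' ⊗[k] R))⁰, (I : Ideal (F' ⊗[k] R)) ⊔ Ideal.span {u} = ⊤ →
      ((β (ClassGroup.mk0 I) : F'ˣ) : F') = Sy F' l u (I : Ideal (F' ⊗[k] R)))
    (J₀ : Ideal (F ⊗[k] R)) (u₀ : F ⊗[k] R) (hJ₀ : J₀ ≠ ⊥) (hu₀ : J₀ ^ l = Ideal.span {u₀})
    (he : Eqv J (J₀.map (mp k F F' R))) (I : Ideal (F ⊗[k] R)) (hI : I ≠ ⊥)
    (I' : (Ideal (F' ⊗[k] R))⁰) (hI' : (I' : Ideal (F' ⊗[k] R)) = I.map (mp k F F' R)) :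
    β (ClassGroup.mk0 I') = 1 := by
  have hinj := mp_inj k F F' R
  have hu0 : u₀ ≠ 0 := by
    rintro rfl
    rw [Ideal.span_singleton_zero] at hu₀
    exact hJ₀ (pow_eq_zero_iff hl.ne_zero |>.1 hu₀)
  have hmu0 : mp k F F' R u₀ ≠ 0 := fun h => hu0 (hinj (by rw [h, map_zero]))
  have hrad : Rad Y' l (mp k F F' R u₀) (J₀.map (mp k F F' R)) := by
    refine ⟨hmu0, ?_, ?_⟩
    · rw [← Ideal.map_pow, hu₀, Ideal.map_span, Set.image_singleton]
    · obtain ⟨w, hw⟩ := (low_pow F F' l hl hlF hd (Y.lc u₀) (Y.lc_ne u₀ hu0)).2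
      exact ⟨w, by rw [hlc, hw]⟩
  have hfd : Module.Finite F F' := Module.finite_of_finrank_pos (by rw [hd]; exact hl.pos)
  have hlF' : l ∣ Nat.card F' - 1 := by
    have h1 : Nat.card F' = Nat.card F ^ l := by
      rw [Module.natCard_eq_pow_finrank (K := F) (V := F'), hd]
    have h2 := Nat.sub_dvd_pow_sub_pow (Nat.card F) 1 l
    rw [one_pow] at h2
    rw [h1]
    exact hlF.trans h2
  obtain ⟨β₀, -, hβ₀⟩ := beta_exists Y' l hl.pos hlF' _ _ hrad
  obtain ⟨a, b, ha, hb, hab⟩ := rad_eqv Y' l hl u (mp k F F' R u₀) J _ hu hrad he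
  have hββ : β = β₀ := by
    refine char_ext (Ideal.span {a * b * (u * mp k F F' R u₀)}) ?_ β β₀ ?_
    · rw [Ne, Ideal.span_singleton_eq_bot]
      exact mul_ne_zero (mul_ne_zero ha hb) (mul_ne_zero hu.1 hmu0)
    · intro K hK
      have h1 := d1b_cop hK (dvd_mul_of_dvd_left (dvd_mul_right a b) _)
      have h2 := d1b_cop hK (dvd_mul_of_dvd_left (dvd_mul_left b a) _)
      have h3 := d1b_cop hK (dvd_mul_of_dvd_right (dvd_mul_right u (mp k F F' R u₀)) _)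
      have h4 := d1b_cop hK (dvd_mul_of_dvd_right (dvd_mul_left (mp k F F' R u₀) u) _)
      refine Units.ext ?_
      rw [hβu K h3, hβ₀ K h4]
      exact sy_eq Y' l hl hlF' _ _ a b hab _ (mem_nonZeroDivisors_iff_ne_zero.1 K.2) h1 h2
  obtain ⟨I₁, hI₁, hI₁c⟩ := exists_coprime_rep (F ⊗[k] R)
    (ClassGroup.mk0 ⟨I, mem_nonZeroDivisors_iff_ne_zero.2 hI⟩) (Ideal.span {u₀})
    (by rw [Ne, Ideal.span_singleton_eq_bot]; exact hu0)
  have hI₁0 : (I₁ : Ideal (F ⊗[k] R)) ≠ ⊥ := mem_nonZeroDivisors_iff_ne_zero.1 I₁.2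
  have hmI₁ : (I₁ : Ideal (F ⊗[k] R)).map (mp k F F' R) ∈ (Ideal (F' ⊗[k] R))⁰ := by
    refine mem_nonZeroDivisors_iff_ne_zero.2 fun h => hI₁0 ?_
    exact (Ideal.map_eq_bot_iff_of_injective hinj).1 h
  have hcl : ClassGroup.mk0 I' = ClassGroup.mk0 ⟨_, hmI₁⟩ := by
    rw [ClassGroup.mk0_eq_mk0_iff] at hI₁ ⊢
    obtain ⟨x, y, hx, hy, hxy⟩ := hI₁
    refine ⟨mp k F F' R y, mp k F F' R x, fun h => hy (hinj (by rw [h, map_zero])),
      fun h => hx (hinj (by rw [h, map_zero])), ?_⟩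
    have h5 := congrArg (Ideal.map (mp k F F' R)) hxy
    rw [Ideal.map_mul, Ideal.map_mul, Ideal.map_span, Ideal.map_span, Set.image_singleton,
      Set.image_singleton] at h5
    rw [hI']
    exact h5.symm
  rw [hββ, hcl]
  refine Units.ext ?_
  have hcop : (I₁ : Ideal (F ⊗[k] R)).map (mp k F F' R) ⊔ Ideal.span {mp k F F' R u₀} = ⊤ := by
    have h5 := congrArg (Ideal.map (mp k F F' R)) hI₁c
    rw [Ideal.map_sup, Ideal.map_top, Ideal.map_span, Set.image_singleton] at h5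
    exact h5
  rw [hβ₀ ⟨_, hmI₁⟩ hcop, Units.val_one]
  have _ := finite_quot Y (I₁ : Ideal (F ⊗[k] R)) hI₁0
  have _ : Module.Finite F ((F ⊗[k] R) ⧸ (I₁ : Ideal (F ⊗[k] R))) := Module.Finite.of_finite
  change Nk F' (mp k F F' R u₀) ((I₁ : Ideal (F ⊗[k] R)).map (mp k F F' R)) ^ _ = 1
  rw [nk_mp]
  exact (low_pow F F' l hl hlF hd _ (nk_ne_zero u₀ _ hI₁c)).1

end Pool.Agent.AB3
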