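import Pool.Agent.Lib.MP_5de024_nt.S.DivX.D1Def

/-!
# DIV-D1: base change of the degree structure
-/

set_option autoImplicit false
set_option linter.unusedSectionVars false

namespace Pool.Agent.AB3

open TensorProduct

section

variable {k R : Type} [Field k] [CommRing R] [Algebra k R] {X : OneInfC k R} (E : DegB X)
  (F : Type) [Field F] [Algebra k F]

theorem D1Bc_bd (z : F ⊗[k] R) : ∃ n, ∀ m, n < m → coF E F m z = 0 := by
  induction z using TensorProduct.induction_on with
  | zero => exact ⟨0, fun m _ => map_zero _⟩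
  | tmul a r =>
    refine ⟨X.d r, fun m hm => ?_⟩
    rw [coF_tmul, E.co_lt m r hm, map_zero, mul_zero]
  | add x y hx hy =>
    obtain ⟨n, hn⟩ := hx
    obtain ⟨n', hn'⟩ := hy
    refine ⟨max n n', fun m hm => ?_⟩
    rw [map_add, hn m (lt_of_le_of_lt (le_max_left _ _) hm),
      hn' m (lt_of_le_of_lt (le_max_right _ _) hm), add_zero]

theorem D1Bc_sum' (z : F ⊗[k] R) : ∃ N, ∀ n, N ≤ n →
    z = ∑ m ∈ Finset.range (n + 1), coF E F m z • (1 : F) ⊗ₜ[k] E.e m := by
  induction z using TensorProduct.induction_on with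
  | zero =>
    refine ⟨0, fun n _ => ?_⟩
    rw [Finset.sum_eq_zero fun m _ => by rw [map_zero, zero_smul]]
  | tmul a r =>
    refine ⟨X.d r, fun n hn => ?_⟩
    have h1 := E.sum_co n r hn
    conv_lhs => rw [h1]
    rw [TensorProduct.tmul_sum]
    refine Finset.sum_congr rfl fun m _ => ?_
    rw [coF_tmul, TensorProduct.smul_tmul', smul_eq_mul, mul_one, TensorProduct.tmul_smul,
      TensorProduct.smul_tmul', Algebra.smul_def, mul_comm]
  | add x y hx hy =>
    obtain ⟨N, hN⟩ := hx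
    obtain ⟨N', hN'⟩ := hy
    refine ⟨max N N', fun n hn => ?_⟩
    have h1 := hN n ((le_max_left _ _).trans hn)
    have h2 := hN' n ((le_max_right _ _).trans hn)
    conv_lhs => rw [h1, h2]
    rw [← Finset.sum_add_distrib]
    exact Finset.sum_congr rfl fun m _ => by rw [map_add, add_smul]

theorem D1Bc_sum (z : F ⊗[k] R) (n : ℕ) (hz : ∀ m, n < m → coF E F m z = 0) :
    z = ∑ m ∈ Finset.range (n + 1), coF E F m z • (1 : F) ⊗ₜ[k] E.e m := by
  obtain ⟨N, hN⟩ := D1Bc_sum' E F z
  have h1 := hN (max N n) (le_max_left _ _)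
  have h2 : ∑ m ∈ Finset.range (n + 1), coF E F m z • (1 : F) ⊗ₜ[k] E.e m =
      ∑ m ∈ Finset.range (max N n + 1), coF E F m z • (1 : F) ⊗ₜ[k] E.e m := by
    refine Finset.sum_subset ?_ fun m _ hm => ?_
    · exact Finset.range_subset_range.2 (Nat.succ_le_succ (le_max_right _ _))
    · rw [Finset.mem_range, not_lt] at hm
      rw [hz m hm, zero_smul]
  rw [h2]
  exact h1

theorem D1Bc_e0 {m : ℕ} (h : E.e m = 0) (z : F ⊗[k] R) : coF E F m z = 0 := by
  induction z using TensorProduct.induction_on with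
  | zero => exact map_zero _
  | tmul a r => rw [coF_tmul, E.co_zero m r h, map_zero, mul_zero]
  | add x y hx hy => rw [map_add, hx, hy, add_zero]

open Classical in
/-- the degree -/
noncomputable def D1Bc_d (z : F ⊗[k] R) : ℕ := Nat.find (D1Bc_bd E F z)

theorem D1Bc_lt (z : F ⊗[k] R) (m : ℕ) (h : D1Bc_d E F z < m) : coF E F m z = 0 := by
  classical
  exact Nat.find_spec (D1Bc_bd E F z) m h

theorem D1Bc_eq {z : F ⊗[k] R} {n : ℕ} (h0 : coF E F n z ≠ 0)
    (h : ∀ m, n < m → coF E F m z = 0) : D1Bc_d E F z = n := by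
  classical
  refine le_antisymm (Nat.find_min' (D1Bc_bd E F z) h) ?_
  by_contra hcon
  exact h0 (D1Bc_lt E F z n (not_le.1 hcon))

theorem D1Bc_ne {z : F ⊗[k] R} (hz : z ≠ 0) : coF E F (D1Bc_d E F z) z ≠ 0 := by
  classical
  intro h
  rcases Nat.eq_zero_or_pos (D1Bc_d E F z) with h0 | h0
  · apply hz
    have h1 := D1Bc_sum E F z 0 fun m hm => D1Bc_lt E F z m (by rw [h0]; exact hm)
    rw [h1, zero_add, Finset.sum_range_one]
    rw [h0] at h
    rw [h, zero_smul]
  · have h1 : D1Bc_d E F z - 1 < D1Bc_d E F z := by omega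
    refine Nat.find_min (D1Bc_bd E F z) h1 fun m hm => ?_
    rcases Nat.lt_or_ge (D1Bc_d E F z) m with h2 | h2
    · exact D1Bc_lt E F z m h2
    · have h3 : m = D1Bc_d E F z := by omega
      rw [h3]
      exact h

/-- the coordinates of a product -/
theorem D1Bc_mul (z w : F ⊗[k] R) (n : ℕ) (hn : D1Bc_d E F z + D1Bc_d E F w ≤ n) :
    coF E F n (z * w) = if n = D1Bc_d E F z + D1Bc_d E F w then
      coF E F (D1Bc_d E F z) z * coF E F (D1Bc_d E F w) w else 0 := by
  have hz := D1Bc_sum E F z _ (D1Bc_lt E F z)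
  have hw := D1Bc_sum E F w _ (D1Bc_lt E F w)
  have h1 : coF E F n (z * w) = ∑ i ∈ Finset.range (D1Bc_d E F z + 1),
      ∑ j ∈ Finset.range (D1Bc_d E F w + 1), coF E F i z * coF E F j w *
        algebraMap k F (E.co n (E.e i * E.e j)) := by
    conv_lhs => rw [hz, hw]
    rw [Finset.sum_mul_sum, map_sum]
    refine Finset.sum_congr rfl fun i _ => ?_
    rw [map_sum]
    refine Finset.sum_congr rfl fun j _ => ?_
    rw [smul_mul_smul_comm, map_smul, Algebra.TensorProduct.tmul_mul_tmul, coF_tmul, one_mul,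
      one_mul, smul_eq_mul]
  -- the vanishing terms
  have h2 : ∀ i ∈ Finset.range (D1Bc_d E F z + 1), ∀ j ∈ Finset.range (D1Bc_d E F w + 1),
      i + j < n → coF E F i z * coF E F j w * algebraMap k F (E.co n (E.e i * E.e j)) = 0 := by
    intro i _ j _ hij
    by_cases hi : E.e i = 0
    · rw [hi, zero_mul, map_zero, map_zero, mul_zero]
    by_cases hj : E.e j = 0
    · rw [hj, mul_zero, map_zero, map_zero, mul_zero]
    have h3 : X.d (E.e i * E.e j) = i + j := by
      rw [X.d_mul _ _ hi hj, (E.e_spec i hi).1, (E.e_spec j hj).1]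
    rw [E.co_lt n _ (by rw [h3]; exact hij), map_zero, mul_zero]
  rw [h1]
  split_ifs with he
  · rw [Finset.sum_eq_single (D1Bc_d E F z), Finset.sum_eq_single (D1Bc_d E F w)]
    · by_cases hi : E.e (D1Bc_d E F z) = 0
      · rw [D1Bc_e0 E F hi, zero_mul, zero_mul]
      by_cases hj : E.e (D1Bc_d E F w) = 0
      · rw [D1Bc_e0 E F hj, mul_zero, zero_mul]
      have h3 : X.d (E.e (D1Bc_d E F z) * E.e (D1Bc_d E F w)) = n := by
        rw [X.d_mul _ _ hi hj, (E.e_spec _ hi).1, (E.e_spec _ hj).1, he]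
      have h4 : E.co n (E.e (D1Bc_d E F z) * E.e (D1Bc_d E F w)) = 1 := by
        have h5 := E.co_top (E.e (D1Bc_d E F z) * E.e (D1Bc_d E F w))
        rw [h3, X.lc_mul, (E.e_spec _ hi).2, (E.e_spec _ hj).2, mul_one] at h5
        exact h5
      rw [h4, map_one, mul_one]
    · intro j hj hne
      refine h2 _ (Finset.mem_range.2 (Nat.lt_succ_self _)) _ hj ?_
      rw [Finset.mem_range] at hj
      omega
    · intro h
      exact absurd (Finset.mem_range.2 (Nat.lt_succ_self _)) h
    · intro i hi hne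
      refine Finset.sum_eq_zero fun j hj => h2 _ hi _ hj ?_
      rw [Finset.mem_range] at hi hj
      omega
    · intro h
      exact absurd (Finset.mem_range.2 (Nat.lt_succ_self _)) h
  · refine Finset.sum_eq_zero fun i hi => Finset.sum_eq_zero fun j hj => h2 _ hi _ hj ?_
    rw [Finset.mem_range] at hi hj
    omega

theorem D1Bc_dmul {z w : F ⊗[k] R} (hz : z ≠ 0) (hw : w ≠ 0) :
    D1Bc_d E F (z * w) = D1Bc_d E F z + D1Bc_d E F w ∧
      coF E F (D1Bc_d E F (z * w)) (z * w) =
        coF E F (D1Bc_d E F z) z * coF E F (D1Bc_d E F w) w := by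
  have h1 := D1Bc_mul E F z w _ le_rfl
  rw [if_pos rfl] at h1
  have h2 : D1Bc_d E F (z * w) = D1Bc_d E F z + D1Bc_d E F w := by
    refine D1Bc_eq E F ?_ fun m hm => ?_
    · rw [h1]
      exact mul_ne_zero (D1Bc_ne E F hz) (D1Bc_ne E F hw)
    · rw [D1Bc_mul E F z w m hm.le, if_neg hm.ne']
  rw [h2]
  exact ⟨rfl, h1⟩

end

/-- **D1Bc.** the base change of a ring with one place at infinity -/
theorem bc_exists {k R : Type} [Field k] [CommRing R] [Algebra k R] {X : OneInfC k R} (E : DegB X)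
    (F : Type) [Field F] [Algebra k F] : ∃ Y : OneInfC F (F ⊗[k] R), IsBc E F Y := by
  have halg : ∀ (c : F) (m : ℕ), coF E F m (algebraMap F (F ⊗[k] R) c) =
      c * algebraMap k F (E.co m 1) := fun c m => coF_tmul E F m c 1
  have halg0 : ∀ (c : F) (m : ℕ), 0 < m → coF E F m (algebraMap F (F ⊗[k] R) c) = 0 := by
    intro c m hm
    rw [halg, E.co_lt m 1 (by rw [X.d_one]; exact hm), map_zero, mul_zero]
  have hdalg : ∀ c : F, D1Bc_d E F (algebraMap F (F ⊗[k] R) c) = 0 := by
    intro c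
    classical
    exact Nat.le_zero.1 (Nat.find_min' (D1Bc_bd E F _) (halg0 c))
  refine ⟨{
    d := D1Bc_d E F
    lc := fun z => coF E F (D1Bc_d E F z) z
    lc_zero := map_zero _
    lc_ne := fun a ha => D1Bc_ne E F ha
    lc_mul := ?_
    lc_alg := ?_
    d_alg := hdalg
    d_mul := fun a b ha hb => (D1Bc_dmul E F ha hb).1
    add_of_lt := ?_
    sub_lt := ?_
    gen := ?_ }, fun z => ⟨fun m hm => D1Bc_lt E F z m hm, rfl⟩⟩
  · intro a b
    by_cases ha : a = 0
    · rw [ha, zero_mul, map_zero, zero_mul]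
    by_cases hb : b = 0
    · rw [hb, mul_zero, map_zero, mul_zero]
    exact (D1Bc_dmul E F ha hb).2
  · intro c
    have h1 := E.co_top (1 : R)
    rw [X.d_one, X.lc_one] at h1
    rw [hdalg, halg, h1, map_one, mul_one]
  · intro a b ha hb hab
    have h1 : coF E F (D1Bc_d E F b) (a + b) = coF E F (D1Bc_d E F b) b := by
      rw [map_add, D1Bc_lt E F a _ hab, zero_add]
    have h2 : D1Bc_d E F (a + b) = D1Bc_d E F b := by
      refine D1Bc_eq E F ?_ fun m hm => ?_
      · rw [h1]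
        exact D1Bc_ne E F hb
      · rw [map_add, D1Bc_lt E F a _ (hab.trans hm), D1Bc_lt E F b _ hm, add_zero]
    refine ⟨h2, ?_⟩
    rw [h2]
    exact h1
  · intro a b ha hb hne hd hlc
    by_contra hcon
    rw [not_lt] at hcon
    apply D1Bc_ne E F (sub_ne_zero.2 hne)
    rw [map_sub]
    rcases hcon.eq_or_lt with h1 | h1
    · rw [← h1]
      have h2 : coF E F (D1Bc_d E F a) a = coF E F (D1Bc_d E F a) b := by
        rw [hlc, hd]
      rw [h2, sub_self]
    · rw [D1Bc_lt E F a _ h1, D1Bc_lt E F b _ (by rw [← hd]; exact h1), sub_self]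
  · obtain ⟨c, hc⟩ := X.gen
    refine ⟨c, fun n hn => ?_⟩
    obtain ⟨a, ha, hda⟩ := hc n hn
    have h1 : coF E F n ((1 : F) ⊗ₜ[k] a) ≠ 0 := by
      rw [coF_tmul, one_mul]
      have h2 := E.co_top a
      rw [hda] at h2
      rw [h2]
      exact (map_ne_zero _).2 (X.lc_ne a ha)
    refine ⟨(1 : F) ⊗ₜ[k] a, fun h0 => h1 (by rw [h0, map_zero]), ?_⟩
    refine D1Bc_eq E F h1 fun m hm => ?_
    rw [coF_tmul, E.co_lt m a (by rw [hda]; exact hm), map_zero, mul_zero]

end Pool.Agent.AB3
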