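import Pool.Agent.Lib.MP_5de024_nt.S.D2Fin
import Pool.Agent.Lib.MP_5de024_nt.S.D2A

/-!
# DIV-D1: definitions

The maps `F ⊗ R → F' ⊗ R`, the coordinates on `F ⊗ R`, the transfers `F' ⊗ R → F ⊗ R`, the structure of
an `F[X]`-algebra on `F ⊗ R`.
-/

set_option autoImplicit false
set_option linter.unusedSectionVars false

namespace Pool.Agent.AB3

open TensorProduct Polynomial

section mp

variable (k F F' R : Type) [Field k] [Field F] [Field F'] [Algebra k F] [Algebra k F']
  [Algebra F F'] [IsScalarTower k F F'] [CommRing R] [Algebra k R]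

/-- the map `F ⊗ R → F' ⊗ R` -/
noncomputable def mp : F ⊗[k] R →+* F' ⊗[k] R :=
  (Algebra.TensorProduct.map (IsScalarTower.toAlgHom k F F') (AlgHom.id k R)).toRingHom

theorem mp_tmul (a : F) (r : R) : mp k F F' R (a ⊗ₜ[k] r) = algebraMap F F' a ⊗ₜ[k] r := rfl

theorem mp_smul (c : F) (z : F ⊗[k] R) :
    mp k F F' R (c • z) = algebraMap F F' c • mp k F F' R z := by
  induction z using TensorProduct.induction_on with
  | zero => rw [smul_zero, map_zero, smul_zero]
  | tmul a r =>
    rw [TensorProduct.smul_tmul', mp_tmul, mp_tmul, TensorProduct.smul_tmul', smul_eq_mul,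
      smul_eq_mul, map_mul]
  | add x y hx hy => rw [smul_add, map_add, hx, hy, map_add, smul_add]

/-- the transfer `F' ⊗ R → F ⊗ R` of an `F`-linear form `ρ : F' → F` -/
noncomputable def trf (ρ : F' →ₗ[F] F) : F' ⊗[k] R →ₗ[k] F ⊗[k] R :=
  TensorProduct.map (ρ.restrictScalars k) LinearMap.id

theorem trf_tmul (ρ : F' →ₗ[F] F) (a : F') (r : R) :
    trf k F F' R ρ (a ⊗ₜ[k] r) = ρ a ⊗ₜ[k] r := rfl

theorem trf_mul (ρ : F' →ₗ[F] F) (z : F ⊗[k] R) (w : F' ⊗[k] R) :
    trf k F F' R ρ (mp k F F' R z * w) = z * trf k F F' R ρ w := by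
  induction z using TensorProduct.induction_on with
  | zero => rw [map_zero, zero_mul, map_zero, zero_mul]
  | add x y hx hy => rw [map_add, add_mul, map_add, hx, hy, add_mul]
  | tmul a r =>
    induction w using TensorProduct.induction_on with
    | zero => rw [mul_zero, map_zero, mul_zero]
    | add x y hx hy => rw [mul_add, map_add, hx, hy, map_add, mul_add]
    | tmul b s =>
      rw [mp_tmul, Algebra.TensorProduct.tmul_mul_tmul, trf_tmul, trf_tmul,
        Algebra.TensorProduct.tmul_mul_tmul, ← Algebra.smul_def, LinearMap.map_smul, smul_eq_mul]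

theorem trf_smul (ρ : F' →ₗ[F] F) (c : F') (z : F ⊗[k] R) :
    trf k F F' R ρ (c • mp k F F' R z) = ρ c • z := by
  induction z using TensorProduct.induction_on with
  | zero => rw [map_zero, smul_zero, map_zero, smul_zero]
  | add x y hx hy => rw [map_add, smul_add, map_add, hx, hy, smul_add]
  | tmul a r =>
    rw [mp_tmul, TensorProduct.smul_tmul', trf_tmul, TensorProduct.smul_tmul', smul_eq_mul,
      smul_eq_mul, mul_comm c, ← Algebra.smul_def, LinearMap.map_smul, smul_eq_mul, mul_comm]

end mp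

section co

variable {k R : Type} [Field k] [CommRing R] [Algebra k R] {X : OneInfC k R} (E : DegB X)
  (F : Type) [Field F] [Algebra k F]

/-- the coordinates on `F ⊗ R` -/
noncomputable def coF (m : ℕ) : F ⊗[k] R →ₗ[F] F :=
  (TensorProduct.AlgebraTensorModule.rid k F F).toLinearMap.comp ((E.co m).baseChange F)

theorem coF_tmul (m : ℕ) (a : F) (r : R) :
    coF E F m (a ⊗ₜ[k] r) = a * algebraMap k F (E.co m r) := by
  unfold coF
  rw [LinearMap.comp_apply, LinearMap.baseChange_tmul]
  change TensorProduct.AlgebraTensorModule.rid k F F (a ⊗ₜ[k] E.co m r) = _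
  rw [TensorProduct.AlgebraTensorModule.rid_tmul, Algebra.smul_def, mul_comm]

/-- `Y` is the degree structure on `F ⊗ R` given by the coordinates -/
def IsBc (Y : OneInfC F (F ⊗[k] R)) : Prop :=
  ∀ z, (∀ m, Y.d z < m → coF E F m z = 0) ∧ Y.lc z = coF E F (Y.d z) z

end co

section pol

variable (k F R : Type) [Field k] [Field F] [Algebra k F] [CommRing R] [Algebra k R]
  [Algebra k[X] R]

/-- the structure of an `F[X]`-algebra on `F ⊗ R` -/
noncomputable def polF : F[X] →+* F ⊗[k] R :=
  Polynomial.eval₂RingHom (Algebra.TensorProduct.includeLeftRingHom : F →+* F ⊗[k] R)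
    (1 ⊗ₜ[k] algebraMap k[X] R X)

end pol

end Pool.Agent.AB3
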