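import Pool.Agent.Lib.MP_5de024_nt.S.DivX.D1Def
import Pool.Agent.Lib.MP_5de024_nt.S.D2A2

/-!
# DIV-D1: from OneInfC to OneInf over a finite field; domain
-/

set_option autoImplicit false
set_option linter.unusedSectionVars false

namespace Pool.Agent.AB3

open Pool.Agent.AB

/-- **D1Fi.** over a finite field, all large numbers are degrees gives the growth condition -/
theorem toF_exists {k R : Type} [Field k] [Finite k] [CommRing R] [Algebra k R]
    (X : OneInfC k R) : ∃ Y : OneInf k R, Y.d = X.d ∧ Y.lc = X.lc := by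
  refine ⟨⟨X.d, X.lc, X.lc_zero, X.lc_ne, X.lc_mul, X.lc_alg, X.d_alg, X.d_mul, X.add_of_lt,
    X.sub_lt, ?_⟩, rfl, rfl⟩
  obtain ⟨E⟩ := exists_degB X
  obtain ⟨c, hc⟩ := d2a2_gen X E
  refine ⟨c, fun n => ?_⟩
  have hfin := finite_degS X n
  have h1 : Nat.card {a : R // a = 0 ∨ X.d a ≤ n} = Nat.card (degS X n) := by
    refine Nat.card_congr (Equiv.subtypeEquivRight fun a => ?_)
    rw [mem_degS]
    constructor
    · rintro (h | h)
      · rw [h, X.d_zero]
        exact Nat.zero_le n
      · exact h
    · exact Or.inr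
  have h2 : n ≤ c + Module.finrank k (degS X n) := by
    by_cases hn : n ≤ c
    · omega
    · obtain ⟨j, rfl⟩ := Nat.exists_eq_add_of_le (not_le.1 hn).le
      rw [d2a2_finrank X E, d2a2_count E c hc]
      omega
  rw [h1, Module.natCard_eq_pow_finrank (K := k) (V := degS X n), ← pow_add]
  exact Nat.pow_le_pow_right Nat.card_pos h2

/-- a ring with one place at infinity is a domain -/
theorem OneInfC.dom {k R : Type} [Field k] [CommRing R] [Algebra k R] (X : OneInfC k R) :
    IsDomain R := by
  have h1 : Nontrivial R := by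
    refine ⟨⟨0, 1, fun h => ?_⟩⟩
    have h2 := X.lc_one
    rw [← h, X.lc_zero] at h2
    exact zero_ne_one h2
  have h3 : NoZeroDivisors R := by
    refine ⟨fun {a b} hab => ?_⟩
    by_contra h
    rw [not_or] at h
    exact X.mul_ne a b h.1 h.2 hab
  exact NoZeroDivisors.to_isDomain R

end Pool.Agent.AB3
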