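import Pool.Agent.Lib.MP_5de024_nt.S.DivX.D1T

/-!
# DIV-D1: norms under extension of constants
-/

set_option autoImplicit false
set_option linter.unusedSectionVars false

namespace Pool.Agent.AB3

open TensorProduct Pool.Agent.AB

/-- **D1N.** the norm (determinant) is compatible with the extension of constants -/
theorem nk_mp (k F F' R : Type) [Field k] [Field F] [Field F'] [Algebra k F] [Algebra k F']
    [Algebra F F'] [IsScalarTower k F F'] [CommRing R] [Algebra k R] (J : Ideal (F ⊗[k] R))
    [Module.Finite F ((F ⊗[k] R) ⧸ J)] (u : F ⊗[k] R) :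
    Nk F' (mp k F F' R u) (J.map (mp k F F' R)) = algebraMap F F' (Nk F u J) := by
  classical
  let J' : Ideal (F' ⊗[k] R) := J.map (mp k F F' R)
  let ψ : ((F ⊗[k] R) ⧸ J) →+* ((F' ⊗[k] R) ⧸ J') :=
    Ideal.quotientMap J' (mp k F F' R) Ideal.le_comap_map
  have hψ : ∀ z, ψ (Ideal.Quotient.mk J z) = Ideal.Quotient.mk J' (mp k F F' R z) :=
    fun z => Ideal.quotientMap_mk
  have hψs : ∀ (c : F) (q : (F ⊗[k] R) ⧸ J), ψ (c • q) = algebraMap F F' c • ψ q := by
    intro c q
    obtain ⟨z, rfl⟩ := Ideal.Quotient.mk_surjective q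
    have h1 : c • Ideal.Quotient.mk J z = Ideal.Quotient.mk J (c • z) := rfl
    rw [h1, hψ, mp_smul, hψ]
    rfl
  let b := Module.finBasis F ((F ⊗[k] R) ⧸ J)
  choose t ht using fun i => Ideal.Quotient.mk_surjective (I := J) (b i)
  have hli : LinearIndependent F' (fun i => ψ (b i)) := by
    rw [Fintype.linearIndependent_iff]
    intro c hc i
    have h1 : ∑ j, c j • mp k F F' R (t j) ∈ J' := by
      rw [← Ideal.Quotient.eq_zero_iff_mem, ← hc, map_sum]
      refine Finset.sum_congr rfl fun j _ => ?_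
      rw [← ht j, hψ]
      rfl
    have h2 : ∀ ρ : F' →ₗ[F] F, ρ (c i) = 0 := by
      intro ρ
      have h3 := trf_mem k F F' R ρ J _ h1
      rw [map_sum] at h3
      simp only [trf_smul] at h3
      have h4 : ∑ j, ρ (c j) • b j = 0 := by
        rw [← Ideal.Quotient.eq_zero_iff_mem, map_sum] at h3
        rw [← h3]
        refine Finset.sum_congr rfl fun j _ => ?_
        rw [← ht j]
        rfl
      exact (Fintype.linearIndependent_iff.1 b.linearIndependent) (fun j => ρ (c j)) h4 i
    exact (Module.forall_dual_apply_eq_zero_iff F (c i)).1 h2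
  have hexp : ∀ q : (F ⊗[k] R) ⧸ J, ψ q = ∑ j, algebraMap F F' (b.repr q j) • ψ (b j) := by
    intro q
    conv_lhs => rw [← b.sum_repr q, map_sum]
    exact Finset.sum_congr rfl fun j _ => hψs _ _
  have hsp : ⊤ ≤ Submodule.span F' (Set.range fun i => ψ (b i)) := by
    intro q _
    obtain ⟨z, rfl⟩ := Ideal.Quotient.mk_surjective q
    induction z using TensorProduct.induction_on with
    | zero =>
      rw [map_zero]
      exact Submodule.zero_mem _
    | add x y hx hy =>
      rw [map_add]
      exact Submodule.add_mem _ (hx trivial) (hy trivial)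
    | tmul a r =>
      have h1 : a ⊗ₜ[k] r = a • mp k F F' R ((1 : F) ⊗ₜ[k] r) := by
        rw [mp_tmul, TensorProduct.smul_tmul', map_one, smul_eq_mul, mul_one]
      have h2 : Ideal.Quotient.mk J' (a ⊗ₜ[k] r) =
          a • ψ (Ideal.Quotient.mk J ((1 : F) ⊗ₜ[k] r)) := by
        rw [h1, hψ]
        rfl
      rw [h2, hexp]
      refine Submodule.smul_mem _ _ (Submodule.sum_mem _ fun j _ => Submodule.smul_mem _ _ ?_)
      exact Submodule.subset_span ⟨j, rfl⟩
  let b' := Module.Basis.mk hli hsp
  have hb' : ∀ i, b' i = ψ (b i) := fun i => Module.Basis.mk_apply hli hsp i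
  have hM : LinearMap.toMatrix b' b' (LinearMap.mulLeft F' (Ideal.Quotient.mk J'
      (mp k F F' R u))) = (algebraMap F F').mapMatrix (LinearMap.toMatrix b b
      (LinearMap.mulLeft F (Ideal.Quotient.mk J u))) := by
    ext i j
    rw [LinearMap.toMatrix_apply, RingHom.mapMatrix_apply, Matrix.map_apply,
      LinearMap.toMatrix_apply, LinearMap.mulLeft_apply, LinearMap.mulLeft_apply, hb', ← hψ,
      ← map_mul, hexp]
    simp only [← hb']
    rw [Module.Basis.repr_sum_self]
  change LinearMap.det (LinearMap.mulLeft F' (Ideal.Quotient.mk J' (mp k F F' R u))) =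
    algebraMap F F' (LinearMap.det (LinearMap.mulLeft F (Ideal.Quotient.mk J u)))
  rw [← LinearMap.det_toMatrix b', ← LinearMap.det_toMatrix b, hM, RingHom.map_det]

end Pool.Agent.AB3
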