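import Pool.Agent.Lib.MP_5de024_nt.S.DivX.D1T
import Pool.Agent.Lib.MP_5de024_nt.S.DivX.D1Bc
import Pool.Agent.Lib.MP_5de024_nt.S.DivX.D1Fi

/-!
# DIV-D1: ideals which become principal over a larger field of constants
-/

set_option autoImplicit false
set_option linter.unusedSectionVars false

namespace Pool.Agent.AB3

open TensorProduct

variable (k F F' R : Type) [Field k] [Field F] [Field F'] [Algebra k F] [Algebra k F']
  [Algebra F F'] [IsScalarTower k F F'] [CommRing R] [Algebra k R]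

/-- the coordinates of the image -/
theorem D1Pr_coF_mp {X : OneInfC k R} (E : DegB X) (m : ℕ) (z : F ⊗[k] R) :
    coF E F' m (mp k F F' R z) = algebraMap F F' (coF E F m z) := by
  induction z using TensorProduct.induction_on with
  | zero => rw [map_zero, map_zero, map_zero, map_zero]
  | tmul a r =>
    rw [mp_tmul, coF_tmul, coF_tmul, map_mul, ← IsScalarTower.algebraMap_apply]
  | add x y hx hy => rw [map_add, map_add, hx, hy, map_add, map_add]

/-- the coordinates of the transfer -/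
theorem D1Pr_coF_trf {X : OneInfC k R} (E : DegB X) (m : ℕ) (ρ : F' →ₗ[F] F) (z : F' ⊗[k] R) :
    coF E F m (trf k F F' R ρ z) = ρ (coF E F' m z) := by
  induction z using TensorProduct.induction_on with
  | zero => rw [map_zero, map_zero, map_zero, map_zero]
  | tmul a r =>
    rw [trf_tmul, coF_tmul, coF_tmul, IsScalarTower.algebraMap_apply k F F', mul_comm a,
      ← Algebra.smul_def, LinearMap.map_smul, smul_eq_mul, mul_comm]
  | add x y hx hy => rw [map_add, map_add, hx, hy, map_add, map_add]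

/-- **D1Pr.** the leading coefficient of the image of `z` -/
theorem mp_lc {X : OneInfC k R} (E : DegB X) (Y : OneInfC F (F ⊗[k] R)) (hY : IsBc E F Y)
    (Y' : OneInfC F' (F' ⊗[k] R)) (hY' : IsBc E F' Y') (z : F ⊗[k] R) :
    Y'.lc (mp k F F' R z) = algebraMap F F' (Y.lc z) ∧ Y'.d (mp k F F' R z) = Y.d z := by
  by_cases hz : z = 0
  · rw [hz, map_zero, Y'.lc_zero, Y.lc_zero, map_zero, Y'.d_zero, Y.d_zero]
    exact ⟨rfl, rfl⟩
  · have h1 : coF E F (Y.d z) z ≠ 0 := by
      rw [← (hY z).2]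
      exact Y.lc_ne z hz
    have h2 : coF E F' (Y.d z) (mp k F F' R z) ≠ 0 := by
      rw [D1Pr_coF_mp]
      exact (map_ne_zero _).2 h1
    have h3 : mp k F F' R z ≠ 0 := by
      intro h
      rw [h, map_zero] at h2
      exact h2 rfl
    have h4 : coF E F' (Y'.d (mp k F F' R z)) (mp k F F' R z) ≠ 0 := by
      rw [← (hY' _).2]
      exact Y'.lc_ne _ h3
    have h5 : coF E F (Y'.d (mp k F F' R z)) z ≠ 0 := by
      intro h
      rw [D1Pr_coF_mp, h, map_zero] at h4
      exact h4 rfl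
    have h6 : Y.d z ≤ Y'.d (mp k F F' R z) := by
      by_contra h
      exact h2 ((hY' _).1 _ (not_le.1 h))
    have h7 : Y'.d (mp k F F' R z) ≤ Y.d z := by
      by_contra h
      exact h5 ((hY _).1 _ (not_le.1 h))
    have h8 : Y'.d (mp k F F' R z) = Y.d z := le_antisymm h7 h6
    refine ⟨?_, h8⟩
    rw [(hY' _).2, h8, D1Pr_coF_mp, (hY z).2]

/-- an ideal which becomes principal over a larger field of constants is principal -/
theorem pr_mp {X : OneInfC k R} (E : DegB X) (J : Ideal (F ⊗[k] R)) (g : F' ⊗[k] R) (hg : g ≠ 0)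
    (h : J.map (mp k F F' R) = Ideal.span {g}) : ∃ f, f ≠ 0 ∧ J = Ideal.span {f} := by
  obtain ⟨Y, hY⟩ := bc_exists E F
  obtain ⟨Y', hY'⟩ := bc_exists E F'
  obtain ⟨ρ, hρ⟩ := trf_ne k F F' R g hg
  obtain ⟨f, hf⟩ : ∃ f, f = trf k F F' R ρ g := ⟨_, rfl⟩
  rw [← hf] at hρ
  have hfJ : f ∈ J := by
    rw [hf]
    refine trf_mem k F F' R ρ J g ?_
    rw [h]
    exact Ideal.mem_span_singleton_self g
  have hd : Y.d f ≤ Y'.d g := by
    by_contra hcon
    have h1 : coF E F (Y.d f) f ≠ 0 := by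
      rw [← (hY f).2]
      exact Y.lc_ne f hρ
    apply h1
    have h2 : coF E F (Y.d f) f = ρ (coF E F' (Y.d f) g) := by
      conv_lhs => rw [hf]
      rw [D1Pr_coF_trf, ← hf]
    rw [h2, (hY' g).1 _ (not_le.1 hcon), map_zero]
  have hmf : mp k F F' R f ≠ 0 := by
    intro h0
    exact hρ (mp_inj k F F' R (h0.trans (map_zero _).symm))
  have hmem : mp k F F' R f ∈ Ideal.span {g} := by
    rw [← h]
    exact Ideal.mem_map_of_mem _ hfJ
  obtain ⟨y, hy⟩ := Ideal.mem_span_singleton'.1 hmem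
  have hy0 : y ≠ 0 := by
    intro h0
    rw [h0, zero_mul] at hy
    exact hmf hy.symm
  have hdy : Y'.d y = 0 := by
    have h1 := Y'.d_mul y g hy0 hg
    rw [hy, (mp_lc k F F' R E Y hY Y' hY' f).2] at h1
    omega
  have hyc : y = algebraMap F' (F' ⊗[k] R) (Y'.lc y) := by
    by_contra hne
    have h1 : algebraMap F' (F' ⊗[k] R) (Y'.lc y) ≠ 0 := by
      intro h0
      have h2 := Y'.lc_alg (Y'.lc y)
      rw [h0, Y'.lc_zero] at h2
      exact Y'.lc_ne y hy0 h2.symm
    have h3 := Y'.sub_lt y _ hy0 h1 hne (by rw [Y'.d_alg, hdy]) (by rw [Y'.lc_alg])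
    omega
  have hyu : IsUnit y := by
    rw [hyc]
    exact (isUnit_iff_ne_zero.2 (Y'.lc_ne y hy0)).map (algebraMap F' (F' ⊗[k] R))
  refine ⟨f, hρ, mp_map_inj k F F' R J _ ?_⟩
  rw [h, Ideal.map_span, Set.image_singleton, ← hy]
  exact (Ideal.span_singleton_mul_left_unit hyu g).symm

/-- the ideal theoretic part of `eqv_mp` -/
theorem D1Pr_eqv {A B : Type} [CommRing A] [IsDedekindDomain A] [CommRing B] [IsDomain B]
    (φ : A →+* B) (hφ : Function.Injective φ)
    (hpr : ∀ (J : Ideal A) (g : B), g ≠ 0 → J.map φ = Ideal.span {g} →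
      ∃ f, f ≠ 0 ∧ J = Ideal.span {f})
    (J J' : Ideal A) (hJ' : J' ≠ ⊥) (h : Eqv (J.map φ) (J'.map φ)) : Eqv J J' := by
  obtain ⟨a, b, ha, hb, hab⟩ := h
  obtain ⟨c, hc, hc0⟩ := Submodule.exists_mem_ne_zero_of_ne_bot hJ'
  obtain ⟨J'', hJ''⟩ := Ideal.dvd_iff_le.2 ((Ideal.span_singleton_le_iff_mem J').2 hc)
  have hmc : φ c ≠ 0 := by
    intro h0
    exact hc0 (hφ (h0.trans (map_zero _).symm))
  have h1 : Ideal.span {a} * (J * J'').map φ = Ideal.span {b * φ c} := by
    rw [Ideal.map_mul, ← mul_assoc, hab, mul_assoc, ← Ideal.map_mul, ← hJ'', Ideal.map_span,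
      Set.image_singleton, Ideal.span_singleton_mul_span_singleton]
  have h2 : b * φ c ∈ Ideal.span {a} := by
    have h3 : b * φ c ∈ Ideal.span {a} * (J * J'').map φ := by
      rw [h1]
      exact Ideal.mem_span_singleton_self _
    exact Ideal.mul_le_left h3
  obtain ⟨g, hg⟩ := Ideal.mem_span_singleton'.1 h2
  have hg0 : g ≠ 0 := by
    intro h0
    rw [h0, zero_mul] at hg
    exact mul_ne_zero hb hmc hg.symm
  have h3 : (J * J'').map φ = Ideal.span {g} := by
    rw [← hg, mul_comm g a, ← Ideal.span_singleton_mul_span_singleton] at h1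
    exact (Ideal.span_singleton_mul_right_inj ha).1 h1
  obtain ⟨f, hf0, hf⟩ := hpr (J * J'') g hg0 h3
  refine ⟨c, f, hc0, hf0, ?_⟩
  rw [hJ'', ← hf, mul_assoc, mul_comm J'' J, mul_comm J']

/-- ideals which become equivalent over a larger field of constants are equivalent -/
theorem eqv_mp {X : OneInfC k R} (E : DegB X) [IsDedekindDomain (F ⊗[k] R)]
    (J J' : Ideal (F ⊗[k] R)) (hJ : J ≠ ⊥) (hJ' : J' ≠ ⊥)
    (h : Eqv (J.map (mp k F F' R)) (J'.map (mp k F F' R))) : Eqv J J' := by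
  obtain ⟨Y', hY'⟩ := bc_exists E F'
  have hdom : IsDomain (F' ⊗[k] R) := Y'.dom
  exact D1Pr_eqv (mp k F F' R) (mp_inj k F F' R) (fun J g hg h => pr_mp k F F' R E J g hg h)
    J J' hJ' h

end Pool.Agent.AB3
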