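import Pool.Agent.Lib.MP_5de024_nt.S.DivX.D1Def
import Pool.Agent.Lib.MP_5de024_nt.C.Abs

/-!
# DIV-D1: contraction of ideals and norms under extension of constants
-/

set_option autoImplicit false
set_option linter.unusedSectionVars false

namespace Pool.Agent.AB3

open TensorProduct Pool.Agent.AB

variable (k F F' R : Type) [Field k] [Field F] [Field F'] [Algebra k F] [Algebra k F']
  [Algebra F F'] [IsScalarTower k F F'] [CommRing R] [Algebra k R]

/-- an `F`-linear form with value `1` at `1` -/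
theorem D1T_form (F F' : Type) [Field F] [Field F'] [Algebra F F'] :
    ∃ ρ : F' →ₗ[F] F, ρ 1 = 1 := by
  obtain ⟨ρ, hρ⟩ := LinearMap.exists_leftInverse_of_injective (Algebra.linearMap F F')
    (LinearMap.ker_eq_bot.2 (algebraMap F F').injective)
  refine ⟨ρ, ?_⟩
  have h1 := congrArg (fun f => f 1) hρ
  simpa using h1

theorem D1T_left (ρ : F' →ₗ[F] F) (hρ : ρ 1 = 1) (z : F ⊗[k] R) :
    trf k F F' R ρ (mp k F F' R z) = z := by
  have h1 := trf_mul k F F' R ρ z 1
  have h2 : trf k F F' R ρ 1 = 1 := by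
    rw [Algebra.TensorProduct.one_def, trf_tmul, hρ, ← Algebra.TensorProduct.one_def]
  rwa [mul_one, h2, mul_one] at h1

/-- the coordinates of the transfer -/
theorem D1T_coord {I : Type} (b : Module.Basis I k R) (ρ : F' →ₗ[F] F) (z : F' ⊗[k] R) (i : I) :
    (Algebra.TensorProduct.basis F b).repr (trf k F F' R ρ z) i =
      ρ ((Algebra.TensorProduct.basis F' b).repr z i) := by
  induction z using TensorProduct.induction_on with
  | zero => rw [map_zero, map_zero, map_zero, Finsupp.zero_apply, Finsupp.zero_apply, map_zero]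
  | add x y hx hy =>
    rw [map_add, map_add, Finsupp.add_apply, hx, hy, map_add, Finsupp.add_apply, map_add]
  | tmul a r =>
    have h1 : a * algebraMap k F' (b.repr r i) = algebraMap k F (b.repr r i) • a := by
      rw [Algebra.smul_def, ← IsScalarTower.algebraMap_apply, mul_comm]
    rw [trf_tmul, Algebra.TensorProduct.basis_repr_tmul, Algebra.TensorProduct.basis_repr_tmul,
      Finsupp.smul_apply, Finsupp.smul_apply, Finsupp.mapRange_apply, Finsupp.mapRange_apply,
      smul_eq_mul, smul_eq_mul, h1, LinearMap.map_smul, smul_eq_mul, mul_comm]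

/-- **D1T.** -/
theorem mp_inj : Function.Injective (mp k F F' R) := by
  obtain ⟨ρ, hρ⟩ := D1T_form F F'
  intro x y h
  rw [← D1T_left k F F' R ρ hρ x, ← D1T_left k F F' R ρ hρ y, h]

theorem trf_ne (z : F' ⊗[k] R) (hz : z ≠ 0) : ∃ ρ : F' →ₗ[F] F, trf k F F' R ρ z ≠ 0 := by
  obtain ⟨b⟩ : Nonempty (Module.Basis (Module.Free.ChooseBasisIndex k R) k R) :=
    ⟨Module.Free.chooseBasis k R⟩
  have h1 : (Algebra.TensorProduct.basis F' b).repr z ≠ 0 := fun h =>
    hz ((Algebra.TensorProduct.basis F' b).repr.map_eq_zero_iff.1 h)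
  obtain ⟨i, hi⟩ := Finsupp.ne_iff.1 h1
  obtain ⟨ρ, hρ⟩ : ∃ ρ : F' →ₗ[F] F, ρ ((Algebra.TensorProduct.basis F' b).repr z i) ≠ 0 := by
    by_contra hcon
    push Not at hcon
    exact hi ((Module.forall_dual_apply_eq_zero_iff F _).1 hcon)
  refine ⟨ρ, fun h => hρ ?_⟩
  rw [← D1T_coord, h, map_zero, Finsupp.zero_apply]

theorem trf_mem (ρ : F' →ₗ[F] F) (J : Ideal (F ⊗[k] R)) (z : F' ⊗[k] R)
    (h : z ∈ J.map (mp k F F' R)) : trf k F F' R ρ z ∈ J := by
  have key : ∀ a : F' ⊗[k] R, trf k F F' R ρ (a * z) ∈ J := by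
    refine Submodule.span_induction (p := fun x _ => ∀ a : F' ⊗[k] R, trf k F F' R ρ (a * x) ∈ J)
      ?_ ?_ ?_ ?_ h
    · rintro x ⟨j, hj, rfl⟩ a
      rw [mul_comm, trf_mul]
      exact J.mul_mem_right _ hj
    · intro a
      rw [mul_zero, map_zero]
      exact J.zero_mem
    · intro x y _ _ hx hy a
      rw [mul_add, map_add]
      exact J.add_mem (hx a) (hy a)
    · intro b x _ hx a
      rw [smul_eq_mul, ← mul_assoc]
      exact hx (a * b)
  have h1 := key 1
  rwa [one_mul] at h1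

theorem mp_contract (J : Ideal (F ⊗[k] R)) (z : F ⊗[k] R)
    (h : mp k F F' R z ∈ J.map (mp k F F' R)) : z ∈ J := by
  obtain ⟨ρ, hρ⟩ := D1T_form F F'
  rw [← D1T_left k F F' R ρ hρ z]
  exact trf_mem k F F' R ρ J _ h

theorem mp_map_inj (J J' : Ideal (F ⊗[k] R)) (h : J.map (mp k F F' R) = J'.map (mp k F F' R)) :
    J = J' := by
  apply le_antisymm
  · intro z hz
    refine mp_contract k F F' R J' z ?_
    rw [← h]
    exact Ideal.mem_map_of_mem _ hz
  · intro z hz
    refine mp_contract k F F' R J z ?_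
    rw [h]
    exact Ideal.mem_map_of_mem _ hz

end Pool.Agent.AB3
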