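import Mathlib

/-!
# Galois extensions of rings: finiteness, integral closedness, Dedekind (part DIV, step B)
-/

set_option autoImplicit false
set_option linter.unusedSectionVars false

namespace Pool.Agent.AB3

section gal

variable {A B G : Type} [CommRing A] [CommRing B] [Algebra A B] [Group G] [Finite G]

/-- sums over the group lie in the fixed ring -/
theorem gal_sum [Fintype G] (ac : G →* (B ≃ₐ[A] B))
    (hfix : ∀ b : B, (∀ g, ac g b = b) → ∃ a, algebraMap A B a = b) (x : B) :
    ∃ a : A, algebraMap A B a = ∑ g, ac g x := by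
  refine hfix _ fun g => ?_
  rw [map_sum]
  refine Fintype.sum_equiv (Equiv.mulLeft g) _ _ fun h => ?_
  rw [Equiv.coe_mulLeft, map_mul, AlgEquiv.mul_apply]

/-- products over the group lie in the fixed ring -/
theorem gal_prod [Fintype G] (ac : G →* (B ≃ₐ[A] B))
    (hfix : ∀ b : B, (∀ g, ac g b = b) → ∃ a, algebraMap A B a = b) (x : B) :
    ∃ a : A, algebraMap A B a = ∏ g, ac g x := by
  refine hfix _ fun g => ?_
  rw [map_prod]
  refine Fintype.prod_equiv (Equiv.mulLeft g) _ _ fun h => ?_
  rw [Equiv.coe_mulLeft, map_mul, AlgEquiv.mul_apply]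

/-- reconstruction from the coordinates -/
theorem gal_rec [Fintype G] (ac : G →* (B ≃ₐ[A] B)) {m : ℕ} (x y : Fin m → B)
    (hxy : ∀ g : G, (g = 1 → ∑ i, x i * ac g (y i) = 1) ∧
      (g ≠ 1 → ∑ i, x i * ac g (y i) = 0)) (b : B) :
    b = ∑ i, x i * ∑ g, ac g (b * y i) := by
  classical
  have h1 : ∑ i, x i * ∑ g, ac g (b * y i) = ∑ g, ac g b * ∑ i, x i * ac g (y i) := by
    simp only [Finset.mul_sum]
    rw [Finset.sum_comm]
    refine Finset.sum_congr rfl fun g _ => Finset.sum_congr rfl fun i _ => ?_
    rw [map_mul (ac g) b (y i)]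
    ring
  rw [h1, Finset.sum_eq_single (1 : G)]
  · rw [(hxy 1).1 rfl, mul_one, map_one]
    rfl
  · intro g _ hg
    rw [(hxy g).2 hg, mul_zero]
  · intro h
    exact absurd (Finset.mem_univ _) h

theorem gal_finite (ac : G →* (B ≃ₐ[A] B))
    (hfix : ∀ b : B, (∀ g, ac g b = b) → ∃ a, algebraMap A B a = b)
    (hco : ∃ (m : ℕ) (x y : Fin m → B), ∀ g : G,
      (g = 1 → ∑ i, x i * ac g (y i) = 1) ∧ (g ≠ 1 → ∑ i, x i * ac g (y i) = 0)) :
    Module.Finite A B := by
  classical
  let _ := Fintype.ofFinite G
  obtain ⟨m, x, y, hxy⟩ := hco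
  refine ⟨⟨Finset.univ.image x, ?_⟩⟩
  rw [eq_top_iff]
  intro b _
  rw [gal_rec ac x y hxy b]
  refine Submodule.sum_mem _ fun i _ => ?_
  obtain ⟨a, ha⟩ := gal_sum ac hfix (b * y i)
  rw [← ha, mul_comm, ← Algebra.smul_def]
  refine Submodule.smul_mem _ _ (Submodule.subset_span ?_)
  rw [Finset.coe_image]
  exact ⟨i, by simp, rfl⟩

/-- integrally closed: the trace argument -/
theorem gal_intClosed [IsDomain A] [IsIntegrallyClosed A] [IsDomain B]
    (hinj : Function.Injective (algebraMap A B)) (ac : G →* (B ≃ₐ[A] B))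
    (hfix : ∀ b : B, (∀ g, ac g b = b) → ∃ a, algebraMap A B a = b)
    (hco : ∃ (m : ℕ) (x y : Fin m → B), ∀ g : G,
      (g = 1 → ∑ i, x i * ac g (y i) = 1) ∧ (g ≠ 1 → ∑ i, x i * ac g (y i) = 0)) :
    IsIntegrallyClosed B := by
  classical
  have : Module.Finite A B := gal_finite ac hfix hco
  have : Algebra.IsIntegral A B := Algebra.IsIntegral.of_finite A B
  have : Fintype G := Fintype.ofFinite G
  have hinjK : Function.Injective (algebraMap B (FractionRing B)) :=
    IsFractionRing.injective _ _
  rw [isIntegrallyClosed_iff (FractionRing B)]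
  intro z hz
  have hzA : IsIntegral A z := isIntegral_trans z hz
  -- the action on the fraction field
  let τ : G → (FractionRing B →ₐ[A] FractionRing B) := fun g =>
    { (IsFractionRing.ringEquivOfRingEquiv (K := FractionRing B)
        (L := FractionRing B) (ac g).toRingEquiv :
        FractionRing B →+* FractionRing B) with
      commutes' := fun a => by
        rw [IsScalarTower.algebraMap_apply A B (FractionRing B)]
        have h1 := IsFractionRing.ringEquivOfRingEquiv_algebraMap (K := FractionRing B)
          (L := FractionRing B) (ac g).toRingEquiv (algebraMap A B a)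
        have h2 : (ac g).toRingEquiv (algebraMap A B a) = algebraMap A B a :=
          (ac g).commutes a
        rw [h2] at h1
        exact h1 }
  have hτ : ∀ g (x : B), τ g (algebraMap B (FractionRing B) x) =
      algebraMap B (FractionRing B) (ac g x) := fun g x =>
    IsFractionRing.ringEquivOfRingEquiv_algebraMap (K := FractionRing B)
      (L := FractionRing B) (ac g).toRingEquiv x
  -- `z = b / a`
  obtain ⟨b₀, c₀, hc₀, hbc⟩ := IsFractionRing.div_surjective (A := B) z
  have hc0 : c₀ ≠ 0 := nonZeroDivisors.ne_zero hc₀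
  obtain ⟨a, ha⟩ := gal_prod ac hfix c₀
  have hN0 : (∏ g, ac g c₀) ≠ 0 := by
    rw [Finset.prod_ne_zero_iff]
    intro g _
    rw [Ne, map_eq_zero_iff _ (ac g).injective]
    exact hc0
  have ha0 : a ≠ 0 := by
    rintro rfl
    rw [map_zero] at ha
    exact hN0 ha.symm
  obtain ⟨d, hd⟩ : c₀ ∣ ∏ g, ac g c₀ := by
    have h1 := Finset.dvd_prod_of_mem (fun g => ac g c₀) (Finset.mem_univ (1 : G))
    have h2 : ac 1 c₀ = c₀ := by
      rw [map_one]
      rfl
    simp only [h2] at h1
    exact h1
  have haB0 : algebraMap B (FractionRing B) (algebraMap A B a) ≠ 0 := by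
    rw [ha]
    exact (map_ne_zero_iff _ hinjK).2 hN0
  have hz' : z * algebraMap B (FractionRing B) (algebraMap A B a) =
      algebraMap B (FractionRing B) (b₀ * d) := by
    have hc0' : algebraMap B (FractionRing B) c₀ ≠ 0 := (map_ne_zero_iff _ hinjK).2 hc0
    rw [ha, hd, map_mul, map_mul, ← hbc]
    field_simp
  -- the traces
  obtain ⟨m, x, y, hxy⟩ := hco
  have htr : ∀ i : Fin m, ∃ r : A, (∑ g, ac g (b₀ * d * y i)) =
      algebraMap A B r * algebraMap A B a := by
    intro i
    obtain ⟨s, hs⟩ := gal_sum ac hfix (b₀ * d * y i)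
    have hint : IsIntegral A (∑ g, τ g (z * algebraMap B (FractionRing B) (y i))) := by
      refine IsIntegral.sum _ fun g _ => IsIntegral.map (τ g) ?_
      refine hzA.mul ?_
      exact (Algebra.IsIntegral.isIntegral (R := A) (y i)).algebraMap
    have heq : (∑ g, τ g (z * algebraMap B (FractionRing B) (y i))) *
        algebraMap B (FractionRing B) (algebraMap A B a) =
        algebraMap B (FractionRing B) (algebraMap A B s) := by
      rw [hs, map_sum, Finset.sum_mul]
      refine Finset.sum_congr rfl fun g _ => ?_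
      have h1 : algebraMap B (FractionRing B) (algebraMap A B a) =
          τ g (algebraMap B (FractionRing B) (algebraMap A B a)) := by
        rw [hτ, (ac g).commutes]
      rw [h1, ← map_mul, mul_right_comm, hz', ← map_mul, hτ]
    have hinjA : Function.Injective (algebraMap A (FractionRing B)) := by
      rw [IsScalarTower.algebraMap_eq A B (FractionRing B)]
      exact hinjK.comp hinj
    let j : FractionRing A →ₐ[A] FractionRing B :=
      { (IsFractionRing.lift hinjA : FractionRing A →+* FractionRing B) with
        commutes' := fun c => IsFractionRing.lift_algebraMap hinjA c }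
    have haL : algebraMap A (FractionRing A) a ≠ 0 :=
      (map_ne_zero_iff _ (IsFractionRing.injective A (FractionRing A))).2 ha0
    have hj : j (algebraMap A (FractionRing A) s / algebraMap A (FractionRing A) a) =
        ∑ g, τ g (z * algebraMap B (FractionRing B) (y i)) := by
      rw [map_div₀, j.commutes, j.commutes,
        IsScalarTower.algebraMap_apply A B (FractionRing B) s,
        IsScalarTower.algebraMap_apply A B (FractionRing B) a, ← heq,
        mul_div_cancel_right₀ _ haB0]
    have hint2 : IsIntegral A (algebraMap A (FractionRing A) s / algebraMap A (FractionRing A) a) := by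
      rw [← isIntegral_algHom_iff j j.toRingHom.injective, hj]
      exact hint
    obtain ⟨r, hr⟩ := IsIntegrallyClosed.algebraMap_eq_of_integral hint2
    refine ⟨r, ?_⟩
    rw [← hs, ← map_mul]
    congr 1
    apply IsFractionRing.injective A (FractionRing A)
    rw [map_mul, hr, div_mul_cancel₀ _ haL]
  choose r hr using htr
  refine ⟨∑ i, x i * algebraMap A B (r i), ?_⟩
  apply mul_right_cancel₀ haB0
  rw [hz', ← map_mul]
  congr 1
  rw [gal_rec ac x y hxy (b₀ * d), Finset.sum_mul]
  refine Finset.sum_congr rfl fun i _ => ?_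
  rw [hr i]
  ring

/-- an integrally closed domain which is finite over a Dedekind domain is a Dedekind domain -/
theorem dedekind_of_finite [IsDedekindDomain A] [IsDomain B] [Module.Finite A B]
    [IsIntegrallyClosed B] : IsDedekindDomain B := by
  have : Algebra.IsIntegral A B := Algebra.IsIntegral.of_finite _ _
  have h2 : IsNoetherianRing B := IsNoetherianRing.of_finite A B
  have h3 : Ring.DimensionLEOne B := by
    constructor
    intro p hp0 hp
    obtain ⟨x, hx, hx0⟩ := Submodule.exists_mem_ne_zero_of_ne_bot hp0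
    have h4 := Ideal.comap_ne_bot_of_integral_mem (R := A) hx0 hx (Algebra.IsIntegral.isIntegral x)
    have : (p.comap (algebraMap A B)).IsPrime := Ideal.comap_isPrime _ p
    exact Ideal.isMaximal_of_isIntegral_of_isMaximal_comap p
      (Ring.DimensionLEOne.maximalOfPrime h4 inferInstance)
  rw [isDedekindDomain_iff B (FractionRing B)]
  exact ⟨inferInstance, h2, h3, fun {_} => (isIntegrallyClosed_iff _).1 inferInstance⟩

theorem gal_dedekind [IsDedekindDomain A] [IsDomain B]
    (hinj : Function.Injective (algebraMap A B)) (ac : G →* (B ≃ₐ[A] B))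
    (hfix : ∀ b : B, (∀ g, ac g b = b) → ∃ a, algebraMap A B a = b)
    (hco : ∃ (m : ℕ) (x y : Fin m → B), ∀ g : G,
      (g = 1 → ∑ i, x i * ac g (y i) = 1) ∧ (g ≠ 1 → ∑ i, x i * ac g (y i) = 0)) :
    IsDedekindDomain B := by
  have : Module.Finite A B := gal_finite ac hfix hco
  have : IsIntegrallyClosed B := gal_intClosed hinj ac hfix hco
  exact dedekind_of_finite (A := A)

end gal

end Pool.Agent.AB3
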