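import Pool.Agent.Lib.MP_5de024_nt.S.DivX.MDef

/-!
# DIV, step M: approximation
-/

set_option autoImplicit false
set_option linter.unusedSectionVars false

namespace Pool.Agent.AB3

variable {k R E : Type} [Field k] [CommRing R] [Algebra k R] [Field E] [Algebra R E]

/-- the sums `x + g y`, `x ∈ R`, `π ^ n y ∈ O` -/
private def appW (P : Pl k R E) (g : E) : AddSubgroup E where
  carrier := {z | ∃ (x : R) (y : E) (n : ℕ), P.π ^ n * y ∈ P.O ∧ z = algebraMap R E x + g * y}
  zero_mem' := ⟨0, 0, 0, by rw [mul_zero]; exact P.O.zero_mem, by rw [map_zero, mul_zero, add_zero]⟩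
  add_mem' := by
    rintro z1 z2 ⟨x1, y1, n1, h1, rfl⟩ ⟨x2, y2, n2, h2, rfl⟩
    refine ⟨x1 + x2, y1 + y2, n1 + n2, ?_, by rw [map_add]; ring⟩
    have h : P.π ^ (n1 + n2) * (y1 + y2) =
        P.π ^ n2 * (P.π ^ n1 * y1) + P.π ^ n1 * (P.π ^ n2 * y2) := by
      rw [pow_add]; ring
    rw [h]
    exact P.O.add_mem (P.O.mul_mem (P.O.pow_mem P.mem n2) h1)
      (P.O.mul_mem (P.O.pow_mem P.mem n1) h2)
  neg_mem' := by
    rintro z ⟨x, y, n, h, rfl⟩
    refine ⟨-x, -y, n, ?_, by rw [map_neg]; ring⟩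
    rw [mul_neg]
    exact P.O.neg_mem h

private theorem appW_mem {P : Pl k R E} {g z : E} : z ∈ appW P g ↔
    ∃ (x : R) (y : E) (n : ℕ), P.π ^ n * y ∈ P.O ∧ z = algebraMap R E x + g * y := Iff.rfl

private theorem appW_mul {P : Pl k R E} {g z : E} (a : R) (ha : a ∈ P.R1) (hz : z ∈ appW P g) :
    algebraMap R E a * z ∈ appW P g := by
  obtain ⟨m, hm⟩ := (P.mem_R1 a).1 ha
  obtain ⟨x, y, n, h, rfl⟩ := hz
  refine ⟨a * x, algebraMap R E a * y, m + n, ?_, by rw [map_mul]; ring⟩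
  have h' : P.π ^ (m + n) * (algebraMap R E a * y) =
      (P.π ^ m * algebraMap R E a) * (P.π ^ n * y) := by
    rw [pow_add]; ring
  rw [h']
  exact P.O.mul_mem hm h

private theorem appW_top (hinj : Function.Injective (algebraMap R E)) (P : Pl k R E)
    (hinf : Infinite P.R1) (g : E) (hg : g ≠ 0) (z : E) : z ∈ appW P g := by
  obtain ⟨s, hs, hcov⟩ := P.fin g hg
  have hcov' : ∀ z : E, ∃ e ∈ s, z - e ∈ appW P g := by
    intro z
    obtain ⟨e, he, x, y, hy, hz⟩ := hcov z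
    refine ⟨e, he, x, y, 0, by rw [pow_zero, one_mul]; exact hy, ?_⟩
    rw [hz]
    ring
  have hfin : Finite s := hs
  have hchoice : ∀ (a : P.R1) (e : s), ∃ e' : s,
      algebraMap R E (a : R) * (e : E) - (e' : E) ∈ appW P g := by
    intro a e
    obtain ⟨e', he', h⟩ := hcov' (algebraMap R E (a : R) * (e : E))
    exact ⟨⟨e', he'⟩, h⟩
  choose φ hφ using hchoice
  obtain ⟨a, b, hab, hφab⟩ := Finite.exists_ne_map_eq_of_infinite φ
  have hd : algebraMap R E ((a : R) - b) ≠ 0 := by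
    intro h0
    apply hab
    have h1 : (a : R) - b = 0 := hinj (by rw [h0, map_zero])
    exact Subtype.ext (sub_eq_zero.1 h1)
  have hdR : (a : R) - b ∈ P.R1 := P.R1.sub_mem a.2 b.2
  have key : ∀ z : E, algebraMap R E ((a : R) - b) * z ∈ appW P g := by
    intro z
    obtain ⟨e, he, hw⟩ := hcov' z
    have h1 := hφ a ⟨e, he⟩
    have h2 := hφ b ⟨e, he⟩
    rw [hφab] at h1
    have h3 := (appW P g).sub_mem h1 h2
    have h4 := appW_mul _ hdR hw
    have h5 : algebraMap R E ((a : R) - b) * z =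
        (algebraMap R E (a : R) * e - (φ b ⟨e, he⟩ : E) -
          (algebraMap R E (b : R) * e - (φ b ⟨e, he⟩ : E))) +
        algebraMap R E ((a : R) - b) * (z - e) := by
      rw [map_sub]
      ring
    rw [h5]
    exact (appW P g).add_mem h3 h4
  have h6 := key (z / algebraMap R E ((a : R) - b))
  rwa [mul_div_cancel₀ _ hd] at h6

/-- `E = f R + g O[1/π]` -/
theorem pl_app (hinj : Function.Injective (algebraMap R E)) (P : Pl k R E)
    (hinf : Infinite P.R1) (f : R) (hf : f ≠ 0) (g : E) (hg : g ≠ 0) (z : E) :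
    ∃ (x : R) (y : E) (n : ℕ), P.π ^ n * y ∈ P.O ∧ z = algebraMap R E (f * x) + g * y := by
  have hf' : algebraMap R E f ≠ 0 := by
    intro h0
    exact hf (hinj (by rw [h0, map_zero]))
  obtain ⟨x, y, n, h, he⟩ := appW_mem.1 (appW_top hinj P hinf (g / algebraMap R E f)
    (div_ne_zero hg hf') (z / algebraMap R E f))
  refine ⟨x, y, n, h, ?_⟩
  rw [div_eq_iff hf'] at he
  rw [he, map_mul]
  field_simp
  try ring

end Pool.Agent.AB3
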