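import Pool.Agent.Lib.MP_5de024_nt.C.Abs

/-!
# DIV, step M: rings with one place at infinity are finite over a polynomial ring
-/

set_option autoImplicit false
set_option linter.unusedSectionVars false

namespace Pool.Agent.AB3

open Pool.Agent.AB Polynomial

theorem one_infinite (k A : Type) [Field k] [Finite k] [CommRing A] [Algebra k A]
    (X : OneInf k A) : Infinite A := by
  by_contra hcon
  rw [not_infinite_iff_finite] at hcon
  obtain ⟨c, hc⟩ := X.growth
  obtain ⟨N, hN⟩ : ∃ N, N = Nat.card A := ⟨_, rfl⟩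
  have hk : 1 < Nat.card k := Finite.one_lt_card
  have h1 := hc (c + N)
  have h2 : Nat.card {a : A // a = 0 ∨ X.d a ≤ c + N} ≤ N := by
    rw [hN]
    exact Nat.card_le_card_of_injective Subtype.val Subtype.val_injective
  have h3 : Nat.card k ^ c * Nat.card k ^ N ≤ Nat.card k ^ c * N := by
    rw [← pow_add]
    exact h1.trans (Nat.mul_le_mul_left _ h2)
  have h4 : Nat.card k ^ N ≤ N := Nat.le_of_mul_le_mul_left h3 (pow_pos (by omega) c)
  exact absurd (Nat.lt_pow_self hk) (not_lt.2 h4)

section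

variable {k A : Type} [Field k] [CommRing A] [Algebra k A]

theorem MFin_ne (X : OneInf k A) {a : A} (h : X.lc a ≠ 0) : a ≠ 0 := by
  rintro rfl
  exact h X.lc_zero

theorem MFin_alg (X : OneInf k A) {c : k} (hc : c ≠ 0) : algebraMap k A c ≠ 0 :=
  MFin_ne X (by rwa [X.lc_alg])

theorem MFin_d0 (X : OneInf k A) : X.d 0 = 0 := by
  rw [← map_zero (algebraMap k A), X.d_alg]

theorem MFin_lc_pow (X : OneInf k A) (a : A) (n : ℕ) : X.lc (a ^ n) = X.lc a ^ n := by
  induction n with
  | zero => rw [pow_zero, pow_zero, ← map_one (algebraMap k A), X.lc_alg]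
  | succ n ih => rw [pow_succ, X.lc_mul, ih, pow_succ]

theorem MFin_d_pow (X : OneInf k A) {a : A} (ha : a ≠ 0) (n : ℕ) :
    X.d (a ^ n) = n * X.d a := by
  induction n with
  | zero => rw [pow_zero, zero_mul, ← map_one (algebraMap k A), X.d_alg]
  | succ n ih =>
    have h1 : a ^ n ≠ 0 := MFin_ne X (by
      rw [MFin_lc_pow]
      exact pow_ne_zero _ (X.lc_ne a ha))
    rw [pow_succ, X.d_mul _ _ h1 ha, ih, Nat.succ_mul]

/-- the degree of a polynomial in `T` -/
theorem MFin_poly (X : OneInf k A) {T : A} (hT : 0 < X.d T) (n : ℕ) (f : k[X]) (hf : f ≠ 0)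
    (hn : f.natDegree = n) : aeval T f ≠ 0 ∧ X.d (aeval T f) = n * X.d T := by
  have hT0 : T ≠ 0 := by
    rintro rfl
    rw [MFin_d0] at hT
    exact lt_irrefl _ hT
  induction n generalizing f with
  | zero =>
    rw [natDegree_eq_zero] at hn
    obtain ⟨c, rfl⟩ := hn
    rw [aeval_C, X.d_alg, zero_mul]
    exact ⟨MFin_alg X fun h => hf (by rw [h, C_0]), rfl⟩
  | succ n ih =>
    have h1 : f.divX.natDegree = n := by rw [natDegree_divX_eq_natDegree_tsub_one, hn]; rfl
    have h2 : f.divX ≠ 0 := by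
      intro h
      have h3 := divX_mul_X_add f
      rw [h, zero_mul, zero_add] at h3
      rw [← h3, natDegree_C] at hn
      omega
    obtain ⟨h3, h4⟩ := ih f.divX h2 h1
    have h5 : aeval T f = algebraMap k A (f.coeff 0) + aeval T f.divX * T := by
      conv_lhs => rw [← divX_mul_X_add f]
      rw [map_add, map_mul, aeval_X, aeval_C, add_comm]
    have h6 : X.d (aeval T f.divX * T) = (n + 1) * X.d T := by
      rw [X.d_mul _ _ h3 hT0, h4, Nat.succ_mul]
    have h7 : aeval T f.divX * T ≠ 0 := MFin_ne X (by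
      rw [X.lc_mul]
      exact mul_ne_zero (X.lc_ne _ h3) (X.lc_ne _ hT0))
    by_cases hc : f.coeff 0 = 0
    · rw [h5, hc, map_zero, zero_add]
      exact ⟨h7, h6⟩
    · have h8 := X.add_of_lt _ _ (MFin_alg X hc) h7 (by
        rw [X.d_alg, h6]
        positivity)
      rw [h5]
      refine ⟨fun h => ?_, h8.1.trans h6⟩
      have h9 := h8.1
      rw [h, MFin_d0, h6] at h9
      have : 0 < (n + 1) * X.d T := by positivity
      omega

/-- an element of positive degree -/
theorem MFin_T [Finite k] (X : OneInf k A) : ∃ T : A, 0 < X.d T := by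
  by_contra hcon
  push Not at hcon
  have hinf := one_infinite k A X
  have hinj : Function.Injective X.lc := by
    intro a b hab
    by_cases ha : a = 0
    · rw [ha, X.lc_zero] at hab
      by_contra hne
      refine X.lc_ne b (fun hb => hne (by rw [ha, hb])) hab.symm
    · have hb : b ≠ 0 := MFin_ne X (by rw [← hab]; exact X.lc_ne a ha)
      by_contra hne
      have h1 := X.sub_lt a b ha hb hne (by
        rw [Nat.le_zero.1 (hcon a), Nat.le_zero.1 (hcon b)]) hab
      rw [Nat.le_zero.1 (hcon a)] at h1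
      exact absurd h1 (Nat.not_lt_zero _)
  exact hinf.not_finite (Finite.of_injective _ hinj)

end

theorem one_finite (k A : Type) [Field k] [Finite k] [CommRing A] [IsDomain A] [Algebra k A]
    (X : OneInf k A) : ∃ T : A, Function.Injective (Polynomial.aeval T : k[X] →ₐ[k] A) ∧
      ((Polynomial.aeval T : k[X] →ₐ[k] A) : k[X] →+* A).Finite := by
  classical
  obtain ⟨T, hT⟩ := MFin_T X
  have hT0 : T ≠ 0 := by
    rintro rfl
    rw [MFin_d0] at hT
    exact lt_irrefl _ hT
  refine ⟨T, ?_, ?_⟩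
  · rw [injective_iff_map_eq_zero]
    intro f hf
    by_contra hne
    exact (MFin_poly X hT _ f hne rfl).1 hf
  · -- minimal elements of the residue classes
    have hex : ∀ i : Fin (X.d T), ∃ e : A, ∀ x : A, x ≠ 0 → X.d x % X.d T = i →
        e ≠ 0 ∧ X.d e % X.d T = i ∧ X.d e ≤ X.d x := by
      intro i
      by_cases h : ∃ n, ∃ x : A, x ≠ 0 ∧ X.d x % X.d T = i ∧ X.d x = n
      · obtain ⟨e, he, hei, hen⟩ := Nat.find_spec h
        refine ⟨e, fun x hx hxi => ⟨he, hei, ?_⟩⟩
        rw [hen]
        exact Nat.find_min' h ⟨x, hx, hxi, rfl⟩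
      · exact ⟨0, fun x hx hxi => absurd ⟨_, x, hx, hxi, rfl⟩ h⟩
    choose e he using hex
    let _ := ((Polynomial.aeval T : k[X] →ₐ[k] A) : k[X] →+* A).toAlgebra
    have hsm : ∀ (f : k[X]) (a : A), f • a = aeval T f * a := fun f a => rfl
    refine ⟨⟨Finset.univ.image e, ?_⟩⟩
    rw [eq_top_iff]
    rintro x -
    have key : ∀ n, ∀ x : A, X.d x = n → x ∈ Submodule.span k[X]
        ((Finset.univ.image e : Finset A) : Set A) := by
      intro n
      induction n using Nat.strong_induction_on with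
      | _ n ih =>
        intro x hx
        by_cases hx0 : x = 0
        · rw [hx0]
          exact Submodule.zero_mem _
        obtain ⟨h1, h2, h3⟩ := he ⟨X.d x % X.d T, Nat.mod_lt _ hT⟩ x hx0 rfl
        obtain ⟨z, hz⟩ : ∃ z, z = e ⟨X.d x % X.d T, Nat.mod_lt _ hT⟩ := ⟨_, rfl⟩
        rw [← hz] at h1 h2 h3
        have h2' : X.d z % X.d T = X.d x % X.d T := h2
        obtain ⟨j, hj⟩ : ∃ j, X.d x = X.d z + X.d T * j := by
          obtain ⟨j, hj⟩ := (Nat.modEq_iff_dvd' h3).1 h2'
          exact ⟨j, by omega⟩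
        have hTj : X.lc (T ^ j) ≠ 0 := by
          rw [MFin_lc_pow]
          exact pow_ne_zero _ (X.lc_ne T hT0)
        have hlz := X.lc_ne z h1
        have hc0 : X.lc x / (X.lc (T ^ j) * X.lc z) ≠ 0 :=
          div_ne_zero (X.lc_ne x hx0) (mul_ne_zero hTj hlz)
        obtain ⟨c, hc⟩ : ∃ c, c = X.lc x / (X.lc (T ^ j) * X.lc z) := ⟨_, rfl⟩
        rw [← hc] at hc0
        obtain ⟨y, hy⟩ : ∃ y, y = algebraMap k A c * T ^ j * z := ⟨_, rfl⟩
        have hylc : X.lc y = X.lc x := by
          rw [hy, X.lc_mul, X.lc_mul, X.lc_alg, hc]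
          field_simp
        have hy0 : y ≠ 0 := MFin_ne X (by rw [hylc]; exact X.lc_ne x hx0)
        have hyd : X.d x = X.d y := by
          rw [hy, X.d_mul _ _ (mul_ne_zero (MFin_alg X hc0) (MFin_ne X hTj)) h1,
            X.d_mul _ _ (MFin_alg X hc0) (MFin_ne X hTj), X.d_alg, MFin_d_pow X hT0, hj]
          ring
        have hyS : y ∈ Submodule.span k[X] ((Finset.univ.image e : Finset A) : Set A) := by
          have h4 : y = (C c * Polynomial.X ^ j : k[X]) • z := by
            rw [hsm, map_mul, aeval_C, map_pow, aeval_X, hy]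
          rw [h4]
          refine Submodule.smul_mem _ _ (Submodule.subset_span ?_)
          rw [Finset.mem_coe, Finset.mem_image]
          exact ⟨_, Finset.mem_univ _, hz.symm⟩
        by_cases hxy : x = y
        · rw [hxy]
          exact hyS
        · have h5 := X.sub_lt x y hx0 hy0 hxy hyd hylc.symm
          have h6 := ih (X.d (x - y)) (by omega) (x - y) rfl
          have h7 := Submodule.add_mem _ h6 hyS
          rwa [sub_add_cancel] at h7
    exact key _ x rfl

end Pool.Agent.AB3
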