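import Pool.Agent.Lib.MP_5de024_nt.S.DivX.MOne
import Pool.Agent.Lib.MP_5de024_nt.S.DivX.MFin
import Pool.Agent.Lib.MP_5de024_nt.S.DivX.GalIC

/-!
# DIV, step M: the ring is a Dedekind domain
-/

set_option autoImplicit false
set_option linter.unusedSectionVars false

namespace Pool.Agent.AB3

variable {k R E : Type} [Field k] [CommRing R] [Algebra k R] [Field E] [Algebra R E]

private theorem mded_pow_mem (P : Pl k R E) (m n : ℕ) (z : E) (h : P.π ^ m * z ∈ P.O) :
    P.π ^ (m + n) * z ∈ P.O := by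
  have h1 : P.π ^ (m + n) * z = P.π ^ n * (P.π ^ m * z) := by rw [pow_add]; ring
  rw [h1]
  exact P.O.mul_mem (P.O.pow_mem P.mem n) h

private theorem mded_common (P : Pl k R E) (a : ℕ → E) (h : ∀ i, ∃ n, P.π ^ n * a i ∈ P.O)
    (N : ℕ) : ∃ n, ∀ i < N, P.π ^ n * a i ∈ P.O := by
  induction N with
  | zero => exact ⟨0, fun i hi => absurd hi (Nat.not_lt_zero i)⟩
  | succ N ih =>
    obtain ⟨n, hn⟩ := ih
    obtain ⟨m, hm⟩ := h N
    refine ⟨n + m, fun i hi => ?_⟩
    rcases Nat.lt_succ_iff_lt_or_eq.1 hi with h1 | h1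
    · exact mded_pow_mem P n m _ (hn i h1)
    · rw [h1, Nat.add_comm]
      exact mded_pow_mem P m n _ hm

/-- a root of a monic polynomial whose coefficients have no pole after multiplication by
`π ^ n` lies in the ring at infinity after multiplication by `π ^ n` -/
private theorem mded_root (P : Pl k R E) (q : Polynomial E) (hq : q.Monic) (z : E)
    (hz : q.eval z = 0) (n : ℕ) (hn : ∀ i < q.natDegree, P.π ^ n * q.coeff i ∈ P.O) :
    P.π ^ n * z ∈ P.O := by
  have hmon : (q.scaleRoots (P.π ^ n)).Monic := (Polynomial.monic_scaleRoots_iff _).2 hq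
  have hco : ∀ i, (q.scaleRoots (P.π ^ n)).coeff i ∈ P.O := by
    intro i
    rw [Polynomial.coeff_scaleRoots]
    rcases Nat.lt_trichotomy i q.natDegree with h1 | h1 | h1
    · obtain ⟨j, hj⟩ := Nat.exists_eq_add_of_lt h1
      have h2 : q.natDegree - i = j + 1 := by omega
      have h3 : q.coeff i * (P.π ^ n) ^ (j + 1) =
          (P.π ^ n * q.coeff i) * (P.π ^ n) ^ j := by
        rw [pow_succ]; ring
      rw [h2, h3]
      exact P.O.mul_mem (hn i h1) (P.O.pow_mem (P.O.pow_mem P.mem n) j)
    · have h2 : q.coeff i = 1 := by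
        rw [h1]; exact hq
      have h3 : q.natDegree - i = 0 := by omega
      rw [h2, h3, pow_zero, mul_one]
      exact P.O.one_mem
    · rw [Polynomial.coeff_eq_zero_of_natDegree_lt h1, zero_mul]
      exact P.O.zero_mem
  have hsub : (↑(q.scaleRoots (P.π ^ n)).coeffs : Set E) ⊆ P.O := by
    intro y hy
    obtain ⟨i, hi⟩ := Polynomial.mem_coeffs_iff.1 (Finset.mem_coe.1 hy)
    rw [hi.2]
    exact hco i
  refine P.icl _ ⟨(q.scaleRoots (P.π ^ n)).toSubring P.O hsub, ?_, ?_⟩
  · exact (Polynomial.monic_toSubring _ _ hsub).2 hmon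
  · have h1 : Polynomial.eval₂ (RingHom.id E) (RingHom.id E (P.π ^ n) * z)
        (q.scaleRoots (P.π ^ n)) = 0 := by
      apply Polynomial.scaleRoots_eval₂_eq_zero
      rw [Polynomial.eval₂_id]
      exact hz
    rw [Polynomial.eval₂_id] at h1
    have h2 := Polynomial.map_toSubring (q.scaleRoots (P.π ^ n)) P.O hsub
    rw [← Polynomial.eval_map]
    have h3 : (algebraMap (↥P.O) E) = P.O.subtype := rfl
    rw [h3, h2]
    exact h1

theorem pl_icl [IsDomain R] [IsIntegrallyClosed R] [IsFractionRing R E] (P : Pl k R E) :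
    IsIntegrallyClosed P.R1 := by
  have hinj : Function.Injective (algebraMap R E) := IsFractionRing.injective R E
  rw [isIntegrallyClosed_iff (FractionRing P.R1)]
  intro t ht
  let g : P.R1 →+* R := P.R1.val.toRingHom
  let f : P.R1 →+* E := (algebraMap R E).comp g
  have hf : Function.Injective f := hinj.comp Subtype.val_injective
  let F : FractionRing P.R1 →+* E := IsFractionRing.lift (K := FractionRing P.R1) hf
  have hF : ∀ x, F (algebraMap _ _ x) = f x := fun x => IsFractionRing.lift_algebraMap hf x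
  have hFc : F.comp (algebraMap P.R1 (FractionRing P.R1)) = f := RingHom.ext hF
  obtain ⟨p, hpm, hp⟩ := ht
  have h1 : Polynomial.eval₂ f (F t) p = 0 := by
    have h0 := congrArg F hp
    rw [Polynomial.hom_eval₂, map_zero, hFc] at h0
    exact h0
  have h2 : IsIntegral R (F t) := by
    refine ⟨p.map g, hpm.map _, ?_⟩
    rw [Polynomial.eval₂_map]
    exact h1
  obtain ⟨x, hx⟩ := (isIntegrallyClosed_iff E).1 (inferInstance : IsIntegrallyClosed R) h2
  obtain ⟨n, hn⟩ := mded_common P (fun i => (p.map f).coeff i) (fun i => by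
    rw [Polynomial.coeff_map]
    exact (p.coeff i).2) (p.map f).natDegree
  have h3 : P.π ^ n * F t ∈ P.O := by
    refine mded_root P (p.map f) (hpm.map f) (F t) ?_ n hn
    rw [Polynomial.eval_map]
    exact h1
  have hx1 : x ∈ P.R1 := ⟨n, by rw [hx]; exact h3⟩
  refine ⟨⟨x, hx1⟩, ?_⟩
  apply F.injective
  rw [hF]
  exact hx

theorem pl_dedekind [Finite k] [IsDomain R] [IsIntegrallyClosed R] [IsFractionRing R E]
    (P : Pl k R E) : IsDedekindDomain P.R1 := by
  have hinj : Function.Injective (algebraMap R E) := IsFractionRing.injective R E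
  obtain ⟨X⟩ := pl_one hinj P
  obtain ⟨T, _, hfin⟩ := one_finite k P.R1 X
  have hic : IsIntegrallyClosed P.R1 := pl_icl P
  let _ : Algebra (Polynomial k) P.R1 :=
    ((Polynomial.aeval T : Polynomial k →ₐ[k] P.R1) : Polynomial k →+* P.R1).toAlgebra
  have : Module.Finite (Polynomial k) P.R1 := hfin
  exact dedekind_of_finite (A := Polynomial k)

end Pool.Agent.AB3
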