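import Pool.Agent.Lib.MP_5de024_nt.S.DivX.MApp

/-!
# DIV, step M: ideals
-/

set_option autoImplicit false
set_option linter.unusedSectionVars false

namespace Pool.Agent.AB3

variable {k R E : Type} [Field k] [CommRing R] [Algebra k R] [Field E] [Algebra R E]

/-- every ideal of `R` is generated by elements whose only pole is `π` (`u` is an element of the
ring at infinity some power of which kills the poles of a given element of `R`) -/
theorem pl_ideal (hinj : Function.Injective (algebraMap R E)) (P : Pl k R E)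
    (hinf : Infinite P.R1) (u : E) (hu0 : u ≠ 0) (hu : u ∈ P.O)
    (hpow : ∀ x : R, ∃ n : ℕ, algebraMap R E x * u ^ n ∈ P.O)
    (hnf : ¬ IsField R) (I : Ideal R) :
    (I.comap (P.R1.val : P.R1 →+* R)).map (P.R1.val : P.R1 →+* R) = I := by
  have hdom : IsDomain R := hinj.isDomain (algebraMap R E)
  refine le_antisymm Ideal.map_comap_le fun x hx => ?_
  obtain ⟨M, hM⟩ := hpow x
  have key : ∀ (t : R) (y : E) (n : ℕ), P.π ^ n * y ∈ P.O → algebraMap R E t = u ^ M * y →
      t * x ∈ P.R1 := by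
    intro t y n hy ht
    rw [P.mem_R1]
    refine ⟨n, ?_⟩
    rw [map_mul, ht, show P.π ^ n * (u ^ M * y * algebraMap R E x) =
      (algebraMap R E x * u ^ M) * (P.π ^ n * y) by ring]
    exact P.O.mul_mem hM hy
  have hmem : ∀ t : R, t * x ∈ P.R1 →
      t * x ∈ (I.comap (P.R1.val : P.R1 →+* R)).map (P.R1.val : P.R1 →+* R) := by
    intro t ht
    have h1 : (⟨t * x, ht⟩ : P.R1) ∈ I.comap (P.R1.val : P.R1 →+* R) :=
      Ideal.mem_comap.2 (I.mul_mem_left t hx)
    exact Ideal.mem_map_of_mem (P.R1.val : P.R1 →+* R) h1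
  have hg : u ^ M ≠ 0 := pow_ne_zero _ hu0
  obtain ⟨f, hf0, hfu⟩ : ∃ f : R, f ≠ 0 ∧ ¬ IsUnit f := by
    by_contra hcon
    push Not at hcon
    exact hnf ⟨⟨0, 1, zero_ne_one⟩, mul_comm, fun {a} ha => (hcon a ha).exists_right_inv⟩
  obtain ⟨x1, y1, n1, hy1, h1⟩ := pl_app hinj P hinf f hf0 (u ^ M) hg 1
  have hs : algebraMap R E (1 - f * x1) = u ^ M * y1 := by
    rw [map_sub, map_one]
    linear_combination h1
  have hs0 : 1 - f * x1 ≠ 0 := by
    intro h0
    exact hfu (IsUnit.of_mul_eq_one x1 (sub_eq_zero.1 h0).symm)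
  obtain ⟨x2, y2, n2, hy2, h2⟩ := pl_app hinj P hinf (1 - f * x1) hs0 (u ^ M) hg 1
  have ht : algebraMap R E (1 - (1 - f * x1) * x2) = u ^ M * y2 := by
    rw [map_sub, map_one]
    linear_combination h2
  have hx' : x = x2 * ((1 - f * x1) * x) + (1 - (1 - f * x1) * x2) * x := by ring
  rw [hx']
  exact Ideal.add_mem _ (Ideal.mul_mem_left _ _ (hmem _ (key _ y1 n1 hy1 hs)))
    (hmem _ (key _ y2 n2 hy2 ht))

end Pool.Agent.AB3
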