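import Pool.Agent.Lib.MP_5de024_nt.S.EtaX.Apx

/-!
# DIV, step M: `E / (R + r R_∞)` is finite
-/

set_option autoImplicit false
set_option linter.unusedSectionVars false

namespace Pool.Agent.AB3

open Polynomial

/-- the expansion in powers of `u` up to order `M` -/
private theorem mfn_exp {k R E : Type} [Field k] [CommRing R] [Algebra k[X] R] [Field E]
    [Algebra R E] (hinj : Function.Injective (toE k R E)) (M : ℕ) (z : E)
    (hz : z ∈ Oi k R E) : ∃ (c : Fin M → k) (t : E), t ∈ Oi k R E ∧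
      z = (∑ j, toE k R E (Polynomial.C (c j)) * uE k R E ^ (j : ℕ)) + uE k R E ^ M * t := by
  induction M with
  | zero => exact ⟨fun j => j.elim0, z, hz, by simp⟩
  | succ M ih =>
    obtain ⟨c, t, ht, h⟩ := ih
    obtain ⟨a, t', ht', h'⟩ := oi_const hinj t ht
    refine ⟨Fin.snoc c a, t', ht', ?_⟩
    rw [Fin.sum_univ_castSucc]
    simp only [Fin.snoc_castSucc, Fin.snoc_last, Fin.val_castSucc, Fin.val_last]
    rw [h, h']
    ring

theorem ri_fin (k R H E : Type) [Field k] [Finite k] [CommRing R] [Algebra k[X] R] [Group H]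
    [Finite H] [Field E] [Algebra R E] [IsFractionRing R E] (C : Cov k R H) (r : E)
    (hr : r ≠ 0) : ∃ s : Set E, s.Finite ∧ ∀ z : E, ∃ e ∈ s, ∃ x : R, ∃ y ∈ Ri k R E,
      z = e + algebraMap R E x + r * y := by
  classical
  obtain ⟨b⟩ := cov_basis C
  have hinj : Function.Injective (toE k R E) := toE_inj C
  choose d hd using fun i => ri_pow C (algebraMap R E (b i) * r⁻¹)
  have hc : ∀ i, algebraMap R E (b i) * r⁻¹ * uE k R E ^ (∑ i, d i) ∈ Ri k R E := by
    intro i
    have h1 : d i ≤ ∑ i, d i :=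
      Finset.single_le_sum (fun _ _ => Nat.zero_le _) (Finset.mem_univ i)
    obtain ⟨e, he⟩ := Nat.exists_eq_add_of_le h1
    rw [he, pow_add, ← mul_assoc]
    exact (Ri k R E).mul_mem (hd i) ((Ri k R E).pow_mem uE_mem _)
  generalize ∑ i, d i = M at hc
  refine ⟨Set.range (fun c : _ → Fin M → k => ∑ i, (∑ j, toE k R E (Polynomial.C (c i j)) *
    uE k R E ^ (j : ℕ)) * algebraMap R E (b i)), Set.finite_range _, fun z => ?_⟩
  obtain ⟨s, f, hf, hs⟩ := frac_eq C z
  have hfE : toE k R E f ≠ 0 := by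
    intro h0
    exact hf (hinj (by rw [h0, map_zero]))
  have hdiv := apx_div (E := E) b s f
  have hm : ∀ i, toE k R E (b.repr s i % f) / toE k R E f ∈ Oi k R E := by
    intro i
    refine ⟨b.repr s i % f, f, hf, ?_, div_mul_cancel₀ _ hfE⟩
    by_cases h : b.repr s i % f = 0
    · rw [h, natDegree_zero]
      exact Nat.zero_le _
    · exact (natDegree_lt_natDegree h (EuclideanDomain.mod_lt _ hf)).le
  choose c t ht hz using fun i => mfn_exp hinj M _ (hm i)
  refine ⟨_, ⟨c, rfl⟩, ∑ i, (b.repr s i / f) • b i,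
    ∑ i, t i * (algebraMap R E (b i) * r⁻¹ * uE k R E ^ M),
    (Ri k R E).sum_mem fun i _ => (Ri k R E).mul_mem (apx_oi (ht i)) (hc i), ?_⟩
  have h1 : z = algebraMap R E (∑ i, (b.repr s i / f) • b i) +
      ∑ i, toE k R E (b.repr s i % f) / toE k R E f * algebraMap R E (b i) := by
    refine mul_right_cancel₀ hfE ?_
    rw [hs, hdiv, add_mul, Finset.sum_mul]
    refine congrArg _ (Finset.sum_congr rfl fun i _ => ?_)
    field_simp
  have h2 : ∑ i, toE k R E (b.repr s i % f) / toE k R E f * algebraMap R E (b i) =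
      (∑ i, (∑ j, toE k R E (Polynomial.C (c i j)) * uE k R E ^ (j : ℕ)) *
        algebraMap R E (b i)) + r * ∑ i, t i * (algebraMap R E (b i) * r⁻¹ * uE k R E ^ M) := by
    rw [Finset.mul_sum, ← Finset.sum_add_distrib]
    refine Finset.sum_congr rfl fun i _ => ?_
    rw [hz i]
    have h3 : r * r⁻¹ = 1 := mul_inv_cancel₀ hr
    calc ((∑ j, toE k R E (Polynomial.C (c i j)) * uE k R E ^ (j : ℕ)) +
          uE k R E ^ M * t i) * algebraMap R E (b i)
        = (∑ j, toE k R E (Polynomial.C (c i j)) * uE k R E ^ (j : ℕ)) * algebraMap R E (b i) +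
          1 * (t i * (algebraMap R E (b i) * uE k R E ^ M)) := by ring
      _ = _ := by rw [← h3]; ring
  rw [h1, h2]
  ring

end Pool.Agent.AB3
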