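import Pool.Agent.Lib.MP_5de024_nt.S.EtaX.Ds
import Pool.Agent.Lib.MP_5de024_nt.S.EtaX.InfA
import Pool.Agent.Lib.MP_5de024_nt.S.GeoV

/-!
# DIV, step M: the Frobenius over a finite field of constants
-/

set_option autoImplicit false
set_option linter.unusedSectionVars false

namespace Pool.Agent.AB3

open Polynomial

/-- the fixed points of the Frobenius -/
theorem mFr_fix {F K : Type} [Field F] [Fintype F] [Field K] [Algebra F K] (c : K)
    (hc : c ^ Fintype.card F = c) : ∃ c' : F, algebraMap F K c' = c := by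
  have hs : Splits (X ^ (Fintype.card F) - X : F[X]) := by
    rw [splits_iff_card_roots, FiniteField.roots_X_pow_card_sub_X, ← Finset.card_def,
      Finset.card_univ, FiniteField.X_pow_card_sub_X_natDegree_eq _ Fintype.one_lt_card]
  have h1 := hs.roots_map (algebraMap F K)
  have h0 : (X ^ (Fintype.card F) - X : F[X]).map (algebraMap F K) ≠ 0 := by
    rw [Polynomial.map_ne_zero_iff (algebraMap F K).injective]
    exact FiniteField.X_pow_card_sub_X_ne_zero F Fintype.one_lt_card
  have h2 : c ∈ ((X ^ (Fintype.card F) - X : F[X]).map (algebraMap F K)).roots := by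
    rw [mem_roots h0]
    simp [hc]
  rw [h1, FiniteField.roots_X_pow_card_sub_X, Multiset.mem_map] at h2
  obtain ⟨c', -, h⟩ := h2
  exact ⟨c', h⟩

theorem mFr_evg (k K : Type) [Field k] [Field K] [Algebra k K] (φ : K →+* K)
    (h : ∀ c : k, φ (algebraMap k K c) = algebraMap k K c) (f : k[X]) :
    Polynomial.mapRingHom φ (evg k K X f) = evg k K X f := by
  have h1 : (Polynomial.mapRingHom φ).comp (evg k K X) = evg k K X := by
    ext a
    · simp [evg, h]
    · simp [evg]
  exact RingHom.congr_fun h1 f

theorem mFr_main (k K R H E : Type) [Field k] [Field K] [Algebra k K]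
    [CommRing R] [Algebra k[X] R] [Group H] [Finite H]
    (C : Cov k R H) (F : IntermediateField k K) [Field E]
    [Algebra (Fam k K X R) E] [IsFractionRing (Fam k K X R) E] (φ : K →+* K)
    (h : ∀ c : F, φ (algebraMap F K c) = algebraMap F K c) :
    ∃ σ : E →+* E, (∀ z ∈ Ri K (Fam k K X R) E, σ z ∈ Ri K (Fam k K X R) E) ∧
      (∀ z : Fam k F X R,
        σ (algebraMap (Fam k K X R) E (incF k K R F X X (Polynomial.map_X _) z)) =
          algebraMap (Fam k K X R) E (incF k K R F X X (Polynomial.map_X _) z)) ∧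
      (∀ f : K[X], σ (toE K (Fam k K X R) E f) = toE K (Fam k K X R) E (f.map φ)) := by
  have hk : ∀ c : k, φ (algebraMap k K c) = algebraMap k K c := fun c => h (algebraMap k F c)
  let σ0 : Fam k K X R →+* Fam k K X R :=
    Bs.map (evg k K X) (Polynomial.mapRingHom φ) (evg k K X) (mFr_evg k K φ hk)
  have hi : Function.Injective σ0 := by
    refine bs_map_inj C _ _ _ _ ?_
    rw [Polynomial.coe_mapRingHom]
    exact Polynomial.map_injective _ φ.injective
  have hdS : IsDomain (Fam k K X R) := C.geom K
  let σ : E →+* E := IsFractionRing.map hi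
  have hσ : ∀ z, σ (algebraMap (Fam k K X R) E z) = algebraMap (Fam k K X R) E (σ0 z) := by
    intro z
    exact IsLocalization.map_eq _ z
  have hf : ∀ f : K[X], σ (toE K (Fam k K X R) E f) = toE K (Fam k K X R) E (f.map φ) := by
    intro f
    change σ (algebraMap (Fam k K X R) E (algebraMap K[X] (Fam k K X R) f)) =
      algebraMap (Fam k K X R) E (algebraMap K[X] (Fam k K X R) (f.map φ))
    rw [hσ]
    exact congrArg _ (Bs.map_alg _ _ _ _ _)
  have hO : ∀ z ∈ Oi K (Fam k K X R) E, σ z ∈ Oi K (Fam k K X R) E := by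
    rintro z ⟨f, g, hg, hd, he⟩
    refine ⟨f.map φ, g.map φ, ?_, ?_, ?_⟩
    · exact (Polynomial.map_ne_zero_iff φ.injective).mpr hg
    · rw [natDegree_map, natDegree_map]
      exact hd
    · rw [← hf, ← hf, ← map_mul, he]
  refine ⟨σ, ?_, ?_, hf⟩
  · intro z hz
    rw [mem_Ri] at hz ⊢
    exact IsIntegral.map_of_comp_eq
      ((σ.comp (Oi K (Fam k K X R) E).subtype).codRestrict (Oi K (Fam k K X R) E)
        (fun z => hO (z : E) z.2)) σ rfl hz
  · intro z
    rw [hσ]
    congr 1
    have h2 : σ0.comp (incF k K R F X X (Polynomial.map_X _)) =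
        incF k K R F X X (Polynomial.map_X _) := by
      apply Bs.hom_ext
      · intro a
        rw [RingHom.comp_apply, incF_alg]
        change Bs.map _ _ _ _ _ = _
        rw [Bs.map_alg, Polynomial.coe_mapRingHom, Polynomial.map_map]
        congr 2
        ext c
        exact h c
      · intro r
        rw [RingHom.comp_apply, incF_inR]
        exact Bs.map_inR _ _ _ _ _
    exact RingHom.congr_fun h2 z

theorem mfr (k K R H E : Type) [Field k] [Finite k] [Field K] [IsAlgClosed K] [Algebra k K]
    [Algebra.IsAlgebraic k K] [CommRing R] [Algebra k[X] R] [Group H] [Finite H]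
    (C : Cov k R H) (F : IntermediateField k K) [Finite F] [Field E]
    [Algebra (Fam k K X R) E] [IsFractionRing (Fam k K X R) E] :
    ∃ σ : E →+* E, (∀ z ∈ Ri K (Fam k K X R) E, σ z ∈ Ri K (Fam k K X R) E) ∧
      (∀ z : Fam k F X R,
        σ (algebraMap (Fam k K X R) E (incF k K R F X X (Polynomial.map_X _) z)) =
          algebraMap (Fam k K X R) E (incF k K R F X X (Polynomial.map_X _) z)) ∧
      ∃ q : ℕ, (∀ c : K, σ (toE K (Fam k K X R) E (Polynomial.C c)) =
        toE K (Fam k K X R) E (Polynomial.C (c ^ q))) ∧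
        ∀ c : K, c ^ q = c → ∃ c' : F, algebraMap F K c' = c := by
  have := Fintype.ofFinite F
  obtain ⟨σ, h1, h2, h3⟩ := mFr_main k K R H E C F
    ((FiniteField.frobeniusAlgHom F K : K →ₐ[F] K) : K →+* K)
    (fun c => (FiniteField.frobeniusAlgHom F K).commutes c)
  refine ⟨σ, h1, h2, Fintype.card F, ?_, fun c hc => mFr_fix c hc⟩
  intro c
  rw [h3, Polynomial.map_C]
  rfl

end Pool.Agent.AB3
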