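import Pool.Agent.Lib.MP_5de024_nt.S.EtaX.InfC

/-!
# DIV, step M: a prime element at infinity over an algebraically closed field
-/

set_option autoImplicit false
set_option linter.unusedSectionVars false

namespace Pool.Agent.AB3

open Polynomial

section aux

variable {K S H E : Type} [Field K] [CommRing S] [Algebra K[X] S] [Group H] [Finite H]
  [Field E] [Algebra S E] [IsFractionRing S E]

theorem mK_unit (C : Cov K S H) : ¬ IsUnit (InfCu K S E) := by
  intro h
  obtain ⟨w, hw⟩ := h.exists_right_inv
  have h1 : uE K S E * (w : E) = 1 := congrArg (fun t : Ri K S E => (t : E)) hw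
  have hX : toE K S E X ≠ 0 := infA_X_ne C
  have h2 : (w : E) = toE K S E X := by
    have h3 : (toE K S E X)⁻¹ * (w : E) = 1 := h1
    rw [inv_mul_eq_one₀ hX] at h3
    exact h3.symm
  have hdom : IsDomain S := cov_domain C
  have h4 := ri_zero (E := E) C 1 (by
    rw [mul_one]
    have h5 : algebraMap S E (algebraMap K[X] S X) = (w : E) := h2.symm
    rw [h5]
    exact w.2)
  exact one_ne_zero h4

/-- a nonzero element of `S` without poles at infinity is a unit at infinity -/
theorem mK_zero (C : Cov K S H) (x : S) (hx0 : x ≠ 0) (hx : algebraMap S E x ∈ Ri K S E) :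
    IsUnit (⟨algebraMap S E x, hx⟩ : Ri K S E) := by
  have h1 : InfD K S x 0 := by
    rw [infD_iff (E := E) C, pow_zero, mul_one]
    exact hx
  obtain ⟨P, hP, hd, h0⟩ := h1
  let _ : Algebra K (Ri K S E) := (InfCc K S E).toAlgebra
  have hdS : IsDomain S := cov_domain C
  have hint : IsIntegral K (⟨algebraMap S E x, hx⟩ : Ri K S E) := by
    refine ⟨P.map (Polynomial.evalRingHom 0), hP.map _, ?_⟩
    have h3 : (P.map (Polynomial.evalRingHom 0)).map (Polynomial.C : K →+* K[X]) = P := by
      ext1 i
      rw [Polynomial.coeff_map, Polynomial.coeff_map, Polynomial.coe_evalRingHom]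
      rcases Nat.lt_or_ge P.natDegree i with hi | hi
      · rw [Polynomial.coeff_eq_zero_of_natDegree_lt hi, Polynomial.eval_zero, map_zero]
      · have h4 := hd i hi
        rw [mul_zero] at h4
        have h5 := Polynomial.eq_C_of_natDegree_le_zero h4
        rw [h5, Polynomial.eval_C]
    change Polynomial.eval₂ (InfCc K S E) _ _ = 0
    apply (Ri K S E).subtype_injective
    rw [Polynomial.hom_eval₂, map_zero]
    have h6 : (Ri K S E).subtype.comp (InfCc K S E) = (toE K S E).comp Polynomial.C := rfl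
    rw [h6, ← Polynomial.eval₂_map, h3]
    change Polynomial.eval₂ ((algebraMap S E).comp (algebraMap K[X] S)) (algebraMap S E x) P = 0
    rw [← Polynomial.hom_eval₂, h0, map_zero]
  refine hint.isUnit ?_
  intro h
  apply hx0
  apply IsFractionRing.injective S E
  rw [map_zero]
  exact congrArg (fun t : Ri K S E => (t : E)) h

end aux

theorem mk_prime (K S H E : Type) [Field K] [IsAlgClosed K] [CommRing S] [Algebra K[X] S]
    [Group H] [Finite H] [Field E] [Algebra S E] [IsFractionRing S E] (C : Cov K S H) :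
    ∃ π : E, π ≠ 0 ∧ π ∈ Ri K S E ∧ π⁻¹ ∉ Ri K S E ∧
      (∀ x : S, ∀ y ∈ Ri K S E, algebraMap S E x = π * y → x = 0) ∧
      ∀ z ∈ Ri K S E, ∃ c : K, ∃ y ∈ Ri K S E, z = toE K S E (Polynomial.C c) + π * y := by
  have hpid : IsPrincipalIdealRing (Ri K S E) := ri_pid C
  have hu0 : InfCu K S E ≠ 0 := by
    intro h
    exact infA_u_ne (E := E) C (congrArg (fun t : Ri K S E => (t : E)) h)
  obtain ⟨ϖ, hirr, hdvd⟩ := WfDvdMonoid.exists_irreducible_factor (mK_unit (E := E) C) hu0
  have hprime : Prime ϖ := hirr.prime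
  have hnu : ∀ y : Ri K S E, (ϖ : E) * (y : E) = 1 → False := by
    intro y hy
    exact hirr.not_isUnit (IsUnit.of_mul_eq_one y (Subtype.ext hy))
  refine ⟨(ϖ : E), ?_, ϖ.2, ?_, ?_, ?_⟩
  · intro h
    exact hprime.ne_zero (Subtype.ext h)
  · intro h
    refine hnu ⟨_, h⟩ (mul_inv_cancel₀ ?_)
    intro h1
    exact hprime.ne_zero (Subtype.ext h1)
  · intro x y hy hxy
    by_contra hx0
    have hx : algebraMap S E x ∈ Ri K S E := by
      rw [hxy]
      exact (Ri K S E).mul_mem ϖ.2 hy
    obtain ⟨w, hw⟩ := (mK_zero C x hx0 hx).exists_right_inv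
    have h1 : algebraMap S E x * (w : E) = 1 := congrArg (fun t : Ri K S E => (t : E)) hw
    refine hnu (⟨y, hy⟩ * w) ?_
    change (ϖ : E) * (y * (w : E)) = 1
    rw [← mul_assoc, ← hxy, h1]
  · intro z hz
    let B := Ri K S E ⧸ Ideal.span {ϖ}
    have hle : Ideal.span {InfCu K S E} ≤ Ideal.span {ϖ} := by
      rw [Ideal.span_singleton_le_span_singleton]
      exact hdvd
    let π : InfCB K S E →+* B := Ideal.Quotient.factor hle
    have hpr : (Ideal.span {ϖ} : Ideal (Ri K S E)).IsPrime := by
      rw [Ideal.span_singleton_prime hprime.ne_zero]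
      exact hprime
    have hB : IsDomain B := Ideal.Quotient.isDomain _
    let _ : Algebra K (InfCB K S E) := (InfCh K S E).toAlgebra
    let _ : Algebra K B := (π.comp (InfCh K S E)).toAlgebra
    have hfin0 : Module.Finite K (InfCB K S E) := InfC_fin C
    have hfin : Module.Finite K B := by
      let f : InfCB K S E →ₐ[K] B := { π with commutes' := fun _ => rfl }
      exact Module.Finite.of_surjective f.toLinearMap (Ideal.Quotient.factor_surjective hle)
    have hsur := (IsAlgClosed.algebraMap_bijective_of_isIntegral (k := K) (K := B)).2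
    obtain ⟨c, hc⟩ := hsur (Ideal.Quotient.mk _ ⟨z, hz⟩)
    have h2 : Ideal.Quotient.mk (Ideal.span {ϖ}) (InfCc K S E c) =
        Ideal.Quotient.mk (Ideal.span {ϖ}) ⟨z, hz⟩ := hc
    rw [eq_comm, Ideal.Quotient.eq, Ideal.mem_span_singleton'] at h2
    obtain ⟨y, hy⟩ := h2
    refine ⟨c, (y : E), y.2, ?_⟩
    have h3 : (y : E) * (ϖ : E) = z - toE K S E (Polynomial.C c) :=
      congrArg (fun t : Ri K S E => (t : E)) hy
    linear_combination -h3

end Pool.Agent.AB3
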