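import Pool.Agent.Lib.MP_5de024_nt.S.DivX.MDef
import Pool.Agent.Lib.MP_5de024_nt.S.DivX.MK
import Pool.Agent.Lib.MP_5de024_nt.S.DivX.MFr
import Pool.Agent.Lib.MP_5de024_nt.S.DivX.MFn

/-!
# DIV, step M: existence of a place of degree one
-/

set_option autoImplicit false
set_option linter.unusedSectionVars false

namespace Pool.Agent.AB3

open Polynomial

section map

variable {F K S' S E' E : Type} [Field F] [Field K] [CommRing S'] [Algebra F[X] S'] [Field E']
  [Algebra S' E'] [CommRing S] [Algebra K[X] S] [Field E] [Algebra S E] (a : F →+* K)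
  (j : E' →+* E) (hj : ∀ f, j (toE F S' E' f) = toE K S E (f.map a))

include hj

theorem mPl_oi (z : E') (hz : z ∈ Oi F S' E') : j z ∈ Oi K S E := by
  obtain ⟨f, g, hg, hd, he⟩ := hz
  refine ⟨f.map a, g.map a, ?_, ?_, ?_⟩
  · exact (Polynomial.map_ne_zero_iff a.injective).mpr hg
  · rw [natDegree_map, natDegree_map]
    exact hd
  · rw [← hj, ← hj, ← map_mul, he]

theorem mPl_ri (z : E') (hz : z ∈ Ri F S' E') : j z ∈ Ri K S E := by
  rw [mem_Ri] at hz ⊢
  exact IsIntegral.map_of_comp_eq
    ((j.comp (Oi F S' E').subtype).codRestrict (Oi K S E)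
      (fun z => mPl_oi a j hj (z : E') z.2)) j rfl hz

end map

/-- the ring at infinity is integrally closed -/
theorem mPl_icl {K S E : Type} [Field K] [CommRing S] [Algebra K[X] S] [Field E] [Algebra S E]
    (z : E) (hz : IsIntegral (Ri K S E) z) : z ∈ Ri K S E := by
  rw [mem_Ri]
  have h1 : IsIntegral (integralClosure (Oi K S E) E) z := hz
  exact isIntegral_trans (R := Oi K S E) (A := integralClosure (Oi K S E) E) z h1

/-- the pullback of an integrally closed subring is integrally closed -/
theorem mPl_comap {E' E : Type} [Field E'] [Field E] (j : E' →+* E) (O : Subring E)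
    (hO : ∀ z : E, IsIntegral O z → z ∈ O) (z : E') (hz : IsIntegral (O.comap j) z) :
    z ∈ O.comap j := by
  rw [Subring.mem_comap]
  apply hO
  exact IsIntegral.map_of_comp_eq
    ((j.comp (O.comap j).subtype).codRestrict O (fun z => z.2)) j rfl hz

/-- after a finite extension of constants there is a place at infinity of degree one -/
theorem exists_pl (k R H : Type) [Field k] [Finite k] [CommRing R] [Algebra k[X] R] [Group H]
    [Finite H] (C : Cov k R H) :
    ∃ (F : Type) (_ : Field F) (_ : Finite F) (_ : Algebra k F) (_ : Cov F (Fam k F X R) H)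
      (_ : Algebra F (Fam k F X R)) (_ : IsScalarTower F F[X] (Fam k F X R)) (E : Type)
      (_ : Field E) (_ : Algebra (Fam k F X R) E) (_ : IsFractionRing (Fam k F X R) E)
      (P : Pl F (Fam k F X R) E) (u : E), u ≠ 0 ∧ u ∈ P.O ∧
        ∀ x : Fam k F X R, ∃ n : ℕ, algebraMap (Fam k F X R) E x * u ^ n ∈ P.O := by
  classical
  let K := AlgebraicClosure k
  have hdS : IsDomain (Fam k K X R) := C.geom K
  obtain ⟨CK, -⟩ := cov_bc k R H C K X (by
    intro F' _ _ _ _
    rw [Polynomial.map_X]
    exact C.geom F')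
  let EK := FractionRing (Fam k K X R)
  obtain ⟨π, hπ0, hπm, hπi, hπz, hπr⟩ := mk_prime K (Fam k K X R) H EK CK
  obtain ⟨s, f, hf, hsf⟩ := frac_eq CK π
  obtain ⟨F1, hF1, h1⟩ := ds_elt C X (fun F => X) (fun F => Polynomial.map_X _) s
  obtain ⟨F2, hF2, h2⟩ := ds_poly (k := k) f
  have hF : Finite (F1 ⊔ F2 : IntermediateField k K) := ds_sup F1 F2
  generalize hFF : F1 ⊔ F2 = F at hF
  obtain ⟨s', hs'⟩ := h1 F (hFF ▸ le_sup_left)
  obtain ⟨f', hf'⟩ := h2 F (hFF ▸ le_sup_right)
  obtain ⟨C', -⟩ := cov_bc k R H C F X (by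
    intro F' _ _ _ _
    rw [Polynomial.map_X]
    exact C.geom F')
  have hd' : IsDomain (Fam k F X R) := cov_domain C'
  let E' := FractionRing (Fam k F X R)
  let i : Fam k F X R →+* Fam k K X R := incF k K R F X X (Polynomial.map_X _)
  have hi : Function.Injective i := incF_inj C F X X (Polynomial.map_X _)
  let j : E' →+* EK := IsFractionRing.map hi
  have hji : ∀ z, j (algebraMap (Fam k F X R) E' z) = algebraMap (Fam k K X R) EK (i z) := by
    intro z
    exact IsLocalization.map_eq _ z
  have hj : ∀ g : F[X], j (toE F (Fam k F X R) E' g) =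
      toE K (Fam k K X R) EK (g.map (algebraMap F K)) := by
    intro g
    change j (algebraMap (Fam k F X R) E' (algebraMap F[X] (Fam k F X R) g)) =
      algebraMap (Fam k K X R) EK (algebraMap K[X] (Fam k K X R) (g.map (algebraMap F K)))
    rw [hji]
    exact congrArg _ (incF_alg F X X (Polynomial.map_X _) g)
  have hf'0 : f' ≠ 0 := by
    rintro rfl
    rw [Polynomial.map_zero] at hf'
    exact hf hf'.symm
  have hfE : toE K (Fam k K X R) EK f ≠ 0 := by
    intro h
    exact hf (toE_inj (E := EK) CK (by rw [h, map_zero]))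
  obtain ⟨ϖ, hϖ⟩ : ∃ ϖ : E', j ϖ = π := by
    refine ⟨algebraMap (Fam k F X R) E' s' / toE F (Fam k F X R) E' f', ?_⟩
    rw [map_div₀, hji, hj, hf', div_eq_iff hfE, hsf]
    exact congrArg _ hs'
  obtain ⟨σ, hσR, hσi, q, hσc, hq⟩ := mfr k K R H EK C F
  have hσj : ∀ z : E', σ (j z) = j z := by
    intro z
    obtain ⟨a, b, hb, rfl⟩ := IsFractionRing.div_surjective (A := Fam k F X R) z
    rw [map_div₀, hji, hji, map_div₀]
    exact congrArg₂ _ (hσi a) (hσi b)
  let alg : Algebra F (Fam k F X R) :=
    ((algebraMap F[X] (Fam k F X R)).comp Polynomial.C).toAlgebra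
  have hcst : ∀ c : F, j (algebraMap (Fam k F X R) E' (algebraMap F (Fam k F X R) c)) =
      toE K (Fam k K X R) EK (Polynomial.C (algebraMap F K c)) := by
    intro c
    have h3 := hj (Polynomial.C c)
    rw [Polynomial.map_C] at h3
    exact h3
  have hRi : ∀ z ∈ Ri F (Fam k F X R) E', j z ∈ Ri K (Fam k K X R) EK :=
    fun z hz => mPl_ri (algebraMap F K) j hj z hz
  let P : Pl F (Fam k F X R) E' :=
    { O := (Ri K (Fam k K X R) EK).comap j
      π := ϖ
      ne := by
        rintro h
        rw [h, map_zero] at hϖ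
        exact hπ0 hϖ.symm
      mem := by
        rw [Subring.mem_comap, hϖ]
        exact hπm
      inv := by
        rw [Subring.mem_comap, map_inv₀, hϖ]
        exact hπi
      con := by
        intro c
        rw [Subring.mem_comap, hcst]
        exact const_mem _
      res := by
        intro z hz
        rw [Subring.mem_comap] at hz
        obtain ⟨c, y, hy, hzc⟩ := hπr _ hz
        have h3 := congrArg σ hzc
        rw [map_add, map_mul, hσj, hσc, ← hϖ, hσj, hϖ, hzc] at h3
        have h4 : toE K (Fam k K X R) EK (Polynomial.C (c ^ q - c)) = π * (y - σ y) := by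
          rw [Polynomial.C_sub, map_sub]
          linear_combination h3.symm
        have h5 : c ^ q - c = 0 := by
          by_contra hne
          have h6 : toE K (Fam k K X R) EK (Polynomial.C (c ^ q - c)⁻¹) *
              toE K (Fam k K X R) EK (Polynomial.C (c ^ q - c)) = 1 := by
            rw [← map_mul, ← Polynomial.C_mul, inv_mul_cancel₀ hne, Polynomial.C_1, map_one]
          apply hπi
          have h7 : π⁻¹ = toE K (Fam k K X R) EK (Polynomial.C (c ^ q - c)⁻¹) * (y - σ y) := by
            rw [h4] at h6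
            refine inv_eq_of_mul_eq_one_right ?_
            linear_combination h6
          rw [h7]
          exact (Ri K (Fam k K X R) EK).mul_mem (const_mem _)
            ((Ri K (Fam k K X R) EK).sub_mem hy (hσR _ hy))
        obtain ⟨c', hc'⟩ := hq c (sub_eq_zero.mp h5)
        refine ⟨c', (z - algebraMap (Fam k F X R) E' (algebraMap F (Fam k F X R) c')) / ϖ,
          ?_, ?_⟩
        · rw [Subring.mem_comap, map_div₀, map_sub, hcst, hϖ, hc', hzc, add_sub_cancel_left,
            mul_div_cancel_left₀ _ hπ0]
          exact hy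
        · have h8 : ϖ ≠ 0 := by
            rintro h
            rw [h, map_zero] at hϖ
            exact hπ0 hϖ.symm
          rw [mul_div_cancel₀ _ h8]
          ring
      zero := by
        intro x y hy h
        rw [Subring.mem_comap] at hy
        have h3 := congrArg j h
        rw [hji, map_mul, hϖ] at h3
        have h4 := hπz (i x) (j y) hy h3
        exact hi (by rw [h4, map_zero])
      icl := fun z hz => mPl_comap j _ mPl_icl z hz
      fin := by
        intro r hr
        obtain ⟨t, ht, h3⟩ := ri_fin F (Fam k F X R) H E' C' r hr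
        refine ⟨t, ht, fun z => ?_⟩
        obtain ⟨e, he, x, y, hy, hz⟩ := h3 z
        exact ⟨e, he, x, y, hRi y hy, hz⟩ }
  refine ⟨F, inferInstance, hF, inferInstance, C', alg, IsScalarTower.of_algebraMap_eq fun _ => rfl,
    E', inferInstance, inferInstance, inferInstance, P, uE F (Fam k F X R) E', ?_, ?_, ?_⟩
  · exact infA_u_ne C'
  · exact hRi _ uE_mem
  · intro x
    obtain ⟨d, hd⟩ := ri_pow C' (algebraMap (Fam k F X R) E' x)
    exact ⟨d, hRi _ hd⟩

end Pool.Agent.AB3
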