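import Pool.Agent.Lib.MP_5de024_nt.S.GeoM

/-!
# DIV, step M: extension of constants of a subalgebra
-/

set_option autoImplicit false
set_option linter.unusedSectionVars false

namespace Pool.Agent.AB3

open Polynomial TensorProduct

theorem MT_evg (k F : Type) [Field k] [Field F] [Algebra k F] (f : k[X]) :
    evg k F X f = f.map (algebraMap k F) := by
  have h : evg k F X = Polynomial.mapRingHom (algebraMap k F) := by
    apply Polynomial.ringHom_ext
    · intro a
      unfold evg
      rw [coe_eval₂RingHom, eval₂_C, RingHom.comp_apply, coe_mapRingHom, map_C]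
    · unfold evg
      rw [coe_eval₂RingHom, eval₂_X, coe_mapRingHom, map_X]
  exact RingHom.congr_fun h f

theorem tens_fam (k R H : Type) [Field k] [CommRing R] [Algebra k[X] R] [Algebra k R]
    [IsScalarTower k k[X] R] [Group H] [Finite H] (C : Cov k R H) (A : Subalgebra k R)
    (F : Type) [Field F] [Algebra k F] :
    ∃ Φ : F ⊗[k] A →+* Fam k F X R, Function.Injective Φ ∧
      ∀ a : A, Φ (1 ⊗ₜ[k] a) = Bs.inR (evg k F X) R (a : R) := by
  classical
  obtain ⟨e⟩ := cov_basis C
  let α : F →+* Fam k F X R := (algebraMap F[X] (Fam k F X R)).comp Polynomial.C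
  let β : A →+* Fam k F X R := (Bs.inR (evg k F X) R).comp (A.val : A →+* R)
  have hαβ : ∀ c : k, β (algebraMap k A c) = α (algebraMap k F c) := by
    intro c
    change Bs.inR (evg k F X) R (algebraMap k R c) =
      algebraMap F[X] (Fam k F X R) (Polynomial.C (algebraMap k F c))
    rw [IsScalarTower.algebraMap_apply k k[X] R, Bs.inR_alg, MT_evg, Polynomial.algebraMap_apply,
      Algebra.algebraMap_self, RingHom.id_apply, map_C]
  let _ : Algebra k (Fam k F X R) := (α.comp (algebraMap k F)).toAlgebra
  let α' : F →ₐ[k] Fam k F X R := { α with commutes' := fun c => rfl }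
  let β' : A →ₐ[k] Fam k F X R := { β with commutes' := fun c => hαβ c }
  have hΦ : ∀ (f : F) (a : A), Algebra.TensorProduct.productMap α' β' (f ⊗ₜ[k] a) =
      algebraMap F[X] (Fam k F X R) (Polynomial.C f) * Bs.inR (evg k F X) R (a : R) :=
    fun f a => Algebra.TensorProduct.productMap_apply_tmul α' β' f a
  refine ⟨(Algebra.TensorProduct.productMap α' β').toRingHom, ?_, ?_⟩
  · rw [injective_iff_map_eq_zero]
    intro z hz
    change Algebra.TensorProduct.productMap α' β' z = 0 at hz
    obtain ⟨c, rfl⟩ := TensorProduct.eq_repr_basis_left (Module.Basis.ofVectorSpace k F) z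
    have hc : ∀ j, c j = 0 := by
      intro j
      apply Subtype.ext
      change ((c j : A) : R) = 0
      apply e.repr.map_eq_zero_iff.mp
      ext1 i
      ext l
      rw [Finsupp.zero_apply, coeff_zero]
      have h1 := congrArg (fun w => ((Bs.basis (evg k F X) e).repr w i).coeff l) hz
      simp only [Finsupp.sum, map_sum, hΦ, ← Algebra.smul_def, map_smul, Finsupp.smul_apply,
        Finsupp.finsetSum_apply, Bs.repr_inR, MT_evg, smul_eq_mul, finsetSum_coeff, coeff_C_mul,
        coeff_map, map_zero, Finsupp.zero_apply, coeff_zero] at h1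
      by_cases hj : j ∈ c.support
      · have h2 := (linearIndependent_iff'.1
          (Module.Basis.ofVectorSpace k F).linearIndependent) c.support
          (fun j => (e.repr ((c j : A) : R) i).coeff l) (by
            rw [← h1]
            refine Finset.sum_congr rfl fun j _ => ?_
            rw [Algebra.smul_def, mul_comm])
        exact h2 j hj
      · rw [Finsupp.notMem_support_iff.1 hj, ZeroMemClass.coe_zero, map_zero, Finsupp.zero_apply,
          coeff_zero]
    have hc0 : c = 0 := Finsupp.ext hc
    rw [hc0, Finsupp.sum_zero_index]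
  · intro a
    change Algebra.TensorProduct.productMap α' β' (1 ⊗ₜ[k] a) = _
    rw [hΦ, map_one, map_one, one_mul]

end Pool.Agent.AB3
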