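import Pool.Agent.Lib.MP_5de024_nt.S.DivX.MOne
import Pool.Agent.Lib.MP_5de024_nt.S.DivX.MFin
import Pool.Agent.Lib.MP_5de024_nt.S.DivX.MDed
import Pool.Agent.Lib.MP_5de024_nt.S.DivX.MId
import Pool.Agent.Lib.MP_5de024_nt.S.DivX.MPl
import Pool.Agent.Lib.MP_5de024_nt.S.DivX.MT
import Pool.Agent.Lib.MP_5de024_nt.S.GeoV
import Pool.Agent.Lib.MP_5de024_nt.S.GeoB

/-!
# DIV, step M: the assembly
-/

set_option autoImplicit false
set_option linter.unusedSectionVars false

namespace Pool.Agent.AB3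

open Pool.Agent.AB Polynomial TensorProduct

/-- transitivity of base change, with a named composition -/
theorem masm_trans {k R A F : Type} [Field k] [CommRing R] [Algebra k[X] R] [CommRing A]
    [Field F] (φ : k[X] →+* F[X]) (ψ : F[X] →+* A) (χ : k[X] →+* A)
    (h : ∀ f, ψ (φ f) = χ f) :
    ∃ e : Bs ψ (Bs φ R) ≃+* Bs χ R, ∀ z : Bs φ R,
      e (Bs.inR ψ (Bs φ R) z) = Bs.map φ ψ χ h z := by
  obtain rfl : ψ.comp φ = χ := RingHom.ext h
  obtain ⟨e, -, he⟩ := bs_trans (R := R) φ ψ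
  exact ⟨e, he⟩

/-- the statement of step D1 -/
def D1Stmt : Prop := ∀ (k R : Type) [Field k] [Finite k] [CommRing R] [IsDedekindDomain R]
    [Algebra k R] [Algebra k[X] R] [IsScalarTower k k[X] R] [Module.Finite k[X] R]
    (_ : Function.Injective (algebraMap k[X] R)) (_ : OneInf k R) (I : Ideal R) (_ : I ≠ ⊥)
    (n : ℕ) (_ : (n : k) ≠ 0),
    ∃ (F : Type) (_ : Field F) (_ : Finite F) (_ : Algebra k F) (A : Ideal (F ⊗[k] R))
      (a : F ⊗[k] R), a ≠ 0 ∧
      I.map (Algebra.TensorProduct.includeRight : R →ₐ[k] F ⊗[k] R) * A ^ n = Ideal.span {a}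

theorem div_asm (hd1 : D1Stmt) (k R H : Type) [Field k] [Finite k] [CommRing R]
    [Algebra k[X] R] [Group H] [Finite H] (C : Cov k R H) (I : Ideal R) (hI : I ≠ ⊥) (n : ℕ)
    (hn : (n : k) ≠ 0) :
    ∃ (F : Type) (_ : Field F) (_ : Finite F) (_ : Algebra k F) (A : Ideal (Fam k F X R))
      (a : Fam k F X R), a ≠ 0 ∧
      (I.map (Bs.inR (evg k F X) R)) * A ^ n = Ideal.span {a} := by
  obtain ⟨k', _, _, _, C', _, _, E, _, _, _, P, u, hu0, hu, hpow⟩ := exists_pl k R H C
  have hdom : IsDomain (Fam k k' X R) := cov_domain C'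
  have hded : IsDedekindDomain (Fam k k' X R) := cov_dedekind C'
  have hinj : Function.Injective (algebraMap (Fam k k' X R) E) := IsFractionRing.injective _ _
  obtain ⟨X1⟩ := pl_one hinj P
  have hinf := one_infinite k' P.R1 X1
  obtain ⟨T, hTinj, hTfin⟩ := one_finite k' P.R1 X1
  have hd : IsDedekindDomain P.R1 := pl_dedekind P
  let alg : Algebra k'[X] P.R1 := (Polynomial.aeval T : k'[X] →ₐ[k'] P.R1).toRingHom.toAlgebra
  have htow : IsScalarTower k' k'[X] P.R1 := IsScalarTower.of_algebraMap_eq fun c =>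
    ((Polynomial.aeval T : k'[X] →ₐ[k'] P.R1).commutes c).symm
  have hfin : Module.Finite k'[X] P.R1 := hTfin
  have hin : Function.Injective (Bs.inR (evg k k' X) R) := by
    refine bs_inR_inj C _ ?_
    intro f g hfg
    have h1 : ∀ f : k[X], evg k k' X f = f.map (algebraMap k k') := by
      intro f
      have h2 : evg k k' X = Polynomial.mapRingHom (algebraMap k k') := by
        refine Polynomial.ringHom_ext ?_ ?_
        · intro a
          simp [evg]
        · simp [evg]
      rw [h2]; rfl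
    rw [h1, h1] at hfg
    exact Polynomial.map_injective _ (algebraMap k k').injective hfg
  have hnf : ¬ IsField (Fam k k' X R) := by
    intro hf
    have h1 : Module.Finite k'[X] (Fam k k' X R) := cov_finite C'
    have h2 : Algebra.IsIntegral k'[X] (Fam k k' X R) := inferInstance
    exact Polynomial.not_isField k' (isField_of_isIntegral_of_isField C'.inj hf)
  have hmap := pl_ideal hinj P hinf u hu0 hu hpow hnf (I.map (Bs.inR (evg k k' X) R))
  set I1 := (I.map (Bs.inR (evg k k' X) R)).comap (P.R1.val : P.R1 →+* Fam k k' X R) with hI1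
  have hI1n : I1 ≠ ⊥ := by
    intro h0
    rw [h0, Ideal.map_bot] at hmap
    apply hI
    rw [eq_comm, Ideal.map_eq_bot_iff_of_injective hin] at hmap
    exact hmap
  have hn' : (n : k') ≠ 0 := by
    have h1 := (map_ne_zero (algebraMap k k')).mpr hn
    rwa [map_natCast] at h1
  obtain ⟨F, _, _, _, A, a, ha, hA⟩ := hd1 k' P.R1 hTinj X1 I1 hI1n n hn'
  obtain ⟨Φ, hΦ, hΦ1⟩ := tens_fam k' (Fam k k' X R) H C' P.R1 F
  let algF : Algebra k F := ((algebraMap k' F).comp (algebraMap k k')).toAlgebra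
  have htF : IsScalarTower k k' F := IsScalarTower.of_algebraMap_eq fun _ => rfl
  have hcomp : ∀ f, (evg k' F X) ((evg k k' X) f) = (evg k F X) f := by
    intro f
    have h1 := RingHom.congr_fun (geoV_evg_comp k k' X F) f
    rw [Polynomial.map_X] at h1
    exact h1
  obtain ⟨e, he⟩ := masm_trans (R := R) (evg k k' X) (evg k' F X) (evg k F X) hcomp
  let e' : Fam k' F X (Fam k k' X R) →+* Fam k F X R := e.toRingHom
  refine ⟨F, inferInstance, inferInstance, algF, A.map (e'.comp Φ), e'.comp Φ a, ?_, ?_⟩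
  · intro h0
    apply ha
    apply hΦ
    rw [map_zero]
    apply e.injective
    rw [map_zero]
    exact h0
  · have h1 := congrArg (Ideal.map (e'.comp Φ)) hA
    rw [Ideal.map_mul, Ideal.map_pow, Ideal.map_span, Set.image_singleton] at h1
    rw [← h1]
    congr 1
    have h2 : Ideal.map (Algebra.TensorProduct.includeRight : P.R1 →ₐ[k'] F ⊗[k'] P.R1) I1 =
        Ideal.map ((Algebra.TensorProduct.includeRight : P.R1 →ₐ[k'] F ⊗[k'] P.R1) :
          P.R1 →+* F ⊗[k'] P.R1) I1 := rfl
    rw [h2, Ideal.map_map]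
    have h3 : ((e'.comp Φ).comp
        ((Algebra.TensorProduct.includeRight : P.R1 →ₐ[k'] F ⊗[k'] P.R1) :
          P.R1 →+* F ⊗[k'] P.R1)) =
        (e'.comp (Bs.inR (evg k' F X) (Fam k k' X R))).comp
          (P.R1.val : P.R1 →+* Fam k k' X R) := by
      ext x
      change e (Φ (1 ⊗ₜ[k'] x)) = e (Bs.inR (evg k' F X) (Fam k k' X R) (x : Fam k k' X R))
      rw [hΦ1]
    rw [h3, ← Ideal.map_map, hmap, Ideal.map_map]
    congr 1
    ext r
    change Bs.inR (evg k F X) R r =
      e (Bs.inR (evg k' F X) (Fam k k' X R) (Bs.inR (evg k k' X) R r))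
    rw [he, Bs.map_inR]

end Pool.Agent.AB3
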