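import Mathlib

/-!
# DIV, step M: a place at infinity of degree one
-/

set_option autoImplicit false
set_option linter.unusedSectionVars false

namespace Pool.Agent.AB3

/-- a place at infinity of degree one of the ring `R` with field of fractions `E`: `O` is the
ring of elements without pole at any place at infinity, `π` a prime element of `O` with residue
field `k` -/
structure Pl (k R E : Type) [Field k] [CommRing R] [Algebra k R] [Field E] [Algebra R E] where
  /-- the ring at infinity -/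
  O : Subring E
  /-- the prime element -/
  π : E
  ne : π ≠ 0
  mem : π ∈ O
  inv : π⁻¹ ∉ O
  con : ∀ c : k, algebraMap R E (algebraMap k R c) ∈ O
  res : ∀ z ∈ O, ∃ c : k, ∃ y ∈ O, z = algebraMap R E (algebraMap k R c) + π * y
  zero : ∀ x : R, ∀ y ∈ O, algebraMap R E x = π * y → x = 0
  icl : ∀ z : E, IsIntegral O z → z ∈ O
  fin : ∀ r : E, r ≠ 0 → ∃ s : Set E, s.Finite ∧ ∀ z : E, ∃ e ∈ s, ∃ x : R, ∃ y ∈ O,
    z = e + algebraMap R E x + r * y

variable {k R E : Type} [Field k] [CommRing R] [Algebra k R] [Field E] [Algebra R E]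

/-- the elements of `R` whose only pole is the place `π` -/
def Pl.R1 (P : Pl k R E) : Subalgebra k R where
  carrier := {x | ∃ n : ℕ, P.π ^ n * algebraMap R E x ∈ P.O}
  mul_mem' := by
    rintro a b ⟨m, hm⟩ ⟨n, hn⟩
    refine ⟨m + n, ?_⟩
    have h : P.π ^ (m + n) * algebraMap R E (a * b) =
        (P.π ^ m * algebraMap R E a) * (P.π ^ n * algebraMap R E b) := by
      rw [map_mul, pow_add]; ring
    rw [h]
    exact P.O.mul_mem hm hn
  add_mem' := by
    rintro a b ⟨m, hm⟩ ⟨n, hn⟩
    refine ⟨m + n, ?_⟩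
    have h : P.π ^ (m + n) * algebraMap R E (a + b) =
        P.π ^ n * (P.π ^ m * algebraMap R E a) + P.π ^ m * (P.π ^ n * algebraMap R E b) := by
      rw [map_add, pow_add]; ring
    rw [h]
    exact P.O.add_mem (P.O.mul_mem (P.O.pow_mem P.mem n) hm)
      (P.O.mul_mem (P.O.pow_mem P.mem m) hn)
  algebraMap_mem' := fun c => ⟨0, by rw [pow_zero, one_mul]; exact P.con c⟩

theorem Pl.mem_R1 (P : Pl k R E) (x : R) :
    x ∈ P.R1 ↔ ∃ n : ℕ, P.π ^ n * algebraMap R E x ∈ P.O := Iff.rfl

/-- `x` has degree `d` and leading coefficient `c` -/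
def Pl.Dg (P : Pl k R E) (x : R) (d : ℕ) (c : k) : Prop :=
  c ≠ 0 ∧ ∃ y ∈ P.O, P.π ^ d * algebraMap R E x =
    algebraMap R E (algebraMap k R c) + P.π * y

end Pool.Agent.AB3
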