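import Pool.Agent.Lib.MP_5de024_nt.S.DivX.MDef

/-!
# DIV, step M: degree and leading coefficient
-/

set_option autoImplicit false
set_option linter.unusedSectionVars false

namespace Pool.Agent.AB3

variable {k R E : Type} [Field k] [CommRing R] [Algebra k R] [Field E] [Algebra R E]

/-- nonzero constants are not divisible by `π` -/
theorem dg_unit (P : Pl k R E) (c : k) (hc : c ≠ 0) (y : E) (hy : y ∈ P.O) :
    algebraMap R E (algebraMap k R c) ≠ P.π * y := by
  intro h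
  apply P.inv
  have h1 : algebraMap R E (algebraMap k R c⁻¹) * algebraMap R E (algebraMap k R c) = 1 := by
    rw [← map_mul, ← map_mul, inv_mul_cancel₀ hc, map_one, map_one]
  have h2 : P.π * (algebraMap R E (algebraMap k R c⁻¹) * y) = 1 := by
    rw [h] at h1
    rw [← h1]
    ring
  rw [inv_eq_of_mul_eq_one_right h2]
  exact P.O.mul_mem (P.con _) hy

theorem dg_exists (hinj : Function.Injective (algebraMap R E)) (P : Pl k R E) (x : R)
    (hx : x ≠ 0) (n : ℕ) (hn : P.π ^ n * algebraMap R E x ∈ P.O) :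
    ∃ d ≤ n, ∃ c : k, P.Dg x d c := by
  induction n with
  | zero =>
    obtain ⟨c, y, hy, h⟩ := P.res _ hn
    by_cases hc : c = 0
    · exfalso
      apply hx
      apply P.zero x y hy
      rw [hc, map_zero, map_zero, zero_add, pow_zero, one_mul] at h
      exact h
    · exact ⟨0, le_rfl, c, hc, y, hy, h⟩
  | succ n ih =>
    obtain ⟨c, y, hy, h⟩ := P.res _ hn
    by_cases hc : c = 0
    · rw [hc, map_zero, map_zero, zero_add, pow_succ', mul_assoc] at h
      have h1 := mul_left_cancel₀ P.ne h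
      obtain ⟨d, hd, c', hc'⟩ := ih (by rw [h1]; exact hy)
      exact ⟨d, by omega, c', hc'⟩
    · exact ⟨n + 1, le_rfl, c, hc, y, hy, h⟩

theorem dg_not_lt (P : Pl k R E) {x : R} {d d' : ℕ} {c c' : k} (h : P.Dg x d c)
    (h' : P.Dg x d' c') : ¬ d < d' := by
  intro hlt
  obtain ⟨hc, y, hy, h1⟩ := h
  obtain ⟨hc', y', hy', h2⟩ := h'
  obtain ⟨e, rfl⟩ : ∃ e, d' = d + (e + 1) := ⟨d' - d - 1, by omega⟩
  refine dg_unit P c' hc' (P.π ^ e * (algebraMap R E (algebraMap k R c) + P.π * y) - y') ?_ ?_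
  · exact P.O.sub_mem (P.O.mul_mem (P.O.pow_mem P.mem e)
      (P.O.add_mem (P.con c) (P.O.mul_mem P.mem hy))) hy'
  · rw [← h1]
    have h3 : algebraMap R E (algebraMap k R c') =
        P.π ^ (d + (e + 1)) * algebraMap R E x - P.π * y' := by
      rw [h2]
      ring
    rw [h3]
    ring

theorem dg_unique (P : Pl k R E) {x : R} {d d' : ℕ} {c c' : k} (h : P.Dg x d c)
    (h' : P.Dg x d' c') : d = d' ∧ c = c' := by
  have hd : d = d' := by
    have h1 := dg_not_lt P h h'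
    have h2 := dg_not_lt P h' h
    omega
  subst hd
  refine ⟨rfl, ?_⟩
  obtain ⟨hc, y, hy, h1⟩ := h
  obtain ⟨hc', y', hy', h2⟩ := h'
  by_contra hne
  refine dg_unit P (c - c') (sub_ne_zero.2 hne) (y' - y) (P.O.sub_mem hy' hy) ?_
  rw [map_sub, map_sub]
  linear_combination h2 - h1

theorem dg_ne (P : Pl k R E) {x : R} {d : ℕ} {c : k} (h : P.Dg x d c) : x ≠ 0 := by
  rintro rfl
  obtain ⟨hc, y, hy, h1⟩ := h
  refine dg_unit P c hc (-y) (P.O.neg_mem hy) ?_
  rw [map_zero, mul_zero] at h1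
  linear_combination -h1

theorem dg_mem (P : Pl k R E) {x : R} {d : ℕ} {c : k} (h : P.Dg x d c) (n : ℕ) (hn : d ≤ n) :
    P.π ^ n * algebraMap R E x ∈ P.O := by
  obtain ⟨hc, y, hy, h1⟩ := h
  obtain ⟨e, rfl⟩ : ∃ e, n = d + e := ⟨n - d, by omega⟩
  have h2 : P.π ^ (d + e) * algebraMap R E x =
      P.π ^ e * (algebraMap R E (algebraMap k R c) + P.π * y) := by
    rw [← h1]
    ring
  rw [h2]
  exact P.O.mul_mem (P.O.pow_mem P.mem e) (P.O.add_mem (P.con c) (P.O.mul_mem P.mem hy))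

theorem dg_mul (P : Pl k R E) {x y : R} {d d' : ℕ} {c c' : k} (h : P.Dg x d c)
    (h' : P.Dg y d' c') : P.Dg (x * y) (d + d') (c * c') := by
  obtain ⟨hc, z, hz, h1⟩ := h
  obtain ⟨hc', z', hz', h2⟩ := h'
  refine ⟨mul_ne_zero hc hc', algebraMap R E (algebraMap k R c) * z' +
    algebraMap R E (algebraMap k R c') * z + P.π * (z * z'), ?_, ?_⟩
  · exact P.O.add_mem (P.O.add_mem (P.O.mul_mem (P.con c) hz') (P.O.mul_mem (P.con c') hz))
      (P.O.mul_mem P.mem (P.O.mul_mem hz hz'))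
  · have h3 : P.π ^ (d + d') * algebraMap R E (x * y) =
        (P.π ^ d * algebraMap R E x) * (P.π ^ d' * algebraMap R E y) := by
      rw [map_mul]
      ring
    rw [h3, h1, h2, map_mul, map_mul]
    ring

theorem dg_add (P : Pl k R E) {x y : R} {d d' : ℕ} {c c' : k} (h : P.Dg x d c)
    (h' : P.Dg y d' c') (hd : d < d') : P.Dg (x + y) d' c' := by
  obtain ⟨hc, z, hz, h1⟩ := h
  obtain ⟨hc', z', hz', h2⟩ := h'
  obtain ⟨e, rfl⟩ : ∃ e, d' = d + (e + 1) := ⟨d' - d - 1, by omega⟩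
  refine ⟨hc', P.π ^ e * (algebraMap R E (algebraMap k R c) + P.π * z) + z', ?_, ?_⟩
  · exact P.O.add_mem (P.O.mul_mem (P.O.pow_mem P.mem e)
      (P.O.add_mem (P.con c) (P.O.mul_mem P.mem hz))) hz'
  · rw [← h1, map_add, mul_add, h2]
    ring

theorem dg_sub (hinj : Function.Injective (algebraMap R E)) (P : Pl k R E) {x y : R} {d : ℕ}
    {c : k} (h : P.Dg x d c) (h' : P.Dg y d c) (hxy : x ≠ y) :
    ∃ d' < d, ∃ c' : k, P.Dg (x - y) d' c' := by
  obtain ⟨hc, z, hz, h1⟩ := h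
  obtain ⟨hc', z', hz', h2⟩ := h'
  have h3 : P.π ^ d * algebraMap R E (x - y) = P.π * (z - z') := by
    rw [map_sub, mul_sub, h1, h2]
    ring
  rcases Nat.eq_zero_or_pos d with rfl | hd
  · exfalso
    apply hxy
    rw [pow_zero, one_mul] at h3
    exact sub_eq_zero.1 (P.zero _ _ (P.O.sub_mem hz hz') h3)
  · obtain ⟨e, rfl⟩ : ∃ e, d = e + 1 := ⟨d - 1, by omega⟩
    rw [pow_succ', mul_assoc] at h3
    have h4 := mul_left_cancel₀ P.ne h3
    obtain ⟨d', hd', c', hc'⟩ := dg_exists hinj P (x - y) (sub_ne_zero.2 hxy) e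
      (by rw [h4]; exact P.O.sub_mem hz hz')
    exact ⟨d', by omega, c', hc'⟩

theorem dg_con (P : Pl k R E) (c : k) (hc : c ≠ 0) : P.Dg (algebraMap k R c) 0 c :=
  ⟨hc, 0, P.O.zero_mem, by rw [pow_zero, one_mul, mul_zero, add_zero]⟩

end Pool.Agent.AB3
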