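import Pool.Agent.Lib.MP_5de024_nt.S.DivX.MDef

/-!
# DIV, step M: growth
-/

set_option autoImplicit false
set_option linter.unusedSectionVars false

namespace Pool.Agent.AB3

variable {k R E : Type} [Field k] [CommRing R] [Algebra k R] [Field E] [Algebra R E]

private theorem mGr_fin [Finite k] (P : Pl k R E) (n : ℕ) :
    {x : R | P.π ^ n * algebraMap R E x ∈ P.O}.Finite := by
  -- it is enough to consider the elements with given leading coefficient
  have hcov : {x : R | P.π ^ n * algebraMap R E x ∈ P.O} ⊆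
      ⋃ c : k, {x : R | ∃ y ∈ P.O, P.π ^ n * algebraMap R E x =
        algebraMap R E (algebraMap k R c) + P.π * y} := by
    intro x hx
    obtain ⟨c, y, hy, h⟩ := P.res _ hx
    exact Set.mem_iUnion.2 ⟨c, y, hy, h⟩
  refine Set.Finite.subset (Set.finite_iUnion fun c => ?_) hcov
  clear hcov
  rcases Set.eq_empty_or_nonempty {x : R | ∃ y ∈ P.O, P.π ^ n * algebraMap R E x =
      algebraMap R E (algebraMap k R c) + P.π * y} with h0 | ⟨x0, y0, hy0, e0⟩
  · rw [h0]
    exact Set.finite_empty
  cases n with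
  | zero =>
    refine (Set.finite_singleton x0).subset ?_
    rintro x ⟨y, hy, e⟩
    have h1 : x - x0 = 0 := by
      refine P.zero _ (y - y0) (P.O.sub_mem hy hy0) ?_
      rw [pow_zero, one_mul] at e e0
      rw [map_sub, e, e0]
      ring
    exact sub_eq_zero.1 h1
  | succ n =>
    refine ((mGr_fin P n).image fun x => x + x0).subset ?_
    rintro x ⟨y, hy, e⟩
    refine ⟨x - x0, ?_, sub_add_cancel x x0⟩
    have h1 : P.π * (P.π ^ n * algebraMap R E (x - x0)) = P.π * (y - y0) := by
      rw [map_sub]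
      linear_combination e - e0
    have h2 := mul_left_cancel₀ P.ne h1
    rw [Set.mem_ofPred_eq, h2]
    exact P.O.sub_mem hy hy0

theorem pl_fin [Finite k] (hinj : Function.Injective (algebraMap R E)) (P : Pl k R E) (n : ℕ) :
    Finite {x : R // P.π ^ n * algebraMap R E x ∈ P.O} := (mGr_fin P n).to_subtype

/-- the polynomials in `1 / π` -/
private noncomputable def mGrz (P : Pl k R E) (n : ℕ) (a : Fin n → k) : E :=
  ∑ i : Fin n, algebraMap R E (algebraMap k R (a i)) * (P.π⁻¹) ^ ((i : ℕ) + 1)

private theorem mGrz_succ (P : Pl k R E) (n : ℕ) (a : Fin (n + 1) → k) :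
    mGrz P (n + 1) a = mGrz P n (fun i => a i.castSucc) +
      algebraMap R E (algebraMap k R (a (Fin.last n))) * (P.π⁻¹) ^ (n + 1) := by
  unfold mGrz
  rw [Fin.sum_univ_castSucc]
  rfl

private theorem mGrz_mul (P : Pl k R E) (n : ℕ) (a : Fin n → k) :
    P.π ^ n * mGrz P n a ∈ P.O := by
  induction n with
  | zero =>
    unfold mGrz
    rw [Finset.univ_eq_empty, Finset.sum_empty, mul_zero]
    exact P.O.zero_mem
  | succ n ih =>
    rw [mGrz_succ]
    have h1 : P.π ^ (n + 1) * (mGrz P n (fun i => a i.castSucc) +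
        algebraMap R E (algebraMap k R (a (Fin.last n))) * (P.π⁻¹) ^ (n + 1)) =
        P.π * (P.π ^ n * mGrz P n (fun i => a i.castSucc)) +
          algebraMap R E (algebraMap k R (a (Fin.last n))) := by
      have h2 : P.π ^ (n + 1) * (P.π⁻¹) ^ (n + 1) = 1 := by
        rw [← mul_pow, mul_inv_cancel₀ P.ne, one_pow]
      linear_combination algebraMap R E (algebraMap k R (a (Fin.last n))) * h2
    rw [h1]
    exact P.O.add_mem (P.O.mul_mem P.mem (ih _)) (P.con _)

private theorem mGrz_zero (P : Pl k R E) (n : ℕ) (a : Fin n → k) (h : mGrz P n a ∈ P.O) :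
    a = 0 := by
  induction n with
  | zero => exact funext fun i => i.elim0
  | succ n ih =>
    have h1 := P.O.mul_mem (P.O.pow_mem P.mem n) h
    have h2 : P.π ^ n * mGrz P (n + 1) a = P.π ^ n * mGrz P n (fun i => a i.castSucc) +
        algebraMap R E (algebraMap k R (a (Fin.last n))) * P.π⁻¹ := by
      have h3 : P.π ^ n * (P.π⁻¹) ^ (n + 1) = P.π⁻¹ := by
        rw [pow_succ, ← mul_assoc, ← mul_pow, mul_inv_cancel₀ P.ne, one_pow, one_mul]
      rw [mGrz_succ]
      linear_combination algebraMap R E (algebraMap k R (a (Fin.last n))) * h3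
    rw [h2] at h1
    have h3 := P.O.sub_mem h1 (mGrz_mul P n fun i => a i.castSucc)
    rw [add_sub_cancel_left] at h3
    have h4 : a (Fin.last n) = 0 := by
      by_contra h5
      refine P.inv ?_
      have h6 := P.O.mul_mem (P.con (a (Fin.last n))⁻¹) h3
      have h7 : algebraMap R E (algebraMap k R (a (Fin.last n))⁻¹) *
          (algebraMap R E (algebraMap k R (a (Fin.last n))) * P.π⁻¹) = P.π⁻¹ := by
        rw [← mul_assoc, ← map_mul, ← map_mul, inv_mul_cancel₀ h5, map_one, map_one, one_mul]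
      rwa [h7] at h6
    have h5 : mGrz P n (fun i => a i.castSucc) ∈ P.O := by
      have h6 := mGrz_succ P n a
      rw [h4, map_zero, map_zero, zero_mul, add_zero] at h6
      rwa [← h6]
    have h6 := ih _ h5
    funext i
    refine Fin.lastCases h4 (fun j => ?_) i
    exact congrFun h6 j

private theorem mGrz_sub (P : Pl k R E) (n : ℕ) (a b : Fin n → k) :
    mGrz P n (a - b) = mGrz P n a - mGrz P n b := by
  unfold mGrz
  rw [← Finset.sum_sub_distrib]
  refine Finset.sum_congr rfl fun i _ => ?_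
  rw [Pi.sub_apply, map_sub, map_sub, sub_mul]

theorem pl_growth [Finite k] (hinj : Function.Injective (algebraMap R E)) (P : Pl k R E) :
    ∃ c : ℕ, ∀ n : ℕ, Nat.card k ^ n ≤
      Nat.card k ^ c * Nat.card {x : R // P.π ^ n * algebraMap R E x ∈ P.O} := by
  obtain ⟨s, hs, hs'⟩ := P.fin 1 one_ne_zero
  have hsf : Finite s := hs.to_subtype
  refine ⟨Nat.card s, fun n => ?_⟩
  have hLf := pl_fin hinj P n
  choose e he x y hy hz using fun a : Fin n → k => hs' (mGrz P n a)
  obtain ⟨a0, ha0⟩ : ∃ a0 : E → (Fin n → k), ∀ a, e (a0 (e a)) = e a := by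
    classical
    refine ⟨fun z => if h : ∃ a, e a = z then h.choose else 0, fun a => ?_⟩
    have h1 : ∃ a', e a' = e a := ⟨a, rfl⟩
    simp only [dif_pos h1]
    exact h1.choose_spec
  have hmem : ∀ a, P.π ^ n * algebraMap R E (x a - x (a0 (e a))) ∈ P.O := by
    intro a
    have h1 : P.π ^ n * algebraMap R E (x a - x (a0 (e a))) =
        P.π ^ n * mGrz P n a - P.π ^ n * mGrz P n (a0 (e a)) -
          P.π ^ n * (y a - y (a0 (e a))) := by
      rw [hz a, hz (a0 (e a)), ha0, map_sub]
      ring
    rw [h1]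
    exact P.O.sub_mem (P.O.sub_mem (mGrz_mul P n a) (mGrz_mul P n _))
      (P.O.mul_mem (P.O.pow_mem P.mem n) (P.O.sub_mem (hy _) (hy _)))
  have hinj' : Function.Injective (fun a : Fin n → k =>
      ((⟨e a, he a⟩ : s), (⟨x a - x (a0 (e a)), hmem a⟩ :
        {x : R // P.π ^ n * algebraMap R E x ∈ P.O}))) := by
    intro a b hab
    have h1 : e a = e b := congrArg Subtype.val (congrArg Prod.fst hab)
    have h2 : x a - x (a0 (e a)) = x b - x (a0 (e b)) :=
      congrArg Subtype.val (congrArg Prod.snd hab)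
    rw [h1] at h2
    have h3 : x a = x b := sub_left_inj.1 h2
    have h4 : mGrz P n (a - b) ∈ P.O := by
      have h5 : mGrz P n (a - b) = y a - y b := by
        rw [mGrz_sub, hz a, hz b, h1, h3]
        ring
      rw [h5]
      exact P.O.sub_mem (hy a) (hy b)
    exact sub_eq_zero.1 (mGrz_zero P n _ h4)
  have h1 := Nat.card_le_card_of_injective _ hinj'
  rw [Nat.card_fun, Nat.card_prod, Nat.card_fin] at h1
  refine h1.trans (Nat.mul_le_mul_right _ ?_)
  exact (Nat.lt_pow_self (Finite.one_lt_card (α := k))).le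

end Pool.Agent.AB3
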