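import Pool.Agent.Lib.MP_5de024_nt.C.Abs
import Pool.Agent.Lib.MP_5de024_nt.S.DivX.MGr
import Pool.Agent.Lib.MP_5de024_nt.S.DivX.MDg

/-!
# DIV, step M: one place at infinity
-/

set_option autoImplicit false
set_option linter.unusedSectionVars false

namespace Pool.Agent.AB3

open Pool.Agent.AB

variable {k R E : Type} [Field k] [CommRing R] [Algebra k R] [Field E] [Algebra R E]

theorem pl_one [Finite k] (hinj : Function.Injective (algebraMap R E)) (P : Pl k R E) :
    Nonempty (OneInf k P.R1) := by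
  classical
  have hex : ∀ a : P.R1, a ≠ 0 → ∃ (d : ℕ) (c : k), P.Dg (a : R) d c := by
    intro a ha
    obtain ⟨n, hn⟩ := a.2
    have ha' : (a : R) ≠ 0 := fun h => ha (Subtype.ext h)
    obtain ⟨d, -, c, h⟩ := dg_exists hinj P (a : R) ha' n hn
    exact ⟨d, c, h⟩
  choose! D C hD using hex
  obtain ⟨dd, hdd⟩ : ∃ dd : P.R1 → ℕ, ∀ a, dd a = if a = 0 then 0 else D a := ⟨_, fun _ => rfl⟩
  obtain ⟨lc, hlc⟩ : ∃ lc : P.R1 → k, ∀ a, lc a = if a = 0 then 0 else C a := ⟨_, fun _ => rfl⟩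
  have hd0 : dd 0 = 0 := by rw [hdd, if_pos rfl]
  have hl0 : lc 0 = 0 := by rw [hlc, if_pos rfl]
  have hne : ∀ a : P.R1, a ≠ 0 → P.Dg (a : R) (dd a) (lc a) := by
    intro a ha
    rw [hdd, hlc, if_neg ha, if_neg ha]
    exact hD a ha
  have hu : ∀ (a : P.R1) (d : ℕ) (c : k), P.Dg (a : R) d c → dd a = d ∧ lc a = c := by
    intro a d c h
    have ha : a ≠ 0 := by
      rintro rfl
      exact dg_ne P h rfl
    exact dg_unique P (hne a ha) h
  have hcon : ∀ c : k, dd (algebraMap k P.R1 c) = 0 ∧ lc (algebraMap k P.R1 c) = c := by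
    intro c
    by_cases hc : c = 0
    · rw [hc, map_zero]
      exact ⟨hd0, hl0⟩
    · exact hu _ 0 c (dg_con P c hc)
  have hmul : ∀ a b : P.R1, a ≠ 0 → b ≠ 0 →
      dd (a * b) = dd a + dd b ∧ lc (a * b) = lc a * lc b := fun a b ha hb =>
    hu (a * b) _ _ (dg_mul P (hne a ha) (hne b hb))
  refine ⟨{
    d := dd
    lc := lc
    lc_zero := hl0
    lc_ne := fun a ha => (hne a ha).1
    lc_mul := ?_
    lc_alg := fun c => (hcon c).2
    d_alg := fun c => (hcon c).1
    d_mul := fun a b ha hb => (hmul a b ha hb).1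
    add_of_lt := ?_
    sub_lt := ?_
    growth := ?_ }⟩
  · intro a b
    by_cases ha : a = 0
    · rw [ha, zero_mul, hl0, zero_mul]
    by_cases hb : b = 0
    · rw [hb, mul_zero, hl0, mul_zero]
    exact (hmul a b ha hb).2
  · intro a b ha hb hab
    exact hu (a + b) _ _ (dg_add P (hne a ha) (hne b hb) hab)
  · intro a b ha hb hab hd hl
    have h1 := hne b hb
    rw [← hd, ← hl] at h1
    obtain ⟨d', hd', c', h2⟩ := dg_sub hinj P (hne a ha) h1 (fun h => hab (Subtype.ext h))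
    rw [(hu (a - b) d' c' h2).1]
    exact hd'
  · obtain ⟨c, hc⟩ := pl_growth hinj P
    refine ⟨c, fun n => (hc n).trans (Nat.mul_le_mul_left _ ?_)⟩
    have hfin := pl_fin hinj P n
    have hb : ∀ a : {a : P.R1 // a = 0 ∨ dd a ≤ n},
        P.π ^ n * algebraMap R E (a.1 : R) ∈ P.O := by
      rintro ⟨a, ha⟩
      by_cases h0 : a = 0
      · have h1 : ((a : P.R1) : R) = 0 := by rw [h0]; rfl
        change P.π ^ n * algebraMap R E (a : R) ∈ P.O
        rw [h1, map_zero, mul_zero]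
        exact P.O.zero_mem
      · exact dg_mem P (hne a h0) n (ha.resolve_left h0)
    have hfin' : Finite {a : P.R1 // a = 0 ∨ dd a ≤ n} :=
      Finite.of_injective
        (fun a => (⟨(a.1 : R), hb a⟩ : {x : R // P.π ^ n * algebraMap R E x ∈ P.O}))
        (fun a b hab => by
          have h := congrArg (fun z : {x : R // P.π ^ n * algebraMap R E x ∈ P.O} => z.1) hab
          exact Subtype.ext (Subtype.ext h))
    have hg : ∀ x : {x : R // P.π ^ n * algebraMap R E x ∈ P.O},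
        ((⟨x.1, n, x.2⟩ : P.R1) = 0 ∨ dd ⟨x.1, n, x.2⟩ ≤ n) := by
      intro x
      by_cases h0 : (⟨x.1, n, x.2⟩ : P.R1) = 0
      · exact Or.inl h0
      · right
        have h1 : x.1 ≠ 0 := fun h => h0 (Subtype.ext h)
        obtain ⟨d, hd, c', h2⟩ := dg_exists hinj P x.1 h1 n x.2
        rw [(hu ⟨x.1, n, x.2⟩ d c' h2).1]
        exact hd
    exact Nat.card_le_card_of_injective
      (fun x => (⟨⟨x.1, n, x.2⟩, hg x⟩ : {a : P.R1 // a = 0 ∨ dd a ≤ n}))
      (fun x y hxy => by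
        have h := congrArg (fun z : {a : P.R1 // a = 0 ∨ dd a ≤ n} => ((z.1 : P.R1) : R)) hxy
        exact Subtype.ext h)

end Pool.Agent.AB3
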